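import Pool.Agent.Lib.MP_1d980c_gt.S4.ManGen

/-! Complex structures on a manifold from pieces of covers with complex coordinates. -/

set_option autoImplicit false
open Topology Set
open scoped ContDiff Manifold

namespace Pool.Agent.WallC

open Pool.Agent.S4T2

section Piece

variable {k : ℕ} {EP HP P : Type} [NormedAddCommGroup EP] [NormedSpace ℝ EP]
    [TopologicalSpace HP] {IP : ModelWithCorners ℝ EP HP} [TopologicalSpace P] [ChartedSpace HP P]
    {E' H M : Type} [NormedAddCommGroup E'] [NormedSpace ℝ E'] [TopologicalSpace H]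
    {J : ModelWithCorners ℝ E' H} [TopologicalSpace M] [ChartedSpace H M]

variable (IP J) in
/-- `π` is a local diffeomorphism on the open set `S`, and `Φ` are smooth complex coordinates on
`S`. -/
structure IsPiece (S : Set P) (π : P → M) (Φ : P → EuclideanSpace ℂ (Fin k)) : Prop where
  isOpen : IsOpen S
  loc : ∀ p ∈ S, IsLocalDiffeomorphAt IP J ∞ π p
  smooth : ∀ p ∈ S, ContMDiffAt IP 𝓘(ℝ, EuclideanSpace ℂ (Fin k)) ∞ Φ p
  bij : ∀ p ∈ S, Function.Bijective (mfderiv IP 𝓘(ℝ, EuclideanSpace ℂ (Fin k)) Φ p)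

/-- The germs at `m` of functions which are given by `Φ` on the piece. -/
def pieceGm (S : Set P) (π : P → M) (Φ : P → EuclideanSpace ℂ (Fin k)) (m : M) :
    Set (M → EuclideanSpace ℂ (Fin k)) :=
  {f | ∃ p ∈ S, π p = m ∧ ∀ᶠ x in 𝓝 p, f (π x) = Φ x}

/-- The derivative of `f` at `m` is bijective if `f ∘ π = Φ` near `σ m`. -/
private lemma bij_of_cover {π : P → M} {σ : M → P} {f : M → EuclideanSpace ℂ (Fin k)}
    {Φ : P → EuclideanSpace ℂ (Fin k)} {m : M} (hm : π (σ m) = m)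
    (hσ : ContMDiffAt J IP ∞ σ m) (hπ : ContMDiffAt IP J ∞ π (σ m))
    (hid : ∀ᶠ y in 𝓝 m, π (σ y) = y)
    (hf : ContMDiffAt J 𝓘(ℝ, EuclideanSpace ℂ (Fin k)) ∞ f m)
    (hfΦ : ∀ᶠ x in 𝓝 (σ m), f (π x) = Φ x)
    (hb : Function.Bijective (mfderiv IP 𝓘(ℝ, EuclideanSpace ℂ (Fin k)) Φ (σ m))) :
    Function.Bijective (mfderiv J 𝓘(ℝ, EuclideanSpace ℂ (Fin k)) f m) := by
  obtain ⟨s, hs⟩ : ∃ s : E' →L[ℝ] EP, HasMFDerivAt J IP σ m s :=
    ⟨_, (hσ.mdifferentiableAt (by simp)).hasMFDerivAt⟩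
  obtain ⟨q, hq⟩ : ∃ q : EP →L[ℝ] E', HasMFDerivAt IP J π (σ m) q :=
    ⟨_, (hπ.mdifferentiableAt (by simp)).hasMFDerivAt⟩
  obtain ⟨t, ht⟩ : ∃ t : E' →L[ℝ] EuclideanSpace ℂ (Fin k),
      HasMFDerivAt J 𝓘(ℝ, EuclideanSpace ℂ (Fin k)) f m t :=
    ⟨_, (hf.mdifferentiableAt (by simp)).hasMFDerivAt⟩
  have ht' : HasMFDerivAt J 𝓘(ℝ, EuclideanSpace ℂ (Fin k)) f (π (σ m)) t := by
    rw [hm]
    exact ht
  have h1 : HasMFDerivAt J J (π ∘ σ) m (q.comp s) := hq.comp m hs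
  have h1' : HasMFDerivAt J J (π ∘ σ) m (ContinuousLinearMap.id ℝ E') :=
    (hasMFDerivAt_id m).congr_of_eventuallyEq hid
  have h2 : q.comp s = ContinuousLinearMap.id ℝ E' := hasMFDerivAt_unique h1 h1'
  have h3 : HasMFDerivAt IP 𝓘(ℝ, EuclideanSpace ℂ (Fin k)) (f ∘ π) (σ m) (t.comp q) :=
    ht'.comp (σ m) hq
  have h4 : HasMFDerivAt IP 𝓘(ℝ, EuclideanSpace ℂ (Fin k)) Φ (σ m) (t.comp q) :=
    h3.congr_of_eventuallyEq (hfΦ.mono fun x hx => hx.symm)
  rw [h4.mfderiv] at hb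
  rw [ht.mfderiv]
  have h5 : ∀ u : E', q (s u) = u := fun u => DFunLike.congr_fun h2 u
  constructor
  · intro u v huv
    have h6 : (t.comp q) (s u) = (t.comp q) (s v) := by
      change t (q (s u)) = t (q (s v))
      rw [h5, h5]
      exact huv
    have h7 : s u = s v := hb.1 h6
    exact (h5 u).symm.trans ((congrArg (fun e => q e) h7).trans (h5 v))
  · intro z
    obtain ⟨w, hw⟩ := hb.2 z
    exact ⟨q w, hw⟩

variable {S : Set P} {π : P → M} {Φ : P → EuclideanSpace ℂ (Fin k)}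

/-- Near the image of a point of the piece there is a germ. -/
lemma IsPiece.exists_germ (h : IsPiece IP J S π Φ) {p : P} (hp : p ∈ S) :
    ∃ f ∈ pieceGm S π Φ (π p), ∀ᶠ y in 𝓝 (π p), f ∈ pieceGm S π Φ y := by
  have hl := h.loc p hp
  have hc : Filter.Tendsto hl.localInverse (𝓝 (π p)) (𝓝 p) := by
    have h1 := hl.localInverse_contMDiffAt.continuousAt.tendsto
    rwa [show hl.localInverse (π p) = p from hl.localInverse_left_inv hl.localInverse_mem_target]
      at h1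
  have hev : ∀ y, y ∈ hl.localInverse.source → hl.localInverse y ∈ S →
      (fun y => Φ (hl.localInverse y)) ∈ pieceGm S π Φ y := by
    intro y hy hyS
    refine ⟨hl.localInverse y, hyS, hl.localInverse_right_inv hy, ?_⟩
    have h2 : hl.localInverse y ∈ hl.localInverse.target := hl.localInverse.map_source hy
    filter_upwards [hl.localInverse.open_target.mem_nhds h2] with x hx
    rw [hl.localInverse_left_inv hx]
  have h3 : ∀ᶠ y in 𝓝 (π p), (fun y => Φ (hl.localInverse y)) ∈ pieceGm S π Φ y := by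
    filter_upwards [hl.localInverse.open_source.mem_nhds hl.localInverse_mem_source,
      hc.eventually (h.isOpen.mem_nhds hp)] with y hy hy'
    exact hev y hy hy'
  exact ⟨_, h3.self_of_nhds, h3⟩

/-- There is a germ which is given by the coordinates near a given point of the piece. -/
lemma IsPiece.exists_germ_at (h : IsPiece IP J S π Φ) {p : P} (hp : p ∈ S) :
    ∃ f : M → EuclideanSpace ℂ (Fin k), ∀ᶠ x in 𝓝 p, f (π x) = Φ x := by
  have hl := h.loc p hp
  refine ⟨fun y => Φ (hl.localInverse y), ?_⟩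
  filter_upwards [hl.localInverse.open_target.mem_nhds hl.localInverse_mem_target] with x hx
  rw [hl.localInverse_left_inv hx]

/-- The germs of a piece are smooth with bijective derivative. -/
lemma IsPiece.germ (h : IsPiece IP J S π Φ) {m : M} {f : M → EuclideanSpace ℂ (Fin k)}
    (hf : f ∈ pieceGm S π Φ m) :
    ContMDiffAt J 𝓘(ℝ, EuclideanSpace ℂ (Fin k)) ∞ f m ∧
      Function.Bijective (mfderiv J 𝓘(ℝ, EuclideanSpace ℂ (Fin k)) f m) := by
  obtain ⟨p, hp, rfl, hf⟩ := hf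
  have hl := h.loc p hp
  have hl0 : hl.localInverse (π p) = p := hl.localInverse_left_inv hl.localInverse_mem_target
  have hc : Filter.Tendsto hl.localInverse (𝓝 (π p)) (𝓝 p) := by
    have h1 := hl.localInverse_contMDiffAt.continuousAt.tendsto
    rwa [show hl.localInverse (π p) = p from hl0] at h1
  have hg : ∀ᶠ y in 𝓝 (π p), f y = Φ (hl.localInverse y) := by
    filter_upwards [hc.eventually hf,
      hl.localInverse.open_source.mem_nhds hl.localInverse_mem_source] with y h1 h2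
    rw [← h1, hl.localInverse_right_inv h2]
  have hcf : ContMDiffAt J 𝓘(ℝ, EuclideanSpace ℂ (Fin k)) ∞ f (π p) := by
    have h1 : ContMDiffAt J 𝓘(ℝ, EuclideanSpace ℂ (Fin k)) ∞
        (fun y => Φ (hl.localInverse y)) (π p) := by
      refine ContMDiffAt.comp (π p) ?_ hl.localInverse_contMDiffAt
      rw [hl0]
      exact h.smooth p hp
    exact h1.congr_of_eventuallyEq hg
  refine ⟨hcf, ?_⟩
  refine bij_of_cover (IP := IP) (π := π) (σ := hl.localInverse) (Φ := Φ) ?_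
    hl.localInverse_contMDiffAt ?_ hl.localInverse_eventuallyEq_right hcf ?_ ?_
  · rw [hl0]
  · rw [hl0]
    exact hl.contMDiffAt
  · rw [hl0]
    exact hf
  · rw [hl0]
    exact h.bij p hp

/-- Two germs of two pieces are related by a holomorphic map if so are the coordinates. -/
lemma IsPiece.rel (h : IsPiece IP J S π Φ) {EP' HP' P' : Type} [NormedAddCommGroup EP']
    [NormedSpace ℝ EP'] [TopologicalSpace HP'] {IP' : ModelWithCorners ℝ EP' HP'}
    [TopologicalSpace P'] [ChartedSpace HP' P'] {S' : Set P'} {π' : P' → M}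
    {Φ' : P' → EuclideanSpace ℂ (Fin k)} (h' : IsPiece IP' J S' π' Φ')
    (hdeck : ∀ p ∈ S, ∀ p' ∈ S', π p = π' p' → ∃ (g : P → P')
      (T : EuclideanSpace ℂ (Fin k) → EuclideanSpace ℂ (Fin k)), ContinuousAt g p ∧ g p = p' ∧
      (∀ᶠ x in 𝓝 p, π' (g x) = π x) ∧ ContDiffAt ℂ ∞ T (Φ p) ∧ ∀ᶠ x in 𝓝 p, Φ' (g x) = T (Φ x))
    {m : M} {f f' : M → EuclideanSpace ℂ (Fin k)} (hf : f ∈ pieceGm S π Φ m)
    (hf' : f' ∈ pieceGm S' π' Φ' m) : HolRel m f f' := by
  obtain ⟨p, hp, rfl, hf⟩ := hf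
  obtain ⟨p', hp', hpp, hf'⟩ := hf'
  have hl := h.loc p hp
  have hl0 : hl.localInverse (π p) = p := hl.localInverse_left_inv hl.localInverse_mem_target
  have hc : Filter.Tendsto hl.localInverse (𝓝 (π p)) (𝓝 p) := by
    have h1 := hl.localInverse_contMDiffAt.continuousAt.tendsto
    rwa [show hl.localInverse (π p) = p from hl0] at h1
  obtain ⟨g, T, hg1, hg2, hg3, hg4, hg5⟩ := hdeck p hp p' hp' hpp.symm
  refine ⟨T, ?_, ?_⟩
  · rw [hf.self_of_nhds]
    exact hg4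
  · have h3 : Filter.Tendsto g (𝓝 p) (𝓝 p') := by
      have h4 := hg1.tendsto
      rwa [hg2] at h4
    have h5 : ∀ᶠ x in 𝓝 p, f' (π x) = T (f (π x)) := by
      filter_upwards [h3.eventually hf', hg3, hg5, hf] with x k1 k2 k3 k4
      rw [k4, ← k3, ← k1, k2]
    filter_upwards [hc.eventually h5,
      hl.localInverse.open_source.mem_nhds hl.localInverse_mem_source] with y k1 k2
    rwa [hl.localInverse_right_inv k2] at k1

end Piece

section Prod

variable {E₁ H₁ X₁ E₂ H₂ X₂ F₁ G₁ Y₁ F₂ G₂ Y₂ : Type}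
    [NormedAddCommGroup E₁] [NormedSpace ℝ E₁] [TopologicalSpace H₁]
    {I₁ : ModelWithCorners ℝ E₁ H₁} [TopologicalSpace X₁] [ChartedSpace H₁ X₁]
    [NormedAddCommGroup E₂] [NormedSpace ℝ E₂] [TopologicalSpace H₂]
    {I₂ : ModelWithCorners ℝ E₂ H₂} [TopologicalSpace X₂] [ChartedSpace H₂ X₂]
    [NormedAddCommGroup F₁] [NormedSpace ℝ F₁] [TopologicalSpace G₁]
    {J₁ : ModelWithCorners ℝ F₁ G₁} [TopologicalSpace Y₁] [ChartedSpace G₁ Y₁]
    [NormedAddCommGroup F₂] [NormedSpace ℝ F₂] [TopologicalSpace G₂]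
    {J₂ : ModelWithCorners ℝ F₂ G₂} [TopologicalSpace Y₂] [ChartedSpace G₂ Y₂]

/-- The product of two local diffeomorphisms. -/
lemma IsLocalDiffeomorphAt.prodMapW {f : X₁ → Y₁} {g : X₂ → Y₂} {x : X₁} {y : X₂}
    (hf : IsLocalDiffeomorphAt I₁ J₁ ∞ f x) (hg : IsLocalDiffeomorphAt I₂ J₂ ∞ g y) :
    IsLocalDiffeomorphAt (I₁.prod I₂) (J₁.prod J₂) ∞ (Prod.map f g) (x, y) := by
  obtain ⟨Φ, hx, hΦ⟩ := hf
  obtain ⟨Ψ, hy, hΨ⟩ := hg
  let Θ : PartialDiffeomorph (I₁.prod I₂) (J₁.prod J₂) (X₁ × X₂) (Y₁ × Y₂) ∞ :=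
    { toPartialEquiv := Φ.toPartialEquiv.prod Ψ.toPartialEquiv
      open_source := Φ.open_source.prod Ψ.open_source
      open_target := Φ.open_target.prod Ψ.open_target
      contMDiffOn_toFun := Φ.contMDiffOn_toFun.prodMap Ψ.contMDiffOn_toFun
      contMDiffOn_invFun := Φ.contMDiffOn_invFun.prodMap Ψ.contMDiffOn_invFun }
  refine ⟨Θ, ⟨hx, hy⟩, ?_⟩
  rintro ⟨x', y'⟩ ⟨hx', hy'⟩
  exact Prod.ext (hΦ hx') (hΨ hy')

end Prod

end Pool.Agent.WallC
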