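import Pool.Agent.Lib.MP_1d980c_gt.Wall.SphX

/-! Crossing a wall: a positive real coordinate is replaced by a sphere. -/

set_option autoImplicit false
set_option linter.deprecated false
open Topology Set Module
open scoped ContDiff Manifold RealInnerProductSpace Matrix
open Metric (sphere)

namespace Pool.Agent.WallC

section Cross

variable {α ν : Type} [Fintype α] [Fintype ν] [DecidableEq α] {n d : ℕ} (j : α)
    (ι : EuclideanSpace ℝ (Fin (d + 1)) ≃L[ℝ] ℝ × (Fin n → ℂ))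

/-- The map `((p, u), y) ↦ (p with p_j replaced by p_j y_0, (u, p_j y'))`, `ι y = (y_0, y')`. -/
noncomputable def crossF (q : ((α → ℝ) × (ν → ℂ)) × EuclideanSpace ℝ (Fin (d + 1))) :
    (α → ℝ) × (ν ⊕ Fin n → ℂ) :=
  (Function.update q.1.1 j (q.1.1 j * (ι q.2).1),
    Sum.elim q.1.2 (fun a => (q.1.1 j : ℂ) * (ι q.2).2 a))

lemma crossF_contDiff : ContDiff ℝ ∞ (crossF (ν := ν) j ι) := by
  have h1 : ContDiff ℝ ∞ fun q : ((α → ℝ) × (ν → ℂ)) × EuclideanSpace ℝ (Fin (d + 1)) =>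
      q.1.1 j := (contDiff_apply ℝ ℝ j).comp (contDiff_fst.comp contDiff_fst)
  have h2 : ContDiff ℝ ∞ fun q : ((α → ℝ) × (ν → ℂ)) × EuclideanSpace ℝ (Fin (d + 1)) =>
      ι q.2 := ι.contDiff.comp contDiff_snd
  have h3 : ContDiff ℝ ∞ fun q : ((α → ℝ) × (ν → ℂ)) × EuclideanSpace ℝ (Fin (d + 1)) =>
      (((q.1.1 j : ℝ)) : ℂ) := Complex.ofRealCLM.contDiff.comp h1
  refine ContDiff.prodMk ?_ ?_
  · rw [contDiff_pi]
    intro i
    by_cases h : i = j
    · subst h
      have h4 : ContDiff ℝ ∞ fun q : ((α → ℝ) × (ν → ℂ)) × EuclideanSpace ℝ (Fin (d + 1)) =>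
          q.1.1 i * (ι q.2).1 := h1.mul (contDiff_fst.comp h2)
      simpa using h4
    · have h4 : ContDiff ℝ ∞ fun q : ((α → ℝ) × (ν → ℂ)) × EuclideanSpace ℝ (Fin (d + 1)) =>
          q.1.1 i := (contDiff_apply ℝ ℝ i).comp (contDiff_fst.comp contDiff_fst)
      simpa [h] using h4
  · rw [contDiff_pi]
    rintro (i | i)
    · exact (contDiff_apply ℝ ℂ i).comp (contDiff_snd.comp contDiff_fst)
    · exact h3.mul ((contDiff_apply ℝ ℂ i).comp (contDiff_snd.comp h2))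

lemma crossF_curve (p dp : (α → ℝ) × (ν → ℂ)) (y ξ : EuclideanSpace ℝ (Fin (d + 1))) :
    HasDerivAt (fun τ : ℝ => crossF (ν := ν) j ι (p + τ • dp, y + τ • ξ))
      (Function.update dp.1 j (dp.1 j * (ι y).1 + p.1 j * (ι ξ).1),
        Sum.elim dp.2 (fun a => (dp.1 j : ℂ) * (ι y).2 a + (p.1 j : ℂ) * (ι ξ).2 a)) 0 := by
  have e0 : HasDerivAt (fun τ : ℝ => (τ : ℂ)) 1 0 := Complex.ofRealCLM.hasDerivAt
  have e1 : HasDerivAt (fun τ : ℝ => (p.1 j + τ * dp.1 j : ℝ)) (dp.1 j) 0 := by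
    have h := ((hasDerivAt_id (0 : ℝ)).mul_const (dp.1 j)).const_add (p.1 j)
    rwa [one_mul] at h
  have e2 : HasDerivAt (fun τ : ℝ => (((p.1 j + τ * dp.1 j : ℝ)) : ℂ)) (dp.1 j) 0 :=
    e1.ofReal_comp
  have e3 : HasDerivAt (fun τ : ℝ => ι (y + τ • ξ)) (ι ξ) 0 := by
    have h1 : HasDerivAt (fun τ : ℝ => y + τ • ξ) ξ 0 := by
      have h := ((hasDerivAt_id (0 : ℝ)).smul_const ξ).const_add y
      rwa [one_smul] at h
    exact ι.hasFDerivAt.comp_hasDerivAt (0 : ℝ) h1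
  have e4 : HasDerivAt (fun τ : ℝ => (ι (y + τ • ξ)).1) (ι ξ).1 0 :=
    (ContinuousLinearMap.fst ℝ ℝ (Fin n → ℂ)).hasFDerivAt.comp_hasDerivAt (0 : ℝ) e3
  have e5 : HasDerivAt (fun τ : ℝ => (ι (y + τ • ξ)).2) (ι ξ).2 0 :=
    (ContinuousLinearMap.snd ℝ ℝ (Fin n → ℂ)).hasFDerivAt.comp_hasDerivAt (0 : ℝ) e3
  refine HasDerivAt.prodMk ?_ ?_
  · rw [hasDerivAt_pi]
    intro i
    by_cases h : i = j
    · subst h
      have h6 : HasDerivAt (fun τ : ℝ => (p.1 i + τ * dp.1 i) * (ι (y + τ • ξ)).1)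
          (dp.1 i * (ι y).1 + p.1 i * (ι ξ).1) 0 := by
        refine (e1.mul e4).congr_deriv ?_
        simp
      refine (h6.congr_of_eventuallyEq (Filter.Eventually.of_forall fun τ => ?_)).congr_deriv ?_
      · simp
      · simp
    · have h6 : HasDerivAt (fun τ : ℝ => p.1 i + τ * dp.1 i) (dp.1 i) 0 := by
        have h := ((hasDerivAt_id (0 : ℝ)).mul_const (dp.1 i)).const_add (p.1 i)
        rwa [one_mul] at h
      refine (h6.congr_of_eventuallyEq (Filter.Eventually.of_forall fun τ => ?_)).congr_deriv ?_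
      · simp [h]
      · simp [h]
  · rw [hasDerivAt_pi]
    rintro (i | i)
    · have h6 : HasDerivAt (fun τ : ℝ => p.2 i + (τ : ℂ) * dp.2 i) (dp.2 i) 0 := by
        have h := (e0.mul_const (dp.2 i)).const_add (p.2 i)
        rwa [one_mul] at h
      refine (h6.congr_of_eventuallyEq (Filter.Eventually.of_forall fun τ => ?_)).congr_deriv ?_
      · simp
      · simp
    · have h7 : HasDerivAt (fun τ : ℝ => (ι (y + τ • ξ)).2 i) ((ι ξ).2 i) 0 :=
        (hasDerivAt_pi.1 e5) i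
      have h6 : HasDerivAt (fun τ : ℝ => (((p.1 j + τ * dp.1 j : ℝ)) : ℂ) * (ι (y + τ • ξ)).2 i)
          ((dp.1 j : ℂ) * (ι y).2 i + (p.1 j : ℂ) * (ι ξ).2 i) 0 := by
        refine (e2.mul h7).congr_deriv ?_
        simp
      refine (h6.congr_of_eventuallyEq (Filter.Eventually.of_forall fun τ => ?_)).congr_deriv ?_
      · simp
      · simp

/-- The derivative of `crossF` along the sphere is bijective where `p_j ≠ 0`. -/
lemma crossF_bij (p : (α → ℝ) × (ν → ℂ)) (hp : p.1 j ≠ 0)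
    (σ : sphere (0 : EuclideanSpace ℝ (Fin (d + 1))) 1) :
    Function.Bijective (mfderiv (𝓘(ℝ, (α → ℝ) × (ν → ℂ)).prod (𝓡 d))
      𝓘(ℝ, (α → ℝ) × (ν ⊕ Fin n → ℂ))
      (fun q : ((α → ℝ) × (ν → ℂ)) × sphere (0 : EuclideanSpace ℝ (Fin (d + 1))) 1 =>
        crossF (ν := ν) j ι (q.1, q.2.1)) (p, σ)) := by
  have hdim : finrank ℝ ((α → ℝ) × (ν → ℂ)) + d = finrank ℝ ((α → ℝ) × (ν ⊕ Fin n → ℂ)) := by
    have h1 : finrank ℝ (EuclideanSpace ℝ (Fin (d + 1))) = finrank ℝ (ℝ × (Fin n → ℂ)) :=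
      ι.toLinearEquiv.finrank_eq
    rw [finrank_euclideanSpace_fin, finrank_prod, finrank_self, Module.finrank_pi_fintype] at h1
    simp only [Complex.finrank_real_complex, Finset.sum_const, Finset.card_univ,
      Fintype.card_fin, smul_eq_mul] at h1
    rw [finrank_prod, finrank_prod, Module.finrank_pi_fintype, Module.finrank_pi_fintype,
      Module.finrank_pi_fintype]
    simp only [Complex.finrank_real_complex, Finset.sum_const, Finset.card_univ,
      smul_eq_mul, finrank_self, Fintype.card_sum, Fintype.card_fin]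
    omega
  have h3 : HasFDerivAt (crossF (ν := ν) j ι) (fderiv ℝ (crossF (ν := ν) j ι) (p, σ.1))
      (p, σ.1) := ((crossF_contDiff j ι).contDiffAt.differentiableAt (by simp)).hasFDerivAt
  refine bij_sphere hdim (crossF (ν := ν) j ι) p σ _ h3 ?_
  rintro dp ξ hξ h0
  have h4 : HasDerivAt (fun τ : ℝ => (p + τ • dp, σ.1 + τ • ξ)) (dp, ξ) 0 := by
    have e1 : HasDerivAt (fun τ : ℝ => p + τ • dp) dp 0 := by
      have h := ((hasDerivAt_id (0 : ℝ)).smul_const dp).const_add p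
      rwa [one_smul] at h
    have e3 : HasDerivAt (fun τ : ℝ => σ.1 + τ • ξ) ξ 0 := by
      have h := ((hasDerivAt_id (0 : ℝ)).smul_const ξ).const_add σ.1
      rwa [one_smul] at h
    exact e1.prodMk e3
  have h5 : HasDerivAt (fun τ : ℝ => crossF (ν := ν) j ι (p + τ • dp, σ.1 + τ • ξ))
      (fderiv ℝ (crossF (ν := ν) j ι) (p, σ.1) (dp, ξ)) 0 :=
    h3.comp_hasDerivAt_of_eq (0 : ℝ) h4 (by simp)
  have h7 := h5.unique (crossF_curve j ι p dp σ.1 ξ)
  rw [h0] at h7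
  have h8 := congrArg Prod.fst h7
  have h9 := congrArg Prod.snd h7
  simp only at h8 h9
  have hσ : ‖(σ.1 : EuclideanSpace ℝ (Fin (d + 1)))‖ = 1 := by
    have := σ.2
    rwa [mem_sphere_zero_iff_norm] at this
  have g1 : ∀ i, i ≠ j → dp.1 i = 0 := by
    intro i hi
    have h := congrFun h8 i
    simpa [hi] using h.symm
  have g2 : dp.1 j * (ι σ.1).1 + p.1 j * (ι ξ).1 = 0 := by
    have h := congrFun h8 j
    simpa using h.symm
  have g3 : ∀ i, dp.2 i = 0 := by
    intro i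
    have h := congrFun h9 (Sum.inl i)
    simpa using h.symm
  have g4 : ∀ i, (dp.1 j : ℂ) * (ι σ.1).2 i + (p.1 j : ℂ) * (ι ξ).2 i = 0 := by
    intro i
    have h := congrFun h9 (Sum.inr i)
    simpa using h.symm
  have g5 : dp.1 j • σ.1 + p.1 j • ξ = 0 := by
    apply ι.injective
    rw [map_add, map_smul, map_smul, map_zero]
    refine Prod.ext ?_ (funext fun i => ?_)
    · simpa using g2
    · simpa [Complex.real_smul] using g4 i
  have g6 : dp.1 j = 0 := by
    have h := congrArg (fun w => ⟪σ.1, w⟫) g5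
    simp only [inner_add_right, inner_smul_right, inner_zero_right, hξ, mul_zero, add_zero,
      real_inner_self_eq_norm_sq, hσ] at h
    simpa using h
  rw [g6, zero_smul, zero_add, smul_eq_zero] at g5
  refine ⟨Prod.ext (funext fun i => ?_) (funext g3), g5.resolve_left hp⟩
  by_cases hi : i = j
  · rw [hi, g6]
    rfl
  · rw [g1 i hi]
    rfl

end Cross

end Pool.Agent.WallC
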