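import Pool.Agent.Lib.MP_1d980c_gt.Wall.Cross

/-! Crossing a wall: the developing maps of `X × S^(2n)` and of `S^(2n)`. -/

set_option autoImplicit false
set_option linter.deprecated false
open Topology Set Module
open scoped ContDiff Manifold RealInnerProductSpace Matrix
open Metric (sphere)

namespace Pool.Agent.WallC

section CrossB

variable {α ν : Type} [Fintype α] [Fintype ν] [DecidableEq α] {n d k : ℕ} (j : α)
    (ι : EuclideanSpace ℝ (Fin (d + 1)) ≃L[ℝ] ℝ × (Fin n → ℂ))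

/-- `crossF` on the product with the sphere. -/
noncomputable def crossS
    (q : ((α → ℝ) × (ν → ℂ)) × sphere (0 : EuclideanSpace ℝ (Fin (d + 1))) 1) :
    (α → ℝ) × (ν ⊕ Fin n → ℂ) := crossF (ν := ν) j ι (q.1, q.2.1)

lemma crossS_contMDiff : ContMDiff (𝓘(ℝ, (α → ℝ) × (ν → ℂ)).prod (𝓡 d))
    𝓘(ℝ, (α → ℝ) × (ν ⊕ Fin n → ℂ)) ∞ (crossS (ν := ν) j ι) := by
  have : Fact (finrank ℝ (EuclideanSpace ℝ (Fin (d + 1))) = d + 1) :=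
    ⟨finrank_euclideanSpace_fin⟩
  have h1 : ContMDiff (𝓘(ℝ, (α → ℝ) × (ν → ℂ)).prod (𝓡 d))
      𝓘(ℝ, ((α → ℝ) × (ν → ℂ)) × EuclideanSpace ℝ (Fin (d + 1))) ∞
      (fun q : ((α → ℝ) × (ν → ℂ)) × sphere (0 : EuclideanSpace ℝ (Fin (d + 1))) 1 =>
        ((q.1, q.2.1) : ((α → ℝ) × (ν → ℂ)) × EuclideanSpace ℝ (Fin (d + 1)))) :=
    contMDiff_fst.prodMk_space ((contMDiff_coe_sphere (n := d)).comp contMDiff_snd)
  exact (crossF_contDiff (ν := ν) j ι).contMDiff.comp h1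

section X

variable {EX HX X : Type} [NormedAddCommGroup EX] [NormedSpace ℝ EX] [TopologicalSpace HX]
    {IX : ModelWithCorners ℝ EX HX} [TopologicalSpace X] [ChartedSpace HX X]
    (ψ : X × (Fin k → ℝ) → (α → ℝ) × (ν → ℂ))

/-- The developing map of `X × S^(2n)`. -/
noncomputable def crossPsi
    (y : (X × sphere (0 : EuclideanSpace ℝ (Fin (d + 1))) 1) × (Fin k → ℝ)) :
    (α → ℝ) × (ν ⊕ Fin n → ℂ) := crossF (ν := ν) j ι (ψ (y.1.1, y.2), y.1.2.1)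

lemma crossPsi_contMDiff
    (hψ : ContMDiff (IX.prod 𝓘(ℝ, Fin k → ℝ)) 𝓘(ℝ, (α → ℝ) × (ν → ℂ)) ∞ ψ) :
    ContMDiff ((IX.prod (𝓡 d)).prod 𝓘(ℝ, Fin k → ℝ)) 𝓘(ℝ, (α → ℝ) × (ν ⊕ Fin n → ℂ)) ∞
      (crossPsi j ι ψ) := by
  have h1 : ContMDiff ((IX.prod (𝓡 d)).prod 𝓘(ℝ, Fin k → ℝ)) 𝓘(ℝ, (α → ℝ) × (ν → ℂ)) ∞
      (fun y : (X × sphere (0 : EuclideanSpace ℝ (Fin (d + 1))) 1) × (Fin k → ℝ) =>
        ψ (y.1.1, y.2)) :=
    hψ.comp ((contMDiff_fst.comp contMDiff_fst).prodMk contMDiff_snd)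
  have h2 : ContMDiff ((IX.prod (𝓡 d)).prod 𝓘(ℝ, Fin k → ℝ)) (𝓡 d) ∞
      (fun y : (X × sphere (0 : EuclideanSpace ℝ (Fin (d + 1))) 1) × (Fin k → ℝ) => y.1.2) :=
    contMDiff_snd.comp contMDiff_fst
  exact (crossS_contMDiff (ν := ν) j ι).comp (h1.prodMk h2)

lemma crossPsi_bij
    (hψ : ContMDiff (IX.prod 𝓘(ℝ, Fin k → ℝ)) 𝓘(ℝ, (α → ℝ) × (ν → ℂ)) ∞ ψ)
    (hψb : ∀ y, Function.Bijective
      (mfderiv (IX.prod 𝓘(ℝ, Fin k → ℝ)) 𝓘(ℝ, (α → ℝ) × (ν → ℂ)) ψ y))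
    (hpos : ∀ y, (ψ y).1 j ≠ 0)
    (y : (X × sphere (0 : EuclideanSpace ℝ (Fin (d + 1))) 1) × (Fin k → ℝ)) :
    Function.Bijective (mfderiv ((IX.prod (𝓡 d)).prod 𝓘(ℝ, Fin k → ℝ))
      𝓘(ℝ, (α → ℝ) × (ν ⊕ Fin n → ℂ)) (crossPsi j ι ψ) y) := by
  obtain ⟨⟨x, σ⟩, s⟩ := y
  obtain ⟨dψ, hdψ⟩ : ∃ dψ : EX × (Fin k → ℝ) →L[ℝ] (α → ℝ) × (ν → ℂ),
      HasMFDerivAt (IX.prod 𝓘(ℝ, Fin k → ℝ)) 𝓘(ℝ, (α → ℝ) × (ν → ℂ)) ψ (x, s) dψ :=
    ⟨_, ((hψ (x, s)).mdifferentiableAt (by simp)).hasMFDerivAt⟩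
  have hb : Function.Bijective dψ := by
    have h := hψb (x, s)
    rwa [hdψ.mfderiv] at h
  obtain ⟨dF, hdF⟩ : ∃ dF : ((α → ℝ) × (ν → ℂ)) × EuclideanSpace ℝ (Fin d) →L[ℝ]
      (α → ℝ) × (ν ⊕ Fin n → ℂ),
      HasMFDerivAt (𝓘(ℝ, (α → ℝ) × (ν → ℂ)).prod (𝓡 d)) 𝓘(ℝ, (α → ℝ) × (ν ⊕ Fin n → ℂ))
        (crossS (ν := ν) j ι) (ψ (x, s), σ) dF :=
    ⟨_, ((crossS_contMDiff (ν := ν) j ι (ψ (x, s), σ)).mdifferentiableAt (by simp)).hasMFDerivAt⟩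
  have hbF : Function.Bijective dF := by
    have h := crossF_bij (ν := ν) j ι (ψ (x, s)) (hpos (x, s)) σ
    have h' : mfderiv (𝓘(ℝ, (α → ℝ) × (ν → ℂ)).prod (𝓡 d)) 𝓘(ℝ, (α → ℝ) × (ν ⊕ Fin n → ℂ))
      (fun q : ((α → ℝ) × (ν → ℂ)) × sphere (0 : EuclideanSpace ℝ (Fin (d + 1))) 1 =>
        crossF (ν := ν) j ι (q.1, q.2.1)) (ψ (x, s), σ) = dF := hdF.mfderiv
    rwa [h'] at h
  have h1 : HasMFDerivAt ((IX.prod (𝓡 d)).prod 𝓘(ℝ, Fin k → ℝ)) (IX.prod (𝓡 d))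
      (fun y : (X × sphere (0 : EuclideanSpace ℝ (Fin (d + 1))) 1) × (Fin k → ℝ) => y.1)
      ((x, σ), s) (ContinuousLinearMap.fst ℝ (EX × EuclideanSpace ℝ (Fin d)) (Fin k → ℝ)) :=
    hasMFDerivAt_fst _
  have h2 : HasMFDerivAt ((IX.prod (𝓡 d)).prod 𝓘(ℝ, Fin k → ℝ)) 𝓘(ℝ, Fin k → ℝ)
      (fun y : (X × sphere (0 : EuclideanSpace ℝ (Fin (d + 1))) 1) × (Fin k → ℝ) => y.2)
      ((x, σ), s) (ContinuousLinearMap.snd ℝ (EX × EuclideanSpace ℝ (Fin d)) (Fin k → ℝ)) :=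
    hasMFDerivAt_snd _
  have h3 : HasMFDerivAt ((IX.prod (𝓡 d)).prod 𝓘(ℝ, Fin k → ℝ)) IX
      (fun y : (X × sphere (0 : EuclideanSpace ℝ (Fin (d + 1))) 1) × (Fin k → ℝ) => y.1.1)
      ((x, σ), s) ((ContinuousLinearMap.fst ℝ EX (EuclideanSpace ℝ (Fin d))).comp
        (ContinuousLinearMap.fst ℝ (EX × EuclideanSpace ℝ (Fin d)) (Fin k → ℝ))) :=
    HasMFDerivAt.comp (g := Prod.fst) ((x, σ), s)
      (hasMFDerivAt_fst (I := IX) (I' := 𝓡 d) (x, σ)) h1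
  have h4 : HasMFDerivAt ((IX.prod (𝓡 d)).prod 𝓘(ℝ, Fin k → ℝ)) (𝓡 d)
      (fun y : (X × sphere (0 : EuclideanSpace ℝ (Fin (d + 1))) 1) × (Fin k → ℝ) => y.1.2)
      ((x, σ), s) ((ContinuousLinearMap.snd ℝ EX (EuclideanSpace ℝ (Fin d))).comp
        (ContinuousLinearMap.fst ℝ (EX × EuclideanSpace ℝ (Fin d)) (Fin k → ℝ))) :=
    HasMFDerivAt.comp (g := Prod.snd) ((x, σ), s)
      (hasMFDerivAt_snd (I := IX) (I' := 𝓡 d) (x, σ)) h1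
  have h5 : HasMFDerivAt ((IX.prod (𝓡 d)).prod 𝓘(ℝ, Fin k → ℝ)) 𝓘(ℝ, (α → ℝ) × (ν → ℂ))
      (fun y : (X × sphere (0 : EuclideanSpace ℝ (Fin (d + 1))) 1) × (Fin k → ℝ) =>
        ψ (y.1.1, y.2)) ((x, σ), s)
      (dψ.comp (((ContinuousLinearMap.fst ℝ EX (EuclideanSpace ℝ (Fin d))).comp
        (ContinuousLinearMap.fst ℝ (EX × EuclideanSpace ℝ (Fin d)) (Fin k → ℝ))).prod
        (ContinuousLinearMap.snd ℝ (EX × EuclideanSpace ℝ (Fin d)) (Fin k → ℝ)))) :=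
    HasMFDerivAt.comp (g := ψ) ((x, σ), s) hdψ (h3.prodMk h2)
  have h6 : HasMFDerivAt ((IX.prod (𝓡 d)).prod 𝓘(ℝ, Fin k → ℝ))
      𝓘(ℝ, (α → ℝ) × (ν ⊕ Fin n → ℂ)) (crossPsi j ι ψ) ((x, σ), s) _ :=
    HasMFDerivAt.comp (g := crossS (ν := ν) j ι) ((x, σ), s) hdF (h5.prodMk h4)
  rw [h6.mfderiv]
  have hfin : Function.Bijective (fun w : (EX × EuclideanSpace ℝ (Fin d)) × (Fin k → ℝ) =>
      dF (dψ (w.1.1, w.2), w.1.2)) := by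
    constructor
    · rintro ⟨⟨dx, ξ⟩, ds⟩ ⟨⟨dx', ξ'⟩, ds'⟩ h
      have h9 : ((dψ (dx, ds), ξ) : ((α → ℝ) × (ν → ℂ)) × EuclideanSpace ℝ (Fin d)) =
          (dψ (dx', ds'), ξ') := hbF.1 h
      have h10 : ξ = ξ' := congrArg Prod.snd h9
      have h11 : (dx, ds) = (dx', ds') := hb.1 (congrArg Prod.fst h9)
      have h12 : dx = dx' := congrArg Prod.fst h11
      have h13 : ds = ds' := congrArg Prod.snd h11
      rw [h10, h12, h13]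
    · intro w
      obtain ⟨⟨g, ξ⟩, hg⟩ := hbF.2 w
      obtain ⟨⟨dx, ds⟩, hx⟩ := hb.2 g
      refine ⟨((dx, ξ), ds), ?_⟩
      change dF (dψ (dx, ds), ξ) = w
      rw [hx, hg]
  exact hfin

end X

/-- `crossF` is equivariant for matrices which are decoupled at `j`. -/
lemma crossF_equiv (A : Matrix α α ℝ) (c : Matrix ν ν ℂ) (hr : ∀ a, a ≠ j → A j a = 0)
    (hc : ∀ a, a ≠ j → A a j = 0) (p : (α → ℝ) × (ν → ℂ))
    (y : EuclideanSpace ℝ (Fin (d + 1))) :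
    crossF (ν := ν) j ι ((A *ᵥ p.1, c *ᵥ p.2), y) =
      (A *ᵥ (crossF (ν := ν) j ι (p, y)).1,
        Matrix.fromBlocks c 0 0 ((A j j : ℂ) • (1 : Matrix (Fin n) (Fin n) ℂ)) *ᵥ
          (crossF (ν := ν) j ι (p, y)).2) := by
  have e1 : ∀ v : α → ℝ, (A *ᵥ v) j = A j j * v j := by
    intro v
    simp only [Matrix.mulVec, dotProduct]
    rw [Finset.sum_eq_single j]
    · intro a _ ha
      rw [hr a ha, zero_mul]
    · intro h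
      exact absurd (Finset.mem_univ j) h
  refine Prod.ext (funext fun a => ?_) ?_
  · by_cases ha : a = j
    · subst ha
      simp only [crossF, Function.update_self, e1]
      ring
    · simp only [crossF, Function.update_of_ne ha, Matrix.mulVec, dotProduct]
      refine Finset.sum_congr rfl fun b _ => ?_
      by_cases hb : b = j
      · subst hb
        rw [hc a ha, zero_mul, zero_mul]
      · rw [Function.update_of_ne hb]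
  · simp only [crossF, Matrix.fromBlocks_mulVec, e1]
    funext a
    rcases a with a | a
    · simp [Function.comp_def]
    · simp only [Sum.elim_inr, Function.comp_def, Sum.elim_inl, Matrix.zero_mulVec,
        Matrix.smul_mulVec, Matrix.one_mulVec,
        Pi.smul_apply, zero_add, smul_eq_mul]
      push_cast
      ring

end CrossB

section Ot

variable {n d k : ℕ} (j : Fin k) (ι : EuclideanSpace ℝ (Fin (d + 1)) ≃L[ℝ] ℝ × (Fin n → ℂ))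

/-- The exponential map of `ℝ^k`. -/
noncomputable def expV (s : Fin k → ℝ) : (Fin k → ℝ) × (Fin 0 → ℂ) :=
  (fun a => Real.exp (s a), 0)

lemma expV_contDiff : ContDiff ℝ ∞ (expV (k := k)) := by
  refine ContDiff.prodMk ?_ contDiff_const
  rw [contDiff_pi]
  intro i
  exact (contDiff_apply ℝ ℝ i).exp

lemma expV_hasFDerivAt (s : Fin k → ℝ) : HasFDerivAt (expV (k := k))
    ((ContinuousLinearMap.pi fun i => (Real.exp (s i)) •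
      (ContinuousLinearMap.proj (R := ℝ) (φ := fun _ : Fin k => ℝ) i)).prod
      (0 : (Fin k → ℝ) →L[ℝ] (Fin 0 → ℂ))) s := by
  refine HasFDerivAt.prodMk ?_ (hasFDerivAt_const _ _)
  rw [hasFDerivAt_pi]
  intro i
  exact ((ContinuousLinearMap.proj (R := ℝ) (φ := fun _ : Fin k => ℝ) i).hasFDerivAt).exp

/-- The developing map of `S^(2n)` over the `k`-torus. -/
noncomputable def otPsi
    (y : sphere (0 : EuclideanSpace ℝ (Fin (d + 1))) 1 × (Fin k → ℝ)) :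
    (Fin k → ℝ) × (Fin 0 ⊕ Fin n → ℂ) := crossF (ν := Fin 0) j ι (expV y.2, y.1.1)

lemma otPsi_contMDiff : ContMDiff ((𝓡 d).prod 𝓘(ℝ, Fin k → ℝ))
    𝓘(ℝ, (Fin k → ℝ) × (Fin 0 ⊕ Fin n → ℂ)) ∞ (otPsi j ι) :=
  (crossS_contMDiff (ν := Fin 0) j ι).comp
    ((expV_contDiff.contMDiff.comp contMDiff_snd).prodMk contMDiff_fst)

lemma otPsi_bij (y : sphere (0 : EuclideanSpace ℝ (Fin (d + 1))) 1 × (Fin k → ℝ)) :
    Function.Bijective (mfderiv ((𝓡 d).prod 𝓘(ℝ, Fin k → ℝ))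
      𝓘(ℝ, (Fin k → ℝ) × (Fin 0 ⊕ Fin n → ℂ)) (otPsi j ι) y) := by
  obtain ⟨σ, s⟩ := y
  obtain ⟨dF, hdF⟩ : ∃ dF : ((Fin k → ℝ) × (Fin 0 → ℂ)) × EuclideanSpace ℝ (Fin d) →L[ℝ]
      (Fin k → ℝ) × (Fin 0 ⊕ Fin n → ℂ),
      HasMFDerivAt (𝓘(ℝ, (Fin k → ℝ) × (Fin 0 → ℂ)).prod (𝓡 d))
        𝓘(ℝ, (Fin k → ℝ) × (Fin 0 ⊕ Fin n → ℂ)) (crossS (ν := Fin 0) j ι) (expV s, σ) dF :=
    ⟨_, ((crossS_contMDiff (ν := Fin 0) j ι (expV s, σ)).mdifferentiableAt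
      (by simp)).hasMFDerivAt⟩
  have hbF : Function.Bijective dF := by
    have h := crossF_bij (ν := Fin 0) j ι (expV s) (Real.exp_pos (s j)).ne' σ
    have h' : mfderiv (𝓘(ℝ, (Fin k → ℝ) × (Fin 0 → ℂ)).prod (𝓡 d))
      𝓘(ℝ, (Fin k → ℝ) × (Fin 0 ⊕ Fin n → ℂ))
      (fun q : ((Fin k → ℝ) × (Fin 0 → ℂ)) × sphere (0 : EuclideanSpace ℝ (Fin (d + 1))) 1 =>
        crossF (ν := Fin 0) j ι (q.1, q.2.1)) (expV s, σ) = dF := hdF.mfderiv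
    rwa [h'] at h
  have h1 : HasMFDerivAt ((𝓡 d).prod 𝓘(ℝ, Fin k → ℝ)) (𝓡 d)
      (fun y : sphere (0 : EuclideanSpace ℝ (Fin (d + 1))) 1 × (Fin k → ℝ) => y.1)
      (σ, s) (ContinuousLinearMap.fst ℝ (EuclideanSpace ℝ (Fin d)) (Fin k → ℝ)) :=
    hasMFDerivAt_fst _
  have h2 : HasMFDerivAt ((𝓡 d).prod 𝓘(ℝ, Fin k → ℝ)) 𝓘(ℝ, Fin k → ℝ)
      (fun y : sphere (0 : EuclideanSpace ℝ (Fin (d + 1))) 1 × (Fin k → ℝ) => y.2)
      (σ, s) (ContinuousLinearMap.snd ℝ (EuclideanSpace ℝ (Fin d)) (Fin k → ℝ)) :=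
    hasMFDerivAt_snd _
  have h3 : HasMFDerivAt ((𝓡 d).prod 𝓘(ℝ, Fin k → ℝ)) 𝓘(ℝ, (Fin k → ℝ) × (Fin 0 → ℂ))
      (fun y : sphere (0 : EuclideanSpace ℝ (Fin (d + 1))) 1 × (Fin k → ℝ) => expV y.2)
      (σ, s) _ := HasMFDerivAt.comp (g := expV) (σ, s) (expV_hasFDerivAt s).hasMFDerivAt h2
  have h6 : HasMFDerivAt ((𝓡 d).prod 𝓘(ℝ, Fin k → ℝ))
      𝓘(ℝ, (Fin k → ℝ) × (Fin 0 ⊕ Fin n → ℂ)) (otPsi j ι) (σ, s) _ :=
    HasMFDerivAt.comp (g := crossS (ν := Fin 0) j ι) (σ, s) hdF (h3.prodMk h1)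
  rw [h6.mfderiv]
  have hfin : Function.Bijective (fun w : EuclideanSpace ℝ (Fin d) × (Fin k → ℝ) =>
      dF (((fun i => Real.exp (s i) * w.2 i : Fin k → ℝ), (0 : Fin 0 → ℂ)), w.1)) := by
    constructor
    · rintro ⟨ξ, ds⟩ ⟨ξ', ds'⟩ h
      have h9 := hbF.1 h
      have h10 : ξ = ξ' := congrArg Prod.snd h9
      have h11 : (fun i => Real.exp (s i) * ds i : Fin k → ℝ) = fun i => Real.exp (s i) * ds' i :=
        congrArg (fun w => w.1.1) h9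
      have h12 : ds = ds' := by
        funext i
        exact mul_left_cancel₀ (Real.exp_pos (s i)).ne' (congrFun h11 i)
      rw [h10, h12]
    · intro w
      obtain ⟨⟨g, ξ⟩, hg⟩ := hbF.2 w
      refine ⟨(ξ, fun i => Real.exp (-(s i)) * g.1 i), ?_⟩
      have h13 : (((fun i => Real.exp (s i) * (Real.exp (-(s i)) * g.1 i) : Fin k → ℝ),
          (0 : Fin 0 → ℂ)) : (Fin k → ℝ) × (Fin 0 → ℂ)) = g := by
        refine Prod.ext (funext fun i => ?_) (Subsingleton.elim _ _)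
        simp only
        rw [← mul_assoc, ← Real.exp_add, add_neg_cancel, Real.exp_zero, one_mul]
      simp only
      rw [h13, hg]
  exact hfin

lemma otPsi_equiv (e : Fin k → ℝ) (x : sphere (0 : EuclideanSpace ℝ (Fin (d + 1))) 1)
    (s : Fin k → ℝ) :
    otPsi j ι (x, s + e) =
      (Matrix.diagonal (fun i => Real.exp (e i)) *ᵥ (otPsi j ι (x, s)).1,
        Matrix.fromBlocks (1 : Matrix (Fin 0) (Fin 0) ℂ) 0 0
          ((Real.exp (e j) : ℂ) • (1 : Matrix (Fin n) (Fin n) ℂ)) *ᵥ (otPsi j ι (x, s)).2) := by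
  have h := crossF_equiv (ν := Fin 0) j ι (Matrix.diagonal (fun i => Real.exp (e i))) 1
    (fun a ha => Matrix.diagonal_apply_ne' _ ha) (fun a ha => Matrix.diagonal_apply_ne _ ha)
    (expV s) x.1
  rw [Matrix.diagonal_apply_eq] at h
  have h2 : expV (s + e) = ((Matrix.diagonal (fun i => Real.exp (e i)) *ᵥ (expV s).1,
      (1 : Matrix (Fin 0) (Fin 0) ℂ) *ᵥ (expV s).2) : (Fin k → ℝ) × (Fin 0 → ℂ)) := by
    refine Prod.ext (funext fun i => ?_) (Subsingleton.elim _ _)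
    simp only [expV, Pi.add_apply, Matrix.mulVec_diagonal]
    rw [Real.exp_add, mul_comm]
  simp only [otPsi]
  rw [h2]
  exact_mod_cast h

end Ot

end Pool.Agent.WallC
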