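import Mathlib

/-! The linear flow `exp (z Λ)` of a complex linear map. -/

set_option autoImplicit false
open Topology Set
open scoped ContDiff

namespace Pool.Agent.WallC

section Ex

variable {W : Type} [NormedAddCommGroup W] [NormedSpace ℂ W]

/-- The linear map `exp (z Λ)`. -/
noncomputable def ex (Λ : W →L[ℂ] W) (z : ℂ) : W →L[ℂ] W := NormedSpace.exp (z • Λ)

variable [CompleteSpace W] (Λ : W →L[ℂ] W)

lemma ex_add (z w : ℂ) : ex Λ (z + w) = ex Λ z * ex Λ w := by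
  rw [ex, add_smul]
  letI : NormedAlgebra ℚ (W →L[ℂ] W) := NormedAlgebra.restrictScalars ℚ ℂ _
  exact NormedSpace.exp_add_of_commute
    (((Commute.refl Λ).smul_left z).smul_right w)

omit [CompleteSpace W] in
lemma ex_zero : ex Λ 0 = 1 := by
  rw [ex, zero_smul, NormedSpace.exp_zero]

lemma ex_add_apply (z w : ℂ) (u : W) : ex Λ (z + w) u = ex Λ z (ex Λ w u) := by
  rw [ex_add]
  rfl

lemma ex_neg_apply (z : ℂ) (u : W) : ex Λ (-z) (ex Λ z u) = u := by
  rw [← ex_add_apply, neg_add_cancel, ex_zero]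
  rfl

lemma ex_apply_neg (z : ℂ) (u : W) : ex Λ z (ex Λ (-z) u) = u := by
  rw [← ex_add_apply, add_neg_cancel, ex_zero]
  rfl

lemma ex_contDiff : ContDiff ℂ ∞ (ex Λ) := by
  have h1 : ContDiff ℂ ∞ fun z : ℂ => z • Λ := contDiff_id.smul contDiff_const
  rw [contDiff_iff_contDiffAt]
  intro z
  have h2 : ContDiffAt ℂ ∞ (NormedSpace.exp : (W →L[ℂ] W) → (W →L[ℂ] W)) (z • Λ) :=
    (NormedSpace.exp_analytic (𝕂 := ℂ) (z • Λ)).contDiffAt
  exact h2.comp z h1.contDiffAt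

lemma exA_contDiff : ContDiff ℂ ∞ fun p : ℂ × W => ex Λ p.1 p.2 :=
  ((ex_contDiff Λ).comp contDiff_fst).clm_apply contDiff_snd

lemma ex_hasDerivAt (z : ℂ) : HasDerivAt (ex Λ) (ex Λ z * Λ) z :=
  hasDerivAt_exp_smul_const Λ z

/-- The derivative of `(z, u) ↦ exp (z Λ) u`. -/
lemma exA_hasFDerivAt (z : ℂ) (u : W) : HasFDerivAt (fun p : ℂ × W => ex Λ p.1 p.2)
    ((ex Λ z).comp (((ContinuousLinearMap.fst ℂ ℂ W).smulRight (Λ u)) +
      ContinuousLinearMap.snd ℂ ℂ W)) (z, u) := by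
  have h1 : HasFDerivAt (fun p : ℂ × W => ex Λ p.1)
      ((ContinuousLinearMap.fst ℂ ℂ W).smulRight (ex Λ z * Λ)) (z, u) := by
    have h2 := (ex_hasDerivAt Λ z).hasFDerivAt.comp (z, u)
      (hasFDerivAt_fst (𝕜 := ℂ) (E := ℂ) (F := W) (p := (z, u)))
    refine h2.congr_fderiv ?_
    ext w <;> simp
  have h3 := h1.clm_apply (hasFDerivAt_snd (𝕜 := ℂ) (E := ℂ) (F := W) (p := (z, u)))
  refine h3.congr_fderiv ?_
  ext w <;> simp

omit [CompleteSpace W] in
/-- `exp Λ` at the integers. -/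
lemma ex_one : ex Λ 1 = NormedSpace.exp Λ := by
  rw [ex, one_smul]

end Ex

end Pool.Agent.WallC
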