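import Mathlib

/-! A smooth function `k` with `k r = r` for `r ≥ 1/4`, constant near `0`, `0 ≤ r k' ≤ k`. -/

set_option autoImplicit false
open Topology Set MeasureTheory
open scoped ContDiff

namespace Pool.Agent.WallC

/-- the derivative of `kfun`. -/
noncomputable def eta (r : ℝ) : ℝ := Real.smoothTransition (8 * r - 1)

/-- `kfun r = r` for `r ≥ 1/4`, and `kfun` is constant near `0`. -/
noncomputable def kfun (ρ : ℝ) : ℝ := 1 / 4 + ∫ r in (1 / 4)..ρ, eta r

lemma eta_contDiff : ContDiff ℝ ∞ eta :=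
  Real.smoothTransition.contDiff.comp ((contDiff_const.mul contDiff_id).sub contDiff_const)

lemma eta_nonneg (r : ℝ) : 0 ≤ eta r := Real.smoothTransition.nonneg _

lemma eta_le_one (r : ℝ) : eta r ≤ 1 := Real.smoothTransition.le_one _

lemma eta_one {r : ℝ} (h : 1 / 4 ≤ r) : eta r = 1 :=
  Real.smoothTransition.one_of_one_le (by linarith)

lemma eta_zero {r : ℝ} (h : r ≤ 1 / 8) : eta r = 0 :=
  Real.smoothTransition.zero_of_nonpos (by linarith)

lemma kfun_hasDerivAt (ρ : ℝ) : HasDerivAt kfun (eta ρ) ρ := by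
  have h := eta_contDiff.continuous
  exact (intervalIntegral.integral_hasDerivAt_right (h.intervalIntegrable _ _)
    (h.stronglyMeasurableAtFilter _ _) h.continuousAt).const_add _

lemma kfun_contDiff : ContDiff ℝ ∞ kfun := by
  have h : deriv kfun = eta := funext fun ρ => (kfun_hasDerivAt ρ).deriv
  rw [contDiff_infty_iff_deriv]
  refine ⟨fun ρ => (kfun_hasDerivAt ρ).differentiableAt, ?_⟩
  rw [h]
  exact eta_contDiff

lemma kfun_eq {ρ : ℝ} (h : 1 / 4 ≤ ρ) : kfun ρ = ρ := by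
  have h1 : ∫ r in (1 / 4)..ρ, eta r = ∫ r in (1 / 4)..ρ, (1 : ℝ) := by
    apply intervalIntegral.integral_congr
    intro r hr
    rw [uIcc_of_le h] at hr
    exact eta_one hr.1
  rw [kfun, h1]
  simp

lemma le_kfun (ρ : ℝ) : ρ ≤ kfun ρ := by
  rcases le_total (1 / 4) ρ with h | h
  · rw [kfun_eq h]
  · have hc := eta_contDiff.continuous
    have h1 : ∫ r in ρ..(1 / 4), eta r ≤ ∫ r in ρ..(1 / 4), (1 : ℝ) :=
      intervalIntegral.integral_mono_on h (hc.intervalIntegrable _ _)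
        intervalIntegrable_const fun r _ => eta_le_one r
    rw [intervalIntegral.integral_const, smul_eq_mul, mul_one] at h1
    rw [kfun, intervalIntegral.integral_symm]
    linarith

lemma kfun_pos (ρ : ℝ) : 0 < kfun ρ := by
  rcases le_total (1 / 8) ρ with h | h
  · have := le_kfun ρ
    linarith
  · have hc := eta_contDiff.continuous
    have h1 : kfun (1 / 8) = kfun ρ := by
      have h2 : ∫ r in ρ..(1 / 8), eta r = 0 := by
        have h3 : ∫ r in ρ..(1 / 8), eta r = ∫ r in ρ..(1 / 8), (0 : ℝ) := by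
          apply intervalIntegral.integral_congr
          intro r hr
          rw [uIcc_of_le h] at hr
          exact eta_zero hr.2
        rw [h3]
        simp
      have h4 := intervalIntegral.integral_add_adjacent_intervals
        (hc.intervalIntegrable (μ := volume) (1 / 4) ρ)
        (hc.intervalIntegrable (μ := volume) ρ (1 / 8))
      rw [kfun, kfun, ← h4, h2, add_zero]
    have := le_kfun (1 / 8)
    rw [← h1]
    linarith

/-- `0 ≤ 2 ρ K' / K ≤ 1` for `K = √k`. -/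
lemma kfun_theta {ρ : ℝ} (h : 0 ≤ ρ) : 0 ≤ ρ * eta ρ / kfun ρ ∧ ρ * eta ρ / kfun ρ ≤ 1 := by
  have h1 := kfun_pos ρ
  refine ⟨div_nonneg (mul_nonneg h (eta_nonneg ρ)) h1.le, ?_⟩
  rw [div_le_one h1]
  exact (mul_le_of_le_one_right h (eta_le_one ρ)).trans (le_kfun ρ)

/-- the function `y ↦ √(k(|y|²))`. -/
noncomputable def kap (y : ℂ) : ℝ := Real.sqrt (kfun (‖y‖ ^ 2))

lemma kap_pos (y : ℂ) : 0 < kap y := Real.sqrt_pos.2 (kfun_pos _)

lemma kap_eq {y : ℂ} (h : 1 / 2 ≤ ‖y‖) : kap y = ‖y‖ := by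
  rw [kap, kfun_eq (by nlinarith), Real.sqrt_sq (norm_nonneg y)]

lemma kap_contDiff : ContDiff ℝ ∞ kap := by
  have h1 : ContDiff ℝ ∞ fun y : ℂ => kfun (‖y‖ ^ 2) :=
    kfun_contDiff.comp (contDiff_norm_sq ℝ)
  exact h1.sqrt fun y => (kfun_pos _).ne'

/-- the derivative of `kap` at `y` in the direction `w`. -/
noncomputable def dkap (y w : ℂ) : ℝ :=
  eta (‖y‖ ^ 2) / kap y * (y.re * w.re + y.im * w.im)

lemma kap_fderiv (y w : ℂ) : fderiv ℝ kap y w = dkap y w := by
  have h0 : (fun y : ℂ => kfun (‖y‖ ^ 2)) = fun y : ℂ => kfun (y.re ^ 2 + y.im ^ 2) := by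
    funext y
    rw [Complex.sq_norm, Complex.normSq_apply]
    ring_nf
  have h1 : HasFDerivAt (fun y : ℂ => y.re ^ 2 + y.im ^ 2)
      ((2 * y.re) • Complex.reCLM + (2 * y.im) • Complex.imCLM) y := by
    have e1 : HasFDerivAt (fun y : ℂ => y.re) Complex.reCLM y := Complex.reCLM.hasFDerivAt
    have e2 : HasFDerivAt (fun y : ℂ => y.im) Complex.imCLM y := Complex.imCLM.hasFDerivAt
    have e3 : HasFDerivAt (fun y : ℂ => y.re ^ 2 + y.im ^ 2) _ y := (e1.pow 2).add (e2.pow 2)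
    refine e3.congr_fderiv ?_
    ext w
    simp
  have h2 : HasFDerivAt (fun y : ℂ => kfun (y.re ^ 2 + y.im ^ 2))
      (eta (y.re ^ 2 + y.im ^ 2) • ((2 * y.re) • Complex.reCLM + (2 * y.im) • Complex.imCLM)) y :=
    (kfun_hasDerivAt _).comp_hasFDerivAt y h1
  have h3 : HasFDerivAt (fun y : ℂ => Real.sqrt (kfun (y.re ^ 2 + y.im ^ 2)))
      ((1 / (2 * Real.sqrt (kfun (y.re ^ 2 + y.im ^ 2)))) •
        (eta (y.re ^ 2 + y.im ^ 2) • ((2 * y.re) • Complex.reCLM +
          (2 * y.im) • Complex.imCLM))) y := h2.sqrt (kfun_pos _).ne'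
  have h4 : kap = fun y : ℂ => Real.sqrt (kfun (y.re ^ 2 + y.im ^ 2)) := by
    funext y
    exact congrArg Real.sqrt (congrFun h0 y)
  have h5 : ‖y‖ ^ 2 = y.re ^ 2 + y.im ^ 2 := by
    rw [Complex.sq_norm, Complex.normSq_apply]
    ring
  have h6 : kap y ≠ 0 := (kap_pos y).ne'
  rw [← h4] at h3
  rw [h3.fderiv, dkap, h5]
  rw [show Real.sqrt (kfun (y.re ^ 2 + y.im ^ 2)) = kap y from (congrFun h4 y).symm]
  simp only [smul_apply, add_apply, Complex.reCLM_apply, Complex.imCLM_apply, smul_eq_mul]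
  field_simp

lemma kap_hasFDerivAt (y : ℂ) : HasFDerivAt kap (fderiv ℝ kap y) y :=
  (kap_contDiff.contDiffAt.differentiableAt (by simp)).hasFDerivAt

end Pool.Agent.WallC
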