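import Mathlib

/-! Maps from a product of a vector space and a sphere: bijective derivatives. -/

set_option autoImplicit false
set_option linter.deprecated false
open Topology Set Module
open scoped ContDiff Manifold RealInnerProductSpace
open Metric (sphere)

namespace Pool.Agent.WallC

variable {V F : Type} [NormedAddCommGroup V] [NormedSpace ℝ V] [FiniteDimensional ℝ V]
    [NormedAddCommGroup F] [NormedSpace ℝ F] [FiniteDimensional ℝ F] {m : ℕ}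

/-- The inclusion of the sphere has a derivative which is injective with values in the orthogonal
complement. -/
lemma exists_deriv_sphere (σ : sphere (0 : EuclideanSpace ℝ (Fin (m + 1))) 1) :
    ∃ D : EuclideanSpace ℝ (Fin m) →L[ℝ] EuclideanSpace ℝ (Fin (m + 1)),
      HasMFDerivAt (𝓡 m) 𝓘(ℝ, EuclideanSpace ℝ (Fin (m + 1)))
        ((↑) : sphere (0 : EuclideanSpace ℝ (Fin (m + 1))) 1 → EuclideanSpace ℝ (Fin (m + 1)))
        σ D ∧ Function.Injective D ∧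
      ∀ ξ, ⟪(σ : EuclideanSpace ℝ (Fin (m + 1))), D ξ⟫ = 0 := by
  have : Fact (finrank ℝ (EuclideanSpace ℝ (Fin (m + 1))) = m + 1) :=
    ⟨finrank_euclideanSpace_fin⟩
  have h1 : MDifferentiableAt (𝓡 m) 𝓘(ℝ, EuclideanSpace ℝ (Fin (m + 1)))
      ((↑) : sphere (0 : EuclideanSpace ℝ (Fin (m + 1))) 1 → EuclideanSpace ℝ (Fin (m + 1))) σ :=
    (contMDiff_coe_sphere (m := 1) σ).mdifferentiableAt one_ne_zero
  refine ⟨_, h1.hasMFDerivAt, mfderiv_coe_sphere_injective σ, ?_⟩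
  intro ξ
  have h2 := range_mfderiv_coe_sphere (n := m) σ
  have h3 : (mfderiv (𝓡 m) 𝓘(ℝ, EuclideanSpace ℝ (Fin (m + 1)))
      ((↑) : sphere (0 : EuclideanSpace ℝ (Fin (m + 1))) 1 → EuclideanSpace ℝ (Fin (m + 1))) σ) ξ ∈
      (ℝ ∙ (σ : EuclideanSpace ℝ (Fin (m + 1))))ᗮ := by
    rw [← h2]
    exact ⟨ξ, rfl⟩
  exact Submodule.mem_orthogonal_singleton_iff_inner_right.1 h3

/-- The derivative of a map on `V × S^m` which is the restriction of a map on `V × ℝ^(m+1)`. -/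
theorem bij_sphere (hdim : finrank ℝ V + m = finrank ℝ F)
    (G : V × EuclideanSpace ℝ (Fin (m + 1)) → F) (p : V)
    (σ : sphere (0 : EuclideanSpace ℝ (Fin (m + 1))) 1)
    (G' : V × EuclideanSpace ℝ (Fin (m + 1)) →L[ℝ] F) (hG : HasFDerivAt G G' (p, σ.1))
    (hinj : ∀ (dv : V) (ξ : EuclideanSpace ℝ (Fin (m + 1))), ⟪σ.1, ξ⟫ = 0 → G' (dv, ξ) = 0 →
      dv = 0 ∧ ξ = 0) :
    Function.Bijective (mfderiv (𝓘(ℝ, V).prod (𝓡 m)) 𝓘(ℝ, F)
      (fun q : V × sphere (0 : EuclideanSpace ℝ (Fin (m + 1))) 1 => G (q.1, q.2.1)) (p, σ)) := by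
  obtain ⟨D, hD1, hD2, hD3⟩ := exists_deriv_sphere σ
  have h1 : HasMFDerivAt (𝓘(ℝ, V).prod (𝓡 m)) 𝓘(ℝ, V × EuclideanSpace ℝ (Fin (m + 1)))
      (fun q : V × sphere (0 : EuclideanSpace ℝ (Fin (m + 1))) 1 =>
        ((q.1, q.2.1) : V × EuclideanSpace ℝ (Fin (m + 1)))) (p, σ)
      ((ContinuousLinearMap.fst ℝ V (EuclideanSpace ℝ (Fin m))).prod
        (D.comp (ContinuousLinearMap.snd ℝ V (EuclideanSpace ℝ (Fin m))))) := by
    have h2 := (hasMFDerivAt_fst (I := 𝓘(ℝ, V)) (I' := 𝓡 m) (p, σ)).prodMk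
      (hD1.comp (p, σ) (hasMFDerivAt_snd (I := 𝓘(ℝ, V)) (I' := 𝓡 m) (p, σ)))
    rw [modelWithCornersSelf_prod, ← chartedSpaceSelf_prod]
    exact h2
  have h3 : HasMFDerivAt 𝓘(ℝ, V × EuclideanSpace ℝ (Fin (m + 1))) 𝓘(ℝ, F) G (p, σ.1) G' :=
    hG.hasMFDerivAt
  have h4 := h3.comp (p, σ) h1
  have h5 : HasMFDerivAt (𝓘(ℝ, V).prod (𝓡 m)) 𝓘(ℝ, F)
      (fun q : V × sphere (0 : EuclideanSpace ℝ (Fin (m + 1))) 1 => G (q.1, q.2.1)) (p, σ)
      (G'.comp ((ContinuousLinearMap.fst ℝ V (EuclideanSpace ℝ (Fin m))).prod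
        (D.comp (ContinuousLinearMap.snd ℝ V (EuclideanSpace ℝ (Fin m)))))) := h4
  rw [h5.mfderiv]
  have hinj' : Function.Injective (G'.comp
      ((ContinuousLinearMap.fst ℝ V (EuclideanSpace ℝ (Fin m))).prod
        (D.comp (ContinuousLinearMap.snd ℝ V (EuclideanSpace ℝ (Fin m)))))) := by
    rw [injective_iff_map_eq_zero]
    rintro ⟨dv, ξ⟩ h
    have h6 := hinj dv (D ξ) (hD3 ξ) h
    rw [h6.1, hD2 (h6.2.trans (map_zero D).symm)]
    rfl
  have hdim' : finrank ℝ (V × EuclideanSpace ℝ (Fin m)) = finrank ℝ F := by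
    rw [finrank_prod, finrank_euclideanSpace_fin, hdim]
  exact ⟨hinj', (LinearMap.injective_iff_surjective_of_finrank_eq_finrank hdim').1 hinj'⟩

end Pool.Agent.WallC
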