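import Pool.Agent.Lib.MP_1d980c_gt.Wall.Kfun
import Pool.Agent.Lib.MP_1d980c_gt.Wall.Exp
import Pool.Agent.Lib.MP_1d980c_gt.Wall.Sphere

/-! The complex coordinates on the pieces `S¹ × D² × S^(2s-1)` which are glued in. -/

set_option autoImplicit false
open Topology Set Module
open scoped ContDiff Manifold RealInnerProductSpace
open Metric (sphere)

namespace Pool.Agent.WallC

section NewP

variable {W : Type} [NormedAddCommGroup W] [InnerProductSpace ℂ W] [FiniteDimensional ℂ W] {m : ℕ}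

/-- The coordinates on the new piece: `(e^(4π²t/γ) y / κ(y), κ(y) exp((2πit/γ) Λ) ι(x))`. -/
noncomputable def newG (γ : ℂ) (Λ : W →L[ℂ] W) (ι : EuclideanSpace ℝ (Fin (m + 1)) ≃L[ℝ] W)
    (q : (ℝ × ℂ) × EuclideanSpace ℝ (Fin (m + 1))) : ℂ × W :=
  (Complex.exp (4 * Real.pi ^ 2 / γ * q.1.1) * (q.1.2 / kap q.1.2),
    (kap q.1.2 : ℂ) • ex Λ (2 * Real.pi * Complex.I / γ * q.1.1) (ι q.2))

variable (γ : ℂ) (Λ : W →L[ℂ] W) (ι : EuclideanSpace ℝ (Fin (m + 1)) ≃L[ℝ] W)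

lemma newG_contDiff : ContDiff ℝ ∞ (newG γ Λ ι) := by
  have : CompleteSpace W := FiniteDimensional.complete ℂ W
  have h1 : ContDiff ℝ ∞ fun q : (ℝ × ℂ) × EuclideanSpace ℝ (Fin (m + 1)) => ((q.1.1 : ℝ) : ℂ) :=
    Complex.ofRealCLM.contDiff.comp (contDiff_fst.comp contDiff_fst)
  have h2 : ContDiff ℝ ∞ fun q : (ℝ × ℂ) × EuclideanSpace ℝ (Fin (m + 1)) => q.1.2 :=
    contDiff_snd.comp contDiff_fst
  have h3 : ContDiff ℝ ∞ fun q : (ℝ × ℂ) × EuclideanSpace ℝ (Fin (m + 1)) =>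
      ((kap q.1.2 : ℝ) : ℂ) := Complex.ofRealCLM.contDiff.comp (kap_contDiff.comp h2)
  have h4 : ContDiff ℝ ∞ fun q : (ℝ × ℂ) × EuclideanSpace ℝ (Fin (m + 1)) =>
      Complex.exp (4 * Real.pi ^ 2 / γ * q.1.1) := (contDiff_const.mul h1).cexp
  have h5 : ContDiff ℝ ∞ fun q : (ℝ × ℂ) × EuclideanSpace ℝ (Fin (m + 1)) =>
      ex Λ (2 * Real.pi * Complex.I / γ * q.1.1) (ι q.2) :=
    ((exA_contDiff Λ).restrict_scalars ℝ).comp ((contDiff_const.mul h1).prodMk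
      (ι.contDiff.comp contDiff_snd))
  have h6 : ContDiff ℝ ∞ fun q : (ℝ × ℂ) × EuclideanSpace ℝ (Fin (m + 1)) =>
      q.1.2 / ((kap q.1.2 : ℝ) : ℂ) := by
    have h7 : ContDiff ℝ ∞ fun q : (ℝ × ℂ) × EuclideanSpace ℝ (Fin (m + 1)) =>
        q.1.2 * (((kap q.1.2 : ℝ) : ℂ))⁻¹ := by
      refine h2.mul (h3.inv ?_)
      intro q
      exact_mod_cast (kap_pos q.1.2).ne'
    exact h7
  exact (h4.mul h6).prodMk (h3.smul h5)

/-- The first component of the derivative of `newG`. -/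
noncomputable def dnew1 (t : ℝ) (y : ℂ) (dt : ℝ) (dy : ℂ) : ℂ :=
  Complex.exp (4 * Real.pi ^ 2 / γ * t) * (4 * Real.pi ^ 2 / γ * dt) * (y / kap y) +
    Complex.exp (4 * Real.pi ^ 2 / γ * t) * ((dy * kap y - y * dkap y dy) / (kap y : ℂ) ^ 2)

/-- The second component of the derivative of `newG`. -/
noncomputable def dnew2 (t : ℝ) (y : ℂ) (x : EuclideanSpace ℝ (Fin (m + 1))) (dt : ℝ) (dy : ℂ)
    (ξ : EuclideanSpace ℝ (Fin (m + 1))) : W :=
  (kap y : ℂ) • ex Λ (2 * Real.pi * Complex.I / γ * t)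
    ((2 * Real.pi * Complex.I / γ * dt) • Λ (ι x) + ι ξ) +
    (dkap y dy : ℂ) • ex Λ (2 * Real.pi * Complex.I / γ * t) (ι x)

lemma newG_curve (t : ℝ) (y : ℂ) (x : EuclideanSpace ℝ (Fin (m + 1))) (dt : ℝ) (dy : ℂ)
    (ξ : EuclideanSpace ℝ (Fin (m + 1))) :
    HasDerivAt (fun τ : ℝ => newG γ Λ ι ((t + τ * dt, y + τ * dy), x + τ • ξ))
      (dnew1 γ t y dt dy, dnew2 γ Λ ι t y x dt dy ξ) 0 := by
  have : CompleteSpace W := FiniteDimensional.complete ℂ W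
  have e0 : HasDerivAt (fun τ : ℝ => (τ : ℂ)) 1 0 := Complex.ofRealCLM.hasDerivAt
  have e1 : HasDerivAt (fun τ : ℝ => ((t + τ * dt : ℝ) : ℂ)) dt 0 := by
    have h := (e0.mul_const (dt : ℂ)).const_add (t : ℂ)
    rw [one_mul] at h
    refine h.congr_of_eventuallyEq (Filter.Eventually.of_forall fun τ => ?_)
    push_cast
    rfl
  have e2 : HasDerivAt (fun τ : ℝ => y + (τ : ℂ) * dy) dy 0 := by
    have h := (e0.mul_const dy).const_add y
    rwa [one_mul] at h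
  have e3 : HasDerivAt (fun τ : ℝ => kap (y + (τ : ℂ) * dy)) (dkap y dy) 0 := by
    have h0 : y + ((0 : ℝ) : ℂ) * dy = y := by simp
    have h := HasFDerivAt.comp_hasDerivAt (x := (0 : ℝ)) (f := fun τ : ℝ => y + (τ : ℂ) * dy)
      (by rw [h0]; exact kap_hasFDerivAt y) e2
    rw [kap_fderiv] at h
    exact h
  have e4 : HasDerivAt (fun τ : ℝ => ((kap (y + (τ : ℂ) * dy) : ℝ) : ℂ)) (dkap y dy) 0 :=
    e3.ofReal_comp
  have hk : (kap y : ℂ) ≠ 0 := by exact_mod_cast (kap_pos y).ne'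
  have e5 : HasDerivAt (fun τ : ℝ => Complex.exp (4 * Real.pi ^ 2 / γ * ((t + τ * dt : ℝ) : ℂ)))
      (Complex.exp (4 * Real.pi ^ 2 / γ * t) * (4 * Real.pi ^ 2 / γ * dt)) 0 := by
    have h := (e1.const_mul (4 * Real.pi ^ 2 / γ)).cexp
    simpa using h
  have e6 : HasDerivAt (fun τ : ℝ => (y + (τ : ℂ) * dy) / ((kap (y + (τ : ℂ) * dy) : ℝ) : ℂ))
      ((dy * kap y - y * dkap y dy) / (kap y : ℂ) ^ 2) 0 := by
    have h : HasDerivAt (fun τ : ℝ => (y + (τ : ℂ) * dy) / ((kap (y + (τ : ℂ) * dy) : ℝ) : ℂ))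
        _ 0 := e2.div e4 (by simpa using hk)
    refine h.congr_deriv ?_
    simp
  have e7 : HasDerivAt (fun τ : ℝ => ι (x + τ • ξ)) (ι ξ) 0 := by
    have h1 : HasDerivAt (fun τ : ℝ => x + τ • ξ) ξ 0 := by
      have h := ((hasDerivAt_id (0 : ℝ)).smul_const ξ).const_add x
      rwa [one_smul] at h
    exact ι.hasFDerivAt.comp_hasDerivAt (0 : ℝ) h1
  have e8 : HasDerivAt (fun τ : ℝ => ex Λ (2 * Real.pi * Complex.I / γ * ((t + τ * dt : ℝ) : ℂ))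
      (ι (x + τ • ξ))) (ex Λ (2 * Real.pi * Complex.I / γ * t)
        ((2 * Real.pi * Complex.I / γ * dt) • Λ (ι x) + ι ξ)) 0 := by
    have h1 := (e1.const_mul (2 * Real.pi * Complex.I / γ)).prodMk e7
    have h2 : HasFDerivAt (fun p : ℂ × W => ex Λ p.1 p.2) _
        (2 * Real.pi * Complex.I / γ * ((t + 0 * dt : ℝ) : ℂ), ι (x + (0 : ℝ) • ξ)) :=
      (exA_hasFDerivAt Λ _ _).restrictScalars ℝ
    have h3 := h2.comp_hasDerivAt (0 : ℝ) h1
    refine (h3.congr_deriv ?_)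
    simp
  have e9 := e4.smul e8
  refine ((e5.mul e6).prodMk e9).congr_deriv ?_
  simp [dnew1, dnew2]

omit [FiniteDimensional ℂ W] in
lemma re_inner_eq (hι : ∀ x, ‖ι x‖ = ‖x‖) (x ξ : EuclideanSpace ℝ (Fin (m + 1))) :
    (inner ℂ (ι x) (ι ξ)).re = ⟪x, ξ⟫ := by
  have h1 := re_inner_eq_norm_add_mul_self_sub_norm_sub_mul_self_div_four (𝕜 := ℂ) (ι x) (ι ξ)
  have h2 := re_inner_eq_norm_add_mul_self_sub_norm_sub_mul_self_div_four (𝕜 := ℝ) x ξ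
  rw [← map_add, ← map_sub, hι, hι] at h1
  rw [← h2] at h1
  simpa using h1

/-- The derivative of `newG` is injective along the sphere. -/
lemma newG_inj (hι : ∀ x, ‖ι x‖ = ‖x‖) (hγ : 0 < γ.re)
    (hpos : ∀ u : W, u ≠ 0 → (inner ℂ u ((2 * Real.pi * Complex.I / γ) • Λ u)).re < 0)
    (t : ℝ) (y : ℂ) (x : EuclideanSpace ℝ (Fin (m + 1))) (hx : ‖x‖ = 1) (dt : ℝ) (dy : ℂ)
    (ξ : EuclideanSpace ℝ (Fin (m + 1))) (hξ : ⟪x, ξ⟫ = 0) (h1 : dnew1 γ t y dt dy = 0)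
    (h2 : dnew2 γ Λ ι t y x dt dy ξ = 0) : dt = 0 ∧ dy = 0 ∧ ξ = 0 := by
  have : CompleteSpace W := FiniteDimensional.complete ℂ W
  have hκ := kap_pos y
  have hκc : (kap y : ℂ) ≠ 0 := by exact_mod_cast hκ.ne'
  set κ := kap y with hκdef
  set D := dkap y dy with hD
  set μ : ℂ := 2 * Real.pi * Complex.I / γ with hμ
  set c : ℂ := 4 * Real.pi ^ 2 / γ with hc
  -- the second component
  have e1 : (κ : ℂ) • ((dt : ℂ) • (μ • Λ (ι x)) + ι ξ) + (D : ℂ) • ι x = 0 := by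
    have e2 : ex Λ (μ * t) ((κ : ℂ) • ((dt : ℂ) • (μ • Λ (ι x)) + ι ξ) + (D : ℂ) • ι x) = 0 := by
      rw [map_add, map_smul, map_smul, ← h2, dnew2, smul_smul, mul_comm (dt : ℂ) μ]
    have e3 := ex_neg_apply Λ (μ * t)
      ((κ : ℂ) • ((dt : ℂ) • (μ • Λ (ι x)) + ι ξ) + (D : ℂ) • ι x)
    rw [e2, map_zero] at e3
    exact e3.symm
  have hιx : ι x ≠ 0 := by
    rw [← norm_ne_zero_iff, hι, hx]
    exact one_ne_zero
  have hR := hpos (ι x) hιx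
  set R := (inner ℂ (ι x) (μ • Λ (ι x))).re with hRdef
  have e4 : κ * (dt * R) + D = 0 := by
    have e5 := congrArg (fun v => (inner ℂ (ι x) v).re) e1
    simp only [inner_add_right, inner_zero_right, Complex.add_re, Complex.zero_re] at e5
    rw [inner_smul_right (r := (κ : ℂ)), inner_smul_right (r := (D : ℂ)), inner_add_right,
      inner_smul_right (r := (dt : ℂ)), Complex.re_ofReal_mul, Complex.re_ofReal_mul,
      Complex.add_re, Complex.re_ofReal_mul, re_inner_eq ι hι, re_inner_eq ι hι, hξ,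
      real_inner_self_eq_norm_sq, hx] at e5
    simpa using e5
  -- the first component
  have hcre : 0 < c.re := by
    have e6 : c = ((4 * Real.pi ^ 2 : ℝ) : ℂ) * γ⁻¹ := by
      rw [hc]
      push_cast
      rfl
    have hγ0 : γ ≠ 0 := by
      rintro rfl
      simp at hγ
    rw [e6, Complex.re_ofReal_mul, Complex.inv_re]
    have := Complex.normSq_pos.2 hγ0
    positivity
  have e7 : (κ : ℂ) * dy = y * (D - c * dt * κ) := by
    have hexp := Complex.exp_ne_zero (c * t)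
    have e8 : (c * dt) * (y / κ) + (dy * κ - y * D) / (κ : ℂ) ^ 2 = 0 := by
      have e9 : Complex.exp (c * t) *
          ((c * dt) * (y / κ) + (dy * κ - y * D) / (κ : ℂ) ^ 2) = 0 := by
        rw [← h1, dnew1]
        ring
      exact (mul_eq_zero.1 e9).resolve_left hexp
    field_simp at e8
    linear_combination e8
  have e10 : D = -(κ * (dt * R)) := by linarith
  have e11 : dy = y * (-(R : ℂ) - c) * dt := by
    have e12 : (κ : ℂ) * dy = (κ : ℂ) * (y * (-(R : ℂ) - c) * dt) := by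
      rw [e7, e10]
      push_cast
      ring
    exact mul_left_cancel₀ hκc e12
  have e13 : y.re * dy.re + y.im * dy.im = ‖y‖ ^ 2 * ((-R - c.re) * dt) := by
    have e15 : ((-(R : ℂ) - c) * dt).re = (-R - c.re) * dt := by
      simp
    have e14 : dy = y * ((-(R : ℂ) - c) * dt) := by rw [e11, mul_assoc]
    rw [← e15, Complex.sq_norm, Complex.normSq_apply]
    generalize (-(R : ℂ) - c) * dt = z at e14
    rw [e14, Complex.mul_re, Complex.mul_im]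
    ring
  have e16 : κ ^ 2 = kfun (‖y‖ ^ 2) := by
    rw [hκdef, kap, Real.sq_sqrt (kfun_pos _).le]
  have e17 : κ * D = eta (‖y‖ ^ 2) * (‖y‖ ^ 2 * ((-R - c.re) * dt)) := by
    have e20 : D = eta (‖y‖ ^ 2) / κ * (‖y‖ ^ 2 * ((-R - c.re) * dt)) := by
      rw [← e13]
      exact hD
    rw [e20]
    field_simp
  have e18 : (kfun (‖y‖ ^ 2) * (-R) - ‖y‖ ^ 2 * eta (‖y‖ ^ 2) * (-R) +
      ‖y‖ ^ 2 * eta (‖y‖ ^ 2) * c.re) * dt = 0 := by
    rw [e10] at e17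
    rw [← e16]
    linear_combination e17
  have e19 : 0 < kfun (‖y‖ ^ 2) * (-R) - ‖y‖ ^ 2 * eta (‖y‖ ^ 2) * (-R) +
      ‖y‖ ^ 2 * eta (‖y‖ ^ 2) * c.re := by
    have f1 : 0 ≤ ‖y‖ ^ 2 * eta (‖y‖ ^ 2) := mul_nonneg (sq_nonneg _) (eta_nonneg _)
    have f2 : ‖y‖ ^ 2 * eta (‖y‖ ^ 2) ≤ kfun (‖y‖ ^ 2) :=
      (mul_le_of_le_one_right (sq_nonneg _) (eta_le_one _)).trans (le_kfun _)
    have f3 := kfun_pos (‖y‖ ^ 2)
    rcases f1.eq_or_lt with f4 | f4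
    · rw [← f4]
      have : 0 < kfun (‖y‖ ^ 2) * (-R) := mul_pos f3 (by linarith)
      linarith
    · have f5 : 0 < ‖y‖ ^ 2 * eta (‖y‖ ^ 2) * c.re := mul_pos f4 hcre
      have f6 : 0 ≤ (kfun (‖y‖ ^ 2) - ‖y‖ ^ 2 * eta (‖y‖ ^ 2)) * (-R) :=
        mul_nonneg (by linarith) (by linarith)
      linarith
  have hdt : dt = 0 := (mul_eq_zero.1 e18).resolve_left e19.ne'
  have hdy : dy = 0 := by rw [e11, hdt]; simp
  refine ⟨hdt, hdy, ?_⟩
  have hD0 : D = 0 := by rw [e10, hdt]; ring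
  rw [hdt, hD0, Complex.ofReal_zero, zero_smul, zero_smul, zero_add, add_zero, smul_eq_zero] at e1
  exact (map_eq_zero_iff ι ι.injective).1 (e1.resolve_left hκc)

variable {D : ℕ} (E : (ℂ × W) ≃L[ℂ] EuclideanSpace ℂ (Fin D))

/-- The complex coordinates on the new piece. -/
noncomputable def newPhi (q : (ℝ × ℂ) × sphere (0 : EuclideanSpace ℝ (Fin (m + 1))) 1) :
    EuclideanSpace ℂ (Fin D) := E (newG γ Λ ι (q.1, q.2.1))

lemma newPhi_contMDiff : ContMDiff (𝓘(ℝ, ℝ × ℂ).prod (𝓡 m)) 𝓘(ℝ, EuclideanSpace ℂ (Fin D)) ∞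
    (newPhi γ Λ ι E) := by
  have : Fact (finrank ℝ (EuclideanSpace ℝ (Fin (m + 1))) = m + 1) :=
    ⟨finrank_euclideanSpace_fin⟩
  have h1 : ContMDiff (𝓘(ℝ, ℝ × ℂ).prod (𝓡 m))
      𝓘(ℝ, (ℝ × ℂ) × EuclideanSpace ℝ (Fin (m + 1))) ∞
      (fun q : (ℝ × ℂ) × sphere (0 : EuclideanSpace ℝ (Fin (m + 1))) 1 =>
        ((q.1, q.2.1) : (ℝ × ℂ) × EuclideanSpace ℝ (Fin (m + 1)))) :=
    contMDiff_fst.prodMk_space ((contMDiff_coe_sphere (n := m)).comp contMDiff_snd)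
  have h2 : ContDiff ℝ ∞ fun q : (ℝ × ℂ) × EuclideanSpace ℝ (Fin (m + 1)) =>
      E (newG γ Λ ι q) := (E.contDiff.restrict_scalars ℝ).comp (newG_contDiff γ Λ ι)
  exact h2.contMDiff.comp h1

lemma newPhi_bij (hι : ∀ x, ‖ι x‖ = ‖x‖) (hγ : 0 < γ.re)
    (hpos : ∀ u : W, u ≠ 0 → (inner ℂ u ((2 * Real.pi * Complex.I / γ) • Λ u)).re < 0)
    (q : (ℝ × ℂ) × sphere (0 : EuclideanSpace ℝ (Fin (m + 1))) 1) :
    Function.Bijective (mfderiv (𝓘(ℝ, ℝ × ℂ).prod (𝓡 m)) 𝓘(ℝ, EuclideanSpace ℂ (Fin D))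
      (newPhi γ Λ ι E) q) := by
  obtain ⟨⟨t, y⟩, σ⟩ := q
  have hdim : finrank ℝ (ℝ × ℂ) + m = finrank ℝ (EuclideanSpace ℂ (Fin D)) := by
    have h1 : finrank ℝ (ℂ × W) = finrank ℝ (EuclideanSpace ℂ (Fin D)) :=
      (E.toLinearEquiv.restrictScalars ℝ).finrank_eq
    have : FiniteDimensional ℝ W := FiniteDimensional.complexToReal W
    have h2 : finrank ℝ (EuclideanSpace ℝ (Fin (m + 1))) = finrank ℝ W :=
      ι.toLinearEquiv.finrank_eq
    rw [finrank_euclideanSpace_fin] at h2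
    rw [← h1, finrank_prod, finrank_prod, ← h2, Complex.finrank_real_complex, finrank_self]
    ring
  set Gf : (ℝ × ℂ) × EuclideanSpace ℝ (Fin (m + 1)) → EuclideanSpace ℂ (Fin D) :=
    fun q => E (newG γ Λ ι q) with hGf
  have h2 : ContDiff ℝ ∞ Gf := (E.contDiff.restrict_scalars ℝ).comp (newG_contDiff γ Λ ι)
  have h3 : HasFDerivAt Gf (fderiv ℝ Gf ((t, y), σ.1)) ((t, y), σ.1) :=
    (h2.contDiffAt.differentiableAt (by simp)).hasFDerivAt
  refine bij_sphere hdim Gf (t, y) σ _ h3 ?_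
  rintro ⟨dt, dy⟩ ξ hξ h0
  have h4 : HasDerivAt (fun τ : ℝ => ((t + τ * dt, y + τ * dy), σ.1 + τ • ξ))
      ((dt, dy), ξ) 0 := by
    have e0 : HasDerivAt (fun τ : ℝ => (τ : ℂ)) 1 0 := Complex.ofRealCLM.hasDerivAt
    have e1 : HasDerivAt (fun τ : ℝ => t + τ * dt) dt 0 := by
      have h := ((hasDerivAt_id (0 : ℝ)).mul_const dt).const_add t
      rwa [one_mul] at h
    have e2 : HasDerivAt (fun τ : ℝ => y + (τ : ℂ) * dy) dy 0 := by
      have h := (e0.mul_const dy).const_add y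
      rwa [one_mul] at h
    have e3 : HasDerivAt (fun τ : ℝ => σ.1 + τ • ξ) ξ 0 := by
      have h := ((hasDerivAt_id (0 : ℝ)).smul_const ξ).const_add σ.1
      rwa [one_smul] at h
    exact (e1.prodMk e2).prodMk e3
  have h5 : HasDerivAt (fun τ : ℝ => Gf ((t + τ * dt, y + τ * dy), σ.1 + τ • ξ))
      (fderiv ℝ Gf ((t, y), σ.1) ((dt, dy), ξ)) 0 := by
    exact h3.comp_hasDerivAt_of_eq (0 : ℝ) h4 (by simp)
  have h6 : HasDerivAt (fun τ : ℝ => Gf ((t + τ * dt, y + τ * dy), σ.1 + τ • ξ))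
      (E (dnew1 γ t y dt dy, dnew2 γ Λ ι t y σ.1 dt dy ξ)) 0 := by
    have hE : ∀ v : ℂ × W, HasFDerivAt (fun p : ℂ × W => E p)
        ((E : (ℂ × W) →L[ℂ] EuclideanSpace ℂ (Fin D)).restrictScalars ℝ) v :=
      fun v => E.hasFDerivAt.restrictScalars ℝ
    exact (hE _).comp_hasDerivAt (0 : ℝ) (newG_curve γ Λ ι t y σ.1 dt dy ξ)
  have h7 := h5.unique h6
  rw [h0] at h7
  have h8 : (dnew1 γ t y dt dy, dnew2 γ Λ ι t y σ.1 dt dy ξ) = 0 :=
    (map_eq_zero_iff E E.injective).1 h7.symm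
  have hσ : ‖(σ.1 : EuclideanSpace ℝ (Fin (m + 1)))‖ = 1 := by
    have := σ.2
    rwa [mem_sphere_zero_iff_norm] at this
  obtain ⟨g1, g2, g3⟩ := newG_inj γ Λ ι hι hγ hpos t y σ.1 hσ dt dy ξ hξ
    (congrArg Prod.fst h8) (congrArg Prod.snd h8)
  exact ⟨Prod.ext g1 g2, g3⟩

end NewP

end Pool.Agent.WallC
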