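import Pool.Agent.Lib.MP_1d980c_gt.Wall.CrossB

/-! The developing map of `S^(2n)` over the `k`-torus, with values in `ℝ^k × ℂ^n`. -/

set_option autoImplicit false
set_option linter.deprecated false
open Topology Set Module
open scoped ContDiff Manifold RealInnerProductSpace Matrix
open Metric (sphere)

namespace Pool.Agent.WallC

section OtB

variable {n d k : ℕ} (j : Fin k) (ι : EuclideanSpace ℝ (Fin (d + 1)) ≃L[ℝ] ℝ × (Fin n → ℂ))

/-- Reindexing. -/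
noncomputable def rei : ((Fin k → ℝ) × (Fin 0 ⊕ Fin n → ℂ)) ≃L[ℝ] ((Fin k → ℝ) × (Fin n → ℂ)) :=
  (LinearEquiv.prodCongr (LinearEquiv.refl ℝ (Fin k → ℝ))
    (LinearEquiv.funCongrLeft ℝ ℂ (Equiv.emptySum (Fin 0) (Fin n)).symm)).toContinuousLinearEquiv

/-- The developing map `(x, s) ↦ (e^s with e^(s_j) replaced by e^(s_j) x_0, e^(s_j) x')`. -/
noncomputable def otPsi'
    (y : sphere (0 : EuclideanSpace ℝ (Fin (d + 1))) 1 × (Fin k → ℝ)) :
    (Fin k → ℝ) × (Fin n → ℂ) :=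
  (Function.update (fun a => Real.exp (y.2 a)) j (Real.exp (y.2 j) * (ι y.1.1).1),
    fun a => (Real.exp (y.2 j) : ℂ) * (ι y.1.1).2 a)

lemma otPsi'_eq : otPsi' j ι = fun y => rei (otPsi j ι y) := by
  funext y
  refine Prod.ext rfl (funext fun a => ?_)
  rfl

lemma otPsi'_contMDiff : ContMDiff ((𝓡 d).prod 𝓘(ℝ, Fin k → ℝ))
    𝓘(ℝ, (Fin k → ℝ) × (Fin n → ℂ)) ∞ (otPsi' j ι) := by
  rw [otPsi'_eq]
  exact (rei (n := n) (k := k)).contDiff.contMDiff.comp (otPsi_contMDiff j ι)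

lemma otPsi'_bij (y : sphere (0 : EuclideanSpace ℝ (Fin (d + 1))) 1 × (Fin k → ℝ)) :
    Function.Bijective (mfderiv ((𝓡 d).prod 𝓘(ℝ, Fin k → ℝ))
      𝓘(ℝ, (Fin k → ℝ) × (Fin n → ℂ)) (otPsi' j ι) y) := by
  obtain ⟨dF, hdF⟩ : ∃ dF : EuclideanSpace ℝ (Fin d) × (Fin k → ℝ) →L[ℝ]
      (Fin k → ℝ) × (Fin 0 ⊕ Fin n → ℂ),
      HasMFDerivAt ((𝓡 d).prod 𝓘(ℝ, Fin k → ℝ))
        𝓘(ℝ, (Fin k → ℝ) × (Fin 0 ⊕ Fin n → ℂ)) (otPsi j ι) y dF :=
    ⟨_, ((otPsi_contMDiff j ι y).mdifferentiableAt (by simp)).hasMFDerivAt⟩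
  have hbF : Function.Bijective dF := by
    have h := otPsi_bij j ι y
    rwa [hdF.mfderiv] at h
  have h1 : HasMFDerivAt ((𝓡 d).prod 𝓘(ℝ, Fin k → ℝ)) 𝓘(ℝ, (Fin k → ℝ) × (Fin n → ℂ))
      (otPsi' j ι) y ((rei (n := n) (k := k)).toContinuousLinearMap.comp dF) := by
    rw [otPsi'_eq]
    exact HasMFDerivAt.comp (g := rei) y
      (rei (n := n) (k := k)).toContinuousLinearMap.hasMFDerivAt hdF
  rw [h1.mfderiv]
  have hfin : Function.Bijective (fun w : EuclideanSpace ℝ (Fin d) × (Fin k → ℝ) =>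
      rei (dF w)) := (rei (n := n) (k := k)).bijective.comp hbF
  exact hfin

lemma otPsi'_equiv (e : Fin k → ℝ) (x : sphere (0 : EuclideanSpace ℝ (Fin (d + 1))) 1)
    (s : Fin k → ℝ) :
    otPsi' j ι (x, s + e) =
      (Matrix.diagonal (fun i => Real.exp (e i)) *ᵥ (otPsi' j ι (x, s)).1,
        ((Real.exp (e j) : ℂ) • (1 : Matrix (Fin n) (Fin n) ℂ)) *ᵥ (otPsi' j ι (x, s)).2) := by
  refine Prod.ext (funext fun a => ?_) (funext fun a => ?_)
  · by_cases ha : a = j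
    · subst ha
      simp only [otPsi', Function.update_self, Pi.add_apply, Matrix.mulVec_diagonal]
      rw [Real.exp_add]
      ring
    · simp only [otPsi', Function.update_of_ne ha, Pi.add_apply, Matrix.mulVec_diagonal]
      rw [Real.exp_add]
      ring
  · simp only [otPsi', Pi.add_apply, Matrix.smul_mulVec, Matrix.one_mulVec, Pi.smul_apply,
      smul_eq_mul]
    rw [Real.exp_add]
    push_cast
    ring

end OtB

end Pool.Agent.WallC
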