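import Pool.Agent.Lib.MP_1d980c_gt.Wall.Cover
import Pool.Agent.Lib.MP_1d980c_gt.Wall.Germs

/-! The complex coordinates on the cover of `N × X`. -/

set_option autoImplicit false
set_option linter.deprecated false
open Topology Set Module
open scoped ContDiff Manifold Matrix

namespace Pool.Agent.WallC

section ProdG

variable {k : ℕ} {α β ν : Type} [Fintype α] [Fintype β] [Fintype ν]

/-- The generating identifications of the cover of `N`. -/
inductive GStep {I : Type} (A : I → Matrix α α ℝ) (τ : I → α → ℝ) (f : I → (β → ℂ) → (β → ℂ))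
    (e : I → Fin k → ℝ) :
    (α → ℝ) × (β → ℂ) × (Fin k → ℝ) → (α → ℝ) × (β → ℂ) × (Fin k → ℝ) → Prop
  | gen (i : I) (p : α → ℝ) (z : β → ℂ) (s : Fin k → ℝ) :
      GStep A τ f e (p, z, s) (A i *ᵥ p + τ i, f i z, s + e i)

/-- The map `(θ₁, θ₂), (q, u) ↦ (θ₁ + i q, θ₂, u)`. -/
noncomputable def mixE (g : ((α → ℝ) × (β → ℂ)) × ((α → ℝ) × (ν → ℂ))) :
    (α → ℂ) × (β → ℂ) × (ν → ℂ) :=
  (fun a => (g.1.1 a : ℂ) + Complex.I * (g.2.1 a : ℂ), g.1.2, g.2.2)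

/-- `mixE` as a real linear equivalence. -/
noncomputable def mixL : (((α → ℝ) × (β → ℂ)) × ((α → ℝ) × (ν → ℂ))) ≃ₗ[ℝ]
    ((α → ℂ) × (β → ℂ) × (ν → ℂ)) where
  toFun := mixE
  invFun w := ((fun a => (w.1 a).re, w.2.1), (fun a => (w.1 a).im, w.2.2))
  map_add' g g' := by
    refine Prod.ext (funext fun a => ?_) (Prod.ext rfl rfl)
    simp only [mixE, Prod.fst_add, Prod.snd_add, Pi.add_apply]
    push_cast
    ring
  map_smul' r g := by
    refine Prod.ext (funext fun a => ?_) (Prod.ext rfl rfl)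
    simp only [mixE, Prod.smul_fst, Prod.smul_snd, Pi.smul_apply, smul_eq_mul, RingHom.id_apply,
      Complex.real_smul]
    push_cast
    ring
  left_inv g := by
    refine Prod.ext (Prod.ext (funext fun a => ?_) rfl) (Prod.ext (funext fun a => ?_) rfl) <;>
      simp [mixE]
  right_inv w := by
    refine Prod.ext (funext fun a => ?_) (Prod.ext rfl rfl)
    simp only [mixE]
    rw [mul_comm]
    exact Complex.re_add_im _

/-- `mixE` as a continuous real linear equivalence. -/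
noncomputable def mixC : (((α → ℝ) × (β → ℂ)) × ((α → ℝ) × (ν → ℂ))) ≃L[ℝ]
    ((α → ℂ) × (β → ℂ) × (ν → ℂ)) := mixL.toContinuousLinearEquiv

lemma mixC_apply (g : ((α → ℝ) × (β → ℂ)) × ((α → ℝ) × (ν → ℂ))) : mixC g = mixE g := rfl

/-- The map `(w, z, u) ↦ (A w + τ, f z, c u)` of `ℂ^a × ℂ^b × ℂ^n`. -/
noncomputable def triT (A : Matrix α α ℝ) (τ : α → ℝ) (f : (β → ℂ) → (β → ℂ)) (c : Matrix ν ν ℂ)
    (w : (α → ℂ) × (β → ℂ) × (ν → ℂ)) : (α → ℂ) × (β → ℂ) × (ν → ℂ) :=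
  (A.map (fun r : ℝ => (r : ℂ)) *ᵥ w.1 + fun a => (τ a : ℂ), f w.2.1, c *ᵥ w.2.2)

lemma triT_contDiff (A : Matrix α α ℝ) (τ : α → ℝ) {f : (β → ℂ) → (β → ℂ)}
    (hf : ContDiff ℂ ∞ f) (c : Matrix ν ν ℂ) : ContDiff ℂ ∞ (triT A τ f c) := by
  have h : ∀ {κ : Type} [Fintype κ] (Q : Matrix κ κ ℂ), ContDiff ℂ ∞ fun w : κ → ℂ => Q *ᵥ w :=
    fun Q => (LinearMap.toContinuousLinearMap Q.mulVecLin).contDiff
  exact (((h _).comp contDiff_fst).add contDiff_const).prodMk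
    ((hf.comp (contDiff_fst.comp contDiff_snd)).prodMk
    ((h _).comp (contDiff_snd.comp contDiff_snd)))

lemma triT_mixE (A : Matrix α α ℝ) (τ : α → ℝ) (f : (β → ℂ) → (β → ℂ)) (c : Matrix ν ν ℂ)
    (g : ((α → ℝ) × (β → ℂ)) × ((α → ℝ) × (ν → ℂ))) :
    mixE ((A *ᵥ g.1.1 + τ, f g.1.2), (A *ᵥ g.2.1, c *ᵥ g.2.2)) = triT A τ f c (mixE g) := by
  refine Prod.ext (funext fun a => ?_) (Prod.ext rfl rfl)
  simp only [mixE, triT, Matrix.mulVec, dotProduct, Matrix.map_apply, Pi.add_apply]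
  push_cast
  rw [Finset.mul_sum, add_right_comm, ← Finset.sum_add_distrib]
  congr 1
  refine Finset.sum_congr rfl fun x _ => ?_
  ring

variable [DecidableEq α] [DecidableEq ν]

omit [Fintype β] in
lemma triT_inv {A : Matrix α α ℝ} (τ : α → ℝ) (f : (β → ℂ) ≃ (β → ℂ)) {c : Matrix ν ν ℂ}
    (hA : IsUnit A.det) (hc : IsUnit c.det) (w : (α → ℂ) × (β → ℂ) × (ν → ℂ)) :
    triT A⁻¹ (-(A⁻¹ *ᵥ τ)) f.symm c⁻¹ (triT A τ f c w) = w ∧
      triT A τ f c (triT A⁻¹ (-(A⁻¹ *ᵥ τ)) f.symm c⁻¹ w) = w := by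
  have e0 : ∀ (Q : Matrix α α ℝ) (v : α → ℝ), (fun a => ((Q *ᵥ v) a : ℂ)) =
      Q.map (fun r : ℝ => (r : ℂ)) *ᵥ fun a => (v a : ℂ) := by
    intro Q v
    funext a
    simp only [Matrix.mulVec, dotProduct, Matrix.map_apply]
    push_cast
    rfl
  have e1 : A⁻¹.map (fun r : ℝ => (r : ℂ)) * A.map (fun r : ℝ => (r : ℂ)) = 1 := by
    have h := Matrix.map_mul (L := A⁻¹) (M := A) (f := Complex.ofRealHom)
    rw [Matrix.nonsing_inv_mul _ hA, Matrix.map_one _ (map_zero _) (map_one _)] at h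
    exact h.symm
  have e2 : A.map (fun r : ℝ => (r : ℂ)) * A⁻¹.map (fun r : ℝ => (r : ℂ)) = 1 := by
    have h := Matrix.map_mul (L := A) (M := A⁻¹) (f := Complex.ofRealHom)
    rw [Matrix.mul_nonsing_inv _ hA, Matrix.map_one _ (map_zero _) (map_one _)] at h
    exact h.symm
  have e3 : (fun a => ((-(A⁻¹ *ᵥ τ)) a : ℂ)) =
      -(A⁻¹.map (fun r : ℝ => (r : ℂ)) *ᵥ fun a => (τ a : ℂ)) := by
    rw [← e0]
    funext a
    simp
  constructor
  · simp only [triT]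
    rw [e3, Matrix.mulVec_add, Matrix.mulVec_mulVec, Matrix.mulVec_mulVec, e1,
      Matrix.nonsing_inv_mul _ hc, Matrix.one_mulVec, Matrix.one_mulVec, f.symm_apply_apply]
    refine Prod.ext ?_ rfl
    simp
  · simp only [triT]
    rw [e3, Matrix.mulVec_add, Matrix.mulVec_neg, Matrix.mulVec_mulVec, Matrix.mulVec_mulVec,
      Matrix.mulVec_mulVec, e2, Matrix.mul_nonsing_inv _ hc, Matrix.one_mulVec,
      Matrix.one_mulVec, Matrix.one_mulVec, f.apply_symm_apply]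
    refine Prod.ext ?_ rfl
    simp

end ProdG

end Pool.Agent.WallC
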