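import Pool.Agent.Lib.MP_1d980c_gt.Wall.ProdG

/-! The developing map of `N × X`, its deck transformations, and the complex structure. -/

set_option autoImplicit false
set_option linter.deprecated false
open Topology Set Module
open scoped ContDiff Manifold Matrix

namespace Pool.Agent.WallC

open Pool.Agent.S4T2

section ProdH

variable {k D : ℕ} {α β ν : Type} [Fintype α] [Fintype β] [Fintype ν]
    {EX HX X : Type} [NormedAddCommGroup EX] [NormedSpace ℝ EX] [TopologicalSpace HX]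
    {IX : ModelWithCorners ℝ EX HX} [TopologicalSpace X] [ChartedSpace HX X]

/-- The developing map. -/
noncomputable def devG (ψ : X × (Fin k → ℝ) → (α → ℝ) × (ν → ℂ))
    (p : ((α → ℝ) × (β → ℂ) × (Fin k → ℝ)) × X) :
    (α → ℂ) × (β → ℂ) × (ν → ℂ) := mixE ((p.1.1, p.1.2.1), ψ (p.2, p.1.2.2))

variable (ψ : X × (Fin k → ℝ) → (α → ℝ) × (ν → ℂ))
    (E : ((α → ℂ) × (β → ℂ) × (ν → ℂ)) ≃L[ℂ] EuclideanSpace ℂ (Fin D))

lemma devG_contMDiff (hψ : ContMDiff (IX.prod 𝓘(ℝ, Fin k → ℝ)) 𝓘(ℝ, (α → ℝ) × (ν → ℂ)) ∞ ψ) :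
    ContMDiff (𝓘(ℝ, (α → ℝ) × (β → ℂ) × (Fin k → ℝ)).prod IX) 𝓘(ℝ, EuclideanSpace ℂ (Fin D)) ∞
      (fun p => E (devG ψ p)) := by
  have h1 : ContMDiff (𝓘(ℝ, (α → ℝ) × (β → ℂ) × (Fin k → ℝ)).prod IX)
      𝓘(ℝ, (α → ℝ) × (β → ℂ)) ∞
      (fun p : ((α → ℝ) × (β → ℂ) × (Fin k → ℝ)) × X => (p.1.1, p.1.2.1)) :=
    (contDiff_fst.prodMk (contDiff_fst.comp contDiff_snd)).contMDiff.comp contMDiff_fst
  have h2 : ContMDiff (𝓘(ℝ, (α → ℝ) × (β → ℂ) × (Fin k → ℝ)).prod IX) 𝓘(ℝ, Fin k → ℝ) ∞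
      (fun p : ((α → ℝ) × (β → ℂ) × (Fin k → ℝ)) × X => p.1.2.2) :=
    (contDiff_snd.comp contDiff_snd).contMDiff.comp contMDiff_fst
  have h3 : ContMDiff (𝓘(ℝ, (α → ℝ) × (β → ℂ) × (Fin k → ℝ)).prod IX)
      𝓘(ℝ, (α → ℝ) × (ν → ℂ)) ∞
      (fun p : ((α → ℝ) × (β → ℂ) × (Fin k → ℝ)) × X => ψ (p.2, p.1.2.2)) :=
    hψ.comp (contMDiff_snd.prodMk h2)
  have h4 : ContDiff ℝ ∞ fun g : ((α → ℝ) × (β → ℂ)) × ((α → ℝ) × (ν → ℂ)) => E (mixC g) :=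
    (E.contDiff.restrict_scalars ℝ).comp (mixC (α := α) (β := β) (ν := ν)).contDiff
  exact h4.contMDiff.comp (h1.prodMk_space h3)

lemma devG_bij (hψ : ContMDiff (IX.prod 𝓘(ℝ, Fin k → ℝ)) 𝓘(ℝ, (α → ℝ) × (ν → ℂ)) ∞ ψ)
    (hψb : ∀ y, Function.Bijective
      (mfderiv (IX.prod 𝓘(ℝ, Fin k → ℝ)) 𝓘(ℝ, (α → ℝ) × (ν → ℂ)) ψ y))
    (p : ((α → ℝ) × (β → ℂ) × (Fin k → ℝ)) × X) :
    Function.Bijective (mfderiv (𝓘(ℝ, (α → ℝ) × (β → ℂ) × (Fin k → ℝ)).prod IX)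
      𝓘(ℝ, EuclideanSpace ℂ (Fin D)) (fun p => E (devG ψ p)) p) := by
  obtain ⟨⟨v, z, s⟩, x⟩ := p
  obtain ⟨dψ, hdψ⟩ : ∃ dψ : EX × (Fin k → ℝ) →L[ℝ] (α → ℝ) × (ν → ℂ),
      HasMFDerivAt (IX.prod 𝓘(ℝ, Fin k → ℝ)) 𝓘(ℝ, (α → ℝ) × (ν → ℂ)) ψ (x, s) dψ :=
    ⟨_, ((hψ (x, s)).mdifferentiableAt (by simp)).hasMFDerivAt⟩
  have hb : Function.Bijective dψ := by
    have h := hψb (x, s)
    rwa [hdψ.mfderiv] at h
  have h1 : HasMFDerivAt (𝓘(ℝ, (α → ℝ) × (β → ℂ) × (Fin k → ℝ)).prod IX)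
      𝓘(ℝ, (α → ℝ) × (β → ℂ) × (Fin k → ℝ))
      (fun p : ((α → ℝ) × (β → ℂ) × (Fin k → ℝ)) × X => p.1)
      ((v, z, s), x) (ContinuousLinearMap.fst ℝ ((α → ℝ) × (β → ℂ) × (Fin k → ℝ)) EX) :=
    hasMFDerivAt_fst _
  have h2 : HasMFDerivAt (𝓘(ℝ, (α → ℝ) × (β → ℂ) × (Fin k → ℝ)).prod IX) IX
      (fun p : ((α → ℝ) × (β → ℂ) × (Fin k → ℝ)) × X => p.2)
      ((v, z, s), x) (ContinuousLinearMap.snd ℝ ((α → ℝ) × (β → ℂ) × (Fin k → ℝ)) EX) :=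
    hasMFDerivAt_snd _
  set Q3 : (α → ℝ) × (β → ℂ) × (Fin k → ℝ) →L[ℝ] (Fin k → ℝ) :=
    (ContinuousLinearMap.snd ℝ (β → ℂ) (Fin k → ℝ)).comp
      (ContinuousLinearMap.snd ℝ (α → ℝ) ((β → ℂ) × (Fin k → ℝ))) with hQ3
  set Q1 : (α → ℝ) × (β → ℂ) × (Fin k → ℝ) →L[ℝ] (α → ℝ) × (β → ℂ) :=
    (ContinuousLinearMap.fst ℝ (α → ℝ) ((β → ℂ) × (Fin k → ℝ))).prod
    ((ContinuousLinearMap.fst ℝ (β → ℂ) (Fin k → ℝ)).comp
      (ContinuousLinearMap.snd ℝ (α → ℝ) ((β → ℂ) × (Fin k → ℝ)))) with hQ1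
  have h3 : HasMFDerivAt (𝓘(ℝ, (α → ℝ) × (β → ℂ) × (Fin k → ℝ)).prod IX) 𝓘(ℝ, Fin k → ℝ)
      (fun p : ((α → ℝ) × (β → ℂ) × (Fin k → ℝ)) × X => p.1.2.2) ((v, z, s), x)
      (Q3.comp (ContinuousLinearMap.fst ℝ ((α → ℝ) × (β → ℂ) × (Fin k → ℝ)) EX)) :=
    Q3.hasMFDerivAt.comp _ h1
  have h4 : HasMFDerivAt (𝓘(ℝ, (α → ℝ) × (β → ℂ) × (Fin k → ℝ)).prod IX)
      𝓘(ℝ, (α → ℝ) × (ν → ℂ))
      (fun p : ((α → ℝ) × (β → ℂ) × (Fin k → ℝ)) × X => ψ (p.2, p.1.2.2)) ((v, z, s), x)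
      (dψ.comp ((ContinuousLinearMap.snd ℝ ((α → ℝ) × (β → ℂ) × (Fin k → ℝ)) EX).prod
        (Q3.comp (ContinuousLinearMap.fst ℝ ((α → ℝ) × (β → ℂ) × (Fin k → ℝ)) EX)))) :=
    HasMFDerivAt.comp (g := ψ) ((v, z, s), x) hdψ (h2.prodMk h3)
  have h5 : HasMFDerivAt (𝓘(ℝ, (α → ℝ) × (β → ℂ) × (Fin k → ℝ)).prod IX)
      𝓘(ℝ, (α → ℝ) × (β → ℂ))
      (fun p : ((α → ℝ) × (β → ℂ) × (Fin k → ℝ)) × X => (p.1.1, p.1.2.1)) ((v, z, s), x)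
      (Q1.comp (ContinuousLinearMap.fst ℝ ((α → ℝ) × (β → ℂ) × (Fin k → ℝ)) EX)) :=
    Q1.hasMFDerivAt.comp _ h1
  have h6 : HasMFDerivAt (𝓘(ℝ, (α → ℝ) × (β → ℂ) × (Fin k → ℝ)).prod IX)
      𝓘(ℝ, ((α → ℝ) × (β → ℂ)) × ((α → ℝ) × (ν → ℂ)))
      (fun p : ((α → ℝ) × (β → ℂ) × (Fin k → ℝ)) × X =>
        ((p.1.1, p.1.2.1), ψ (p.2, p.1.2.2))) ((v, z, s), x)
      (ContinuousLinearMap.prod
        (Q1.comp (ContinuousLinearMap.fst ℝ ((α → ℝ) × (β → ℂ) × (Fin k → ℝ)) EX))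
        (dψ.comp ((ContinuousLinearMap.snd ℝ ((α → ℝ) × (β → ℂ) × (Fin k → ℝ)) EX).prod
        (Q3.comp (ContinuousLinearMap.fst ℝ ((α → ℝ) × (β → ℂ) × (Fin k → ℝ)) EX))))) := by
    rw [modelWithCornersSelf_prod, ← chartedSpaceSelf_prod]
    exact h5.prodMk h4
  set Q : (((α → ℝ) × (β → ℂ)) × ((α → ℝ) × (ν → ℂ))) →L[ℝ] EuclideanSpace ℂ (Fin D) :=
    ((E : ((α → ℂ) × (β → ℂ) × (ν → ℂ)) →L[ℂ] EuclideanSpace ℂ (Fin D)).restrictScalars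
      ℝ).comp (mixC (α := α) (β := β) (ν := ν)).toContinuousLinearMap with hQdef
  have h7 := HasMFDerivAt.comp (g := Q) ((v, z, s), x)
    (Q.hasMFDerivAt (x := ((v, z), ψ (x, s)))) h6
  have h8 : HasMFDerivAt (𝓘(ℝ, (α → ℝ) × (β → ℂ) × (Fin k → ℝ)).prod IX)
      𝓘(ℝ, EuclideanSpace ℂ (Fin D)) (fun p => E (devG ψ p)) ((v, z, s), x) _ := h7
  rw [h8.mfderiv]
  have hfin : Function.Bijective (fun w : ((α → ℝ) × (β → ℂ) × (Fin k → ℝ)) × EX =>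
      E (mixC ((w.1.1, w.1.2.1), dψ (w.2, w.1.2.2)))) := by
    constructor
    · rintro ⟨⟨dv, dz, ds⟩, dx⟩ ⟨⟨dv', dz', ds'⟩, dx'⟩ h
      have h9 : (((dv, dz), dψ (dx, ds)) : ((α → ℝ) × (β → ℂ)) × ((α → ℝ) × (ν → ℂ))) =
          ((dv', dz'), dψ (dx', ds')) := mixC.injective (E.injective h)
      have h10 : dv = dv' := congrArg (fun w => w.1.1) h9
      have h10' : dz = dz' := congrArg (fun w => w.1.2) h9
      have h11 : (dx, ds) = (dx', ds') := hb.1 (congrArg Prod.snd h9)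
      have h12 : dx = dx' := congrArg Prod.fst h11
      have h13 : ds = ds' := congrArg Prod.snd h11
      rw [h10, h10', h12, h13]
    · intro w
      obtain ⟨g, hg⟩ := (mixC (α := α) (β := β) (ν := ν)).surjective (E.symm w)
      obtain ⟨⟨dx, ds⟩, hx⟩ := hb.2 g.2
      refine ⟨((g.1.1, g.1.2, ds), dx), ?_⟩
      change E (mixC ((g.1.1, g.1.2), dψ (dx, ds))) = w
      rw [hx]
      change E (mixC g) = w
      rw [hg, E.apply_symm_apply]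
  exact hfin

variable [DecidableEq α] [DecidableEq ν]

/-- Deck transformations. -/
theorem devG_deck {N I : Type} (A : I → Matrix α α ℝ) (τ : I → α → ℝ)
    (f : I → (β → ℂ) ≃ (β → ℂ)) (e : I → Fin k → ℝ) (c : I → Matrix ν ν ℂ)
    (hA : ∀ i, IsUnit (A i).det) (hf : ∀ i, ContDiff ℂ ∞ (f i) ∧ ContDiff ℂ ∞ (f i).symm)
    (hc : ∀ i, IsUnit (c i).det)
    (hψe : ∀ i x s, ψ (x, s + e i) = (A i *ᵥ (ψ (x, s)).1, c i *ᵥ (ψ (x, s)).2))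
    (πN : (α → ℝ) × (β → ℂ) × (Fin k → ℝ) → N)
    (hN : ∀ q q', πN q = πN q' ↔ Relation.EqvGen (GStep A τ (fun i => f i) e) q q')
    (p p' : ((α → ℝ) × (β → ℂ) × (Fin k → ℝ)) × X)
    (h : ((πN p.1, p.2) : N × X) = (πN p'.1, p'.2)) :
    ∃ (g : ((α → ℝ) × (β → ℂ) × (Fin k → ℝ)) × X → ((α → ℝ) × (β → ℂ) × (Fin k → ℝ)) × X)
      (T : EuclideanSpace ℂ (Fin D) → EuclideanSpace ℂ (Fin D)), Continuous g ∧ g p = p' ∧
      (∀ x, ((πN (g x).1, (g x).2) : N × X) = (πN x.1, x.2)) ∧ ContDiff ℂ ∞ T ∧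
      ∀ x, E (devG ψ (g x)) = T (E (devG ψ x)) := by
  obtain ⟨q, x⟩ := p
  obtain ⟨q', x'⟩ := p'
  obtain rfl : x = x' := congrArg Prod.snd h
  have h0 : Relation.EqvGen (GStep A τ (fun i => f i) e) q q' := (hN q q').1 (congrArg Prod.fst h)
  -- a symmetric form of the claim
  have key : ∃ (g g' : (α → ℝ) × (β → ℂ) × (Fin k → ℝ) → (α → ℝ) × (β → ℂ) × (Fin k → ℝ))
      (T T' : (α → ℂ) × (β → ℂ) × (ν → ℂ) → (α → ℂ) × (β → ℂ) × (ν → ℂ)),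
      Continuous g ∧ Continuous g' ∧ (∀ z, g (g' z) = z) ∧ (∀ z, g' (g z) = z) ∧
      ContDiff ℂ ∞ T ∧ ContDiff ℂ ∞ T' ∧ (∀ z, T (T' z) = z) ∧ (∀ z, T' (T z) = z) ∧
      g q = q' ∧ (∀ z, πN (g z) = πN z) ∧
      ∀ (z : (α → ℝ) × (β → ℂ) × (Fin k → ℝ)) (y : X), devG ψ (g z, y) = T (devG ψ (z, y)) := by
    clear h
    induction h0 with
    | rel q q' hs =>
      cases hs with
      | gen i v z s =>
        refine ⟨fun w => (A i *ᵥ w.1 + τ i, f i w.2.1, w.2.2 + e i),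
          fun w => ((A i)⁻¹ *ᵥ (w.1 - τ i), (f i).symm w.2.1, w.2.2 - e i),
          triT (A i) (τ i) (f i) (c i),
          triT (A i)⁻¹ (-((A i)⁻¹ *ᵥ τ i)) (f i).symm (c i)⁻¹, ?_, ?_, fun w => ?_, fun w => ?_,
          triT_contDiff _ _ (hf i).1 _, triT_contDiff _ _ (hf i).2 _,
          fun w => (triT_inv (τ i) (f i) (hA i) (hc i) w).2,
          fun w => (triT_inv (τ i) (f i) (hA i) (hc i) w).1, rfl, ?_, ?_⟩
        · have hfc : Continuous (f i) := (hf i).1.continuous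
          fun_prop
        · have hfc : Continuous (f i).symm := (hf i).2.continuous
          fun_prop
        · simp [Matrix.mulVec_mulVec, Matrix.mul_nonsing_inv _ (hA i)]
        · simp [Matrix.mulVec_mulVec, Matrix.nonsing_inv_mul _ (hA i)]
        · intro w
          exact ((hN _ _).2 (Relation.EqvGen.rel _ _ (GStep.gen i w.1 w.2.1 w.2.2))).symm
        · intro w y
          simp only [devG]
          rw [hψe]
          exact triT_mixE (A i) (τ i) (f i) (c i) ((w.1, w.2.1), ψ (y, w.2.2))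
    | refl q =>
      exact ⟨id, id, id, id, continuous_id, continuous_id, fun _ => rfl, fun _ => rfl,
        contDiff_id, contDiff_id, fun _ => rfl, fun _ => rfl, rfl, fun _ => rfl,
        fun _ _ => rfl⟩
    | symm q q' _ ih =>
      obtain ⟨g, g', T, T', h1, h2, h3, h4, h5, h6, h7, h8, h9, h10, h11⟩ := ih
      refine ⟨g', g, T', T, h2, h1, h4, h3, h6, h5, h8, h7, ?_, ?_, ?_⟩
      · rw [← h9, h4]
      · intro z
        rw [← h10 (g' z), h3]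
      · intro z y
        have h12 := h11 (g' z) y
        rw [h3] at h12
        rw [h12, h8]
    | trans q q' q'' _ _ ih1 ih2 =>
      obtain ⟨g, g', T, T', h1, h2, h3, h4, h5, h6, h7, h8, h9, h10, h11⟩ := ih1
      obtain ⟨f, f', S, S', k1, k2, k3, k4, k5, k6, k7, k8, k9, k10, k11⟩ := ih2
      refine ⟨fun z => f (g z), fun z => g' (f' z), fun z => S (T z), fun z => T' (S' z),
        k1.comp h1, h2.comp k2, fun z => ?_, fun z => ?_, k5.comp h5, h6.comp k6, fun z => ?_,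
        fun z => ?_, ?_, fun z => ?_, fun z y => ?_⟩
      · simp only [h3, k3]
      · simp only [k4, h4]
      · simp only [h7, k7]
      · simp only [k8, h8]
      · simp only [h9, k9]
      · simp only [k10, h10]
      · simp only [k11, h11]
  obtain ⟨g, g', T, T', h1, h2, h3, h4, h5, h6, h7, h8, h9, h10, h11⟩ := key
  refine ⟨fun z => (g z.1, z.2), fun w => E (T (E.symm w)), ?_, ?_, ?_, ?_, ?_⟩
  · exact (h1.comp continuous_fst).prodMk continuous_snd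
  · simp only
    rw [h9]
  · rintro ⟨z, y⟩
    simp only
    rw [h10]
  · exact E.contDiff.comp (h5.comp E.symm.contDiff)
  · rintro ⟨z, y⟩
    simp only
    rw [h11, E.symm_apply_apply]

/-- The complex structure on `N × X`. -/
theorem prod_complex {EN HN N I : Type} [NormedAddCommGroup EN] [NormedSpace ℝ EN]
    [FiniteDimensional ℝ EN] [TopologicalSpace HN] {IN : ModelWithCorners ℝ EN HN}
    [IN.Boundaryless] [TopologicalSpace N] [ChartedSpace HN N] [IsManifold IN ∞ N]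
    [FiniteDimensional ℝ EX] [IX.Boundaryless] [IsManifold IX ∞ X]
    (E : ((α → ℂ) × (β → ℂ) × (ν → ℂ)) ≃L[ℂ] EuclideanSpace ℂ (Fin D))
    (A : I → Matrix α α ℝ) (τ : I → α → ℝ)
    (f : I → (β → ℂ) ≃ (β → ℂ)) (e : I → Fin k → ℝ) (c : I → Matrix ν ν ℂ)
    (hA : ∀ i, IsUnit (A i).det) (hf : ∀ i, ContDiff ℂ ∞ (f i) ∧ ContDiff ℂ ∞ (f i).symm)
    (hc : ∀ i, IsUnit (c i).det)
    (hψ : ContMDiff (IX.prod 𝓘(ℝ, Fin k → ℝ)) 𝓘(ℝ, (α → ℝ) × (ν → ℂ)) ∞ ψ)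
    (hψb : ∀ y, Function.Bijective
      (mfderiv (IX.prod 𝓘(ℝ, Fin k → ℝ)) 𝓘(ℝ, (α → ℝ) × (ν → ℂ)) ψ y))
    (hψe : ∀ i x s, ψ (x, s + e i) = (A i *ᵥ (ψ (x, s)).1, c i *ᵥ (ψ (x, s)).2))
    (πN : (α → ℝ) × (β → ℂ) × (Fin k → ℝ) → N)
    (hπ : IsLocalDiffeomorph 𝓘(ℝ, (α → ℝ) × (β → ℂ) × (Fin k → ℝ)) IN ∞ πN)
    (hs : Function.Surjective πN)
    (hN : ∀ q q', πN q = πN q' ↔ Relation.EqvGen (GStep A τ (fun i => f i) e) q q') :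
    ∃ (N' : Type) (_ : TopologicalSpace N') (_ : ChartedSpace (EuclideanSpace ℂ (Fin D)) N'),
      IsManifold 𝓘(ℂ, EuclideanSpace ℂ (Fin D)) ∞ N' ∧
      ∃ φ : Diffeomorph (IN.prod IX) 𝓘(ℝ, EuclideanSpace ℂ (Fin D)) (N × X) N' ∞,
        ∀ p : ((α → ℝ) × (β → ℂ) × (Fin k → ℝ)) × X,
        ∃ σ : (α → ℂ) × (β → ℂ) × (ν → ℂ) → N',
          ContMDiffAt 𝓘(ℂ, (α → ℂ) × (β → ℂ) × (ν → ℂ))
            𝓘(ℂ, EuclideanSpace ℂ (Fin D)) ∞ σ (devG ψ p) ∧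
          ∀ᶠ p' in 𝓝 p, φ (πN p'.1, p'.2) = σ (devG ψ p') := by
  have hid : ∀ x : X, IsLocalDiffeomorphAt IX IX ∞ (id : X → X) x := fun x =>
    (Diffeomorph.refl IX X ∞).isLocalDiffeomorph x
  have hP : IsPiece (𝓘(ℝ, (α → ℝ) × (β → ℂ) × (Fin k → ℝ)).prod IX) (IN.prod IX) univ
      (fun p : ((α → ℝ) × (β → ℂ) × (Fin k → ℝ)) × X => ((πN p.1, p.2) : N × X))
      (fun p => E (devG ψ p)) :=
    { isOpen := isOpen_univ
      loc := fun p _ => IsLocalDiffeomorphAt.prodMapW (hπ p.1) (hid p.2)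
      smooth := fun p _ => devG_contMDiff ψ E hψ p
      bij := fun p _ => devG_bij ψ E hψ hψb p }
  have hsurj : ∀ x : N × X, ∃ p : ((α → ℝ) × (β → ℂ) × (Fin k → ℝ)) × X,
      ((πN p.1, p.2) : N × X) = x := by
    rintro ⟨n, x⟩
    obtain ⟨q, rfl⟩ := hs n
    exact ⟨(q, x), rfl⟩
  obtain ⟨N', i1, i2, hN', φ, hφ⟩ := complex_of_germs' (J := IN.prod IX)
    (fun x => pieceGm univ
      (fun p : ((α → ℝ) × (β → ℂ) × (Fin k → ℝ)) × X => ((πN p.1, p.2) : N × X))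
      (fun p => E (devG ψ p)) x) (by
      intro x
      obtain ⟨p, rfl⟩ := hsurj x
      exact hP.exists_germ (p := p) (mem_univ p)) (by
      intro x g hg
      exact hP.germ hg) (by
      intro x g hg g' hg'
      refine hP.rel hP ?_ hg hg'
      intro p _ p' _ hpp
      obtain ⟨h, T, h1, h2, h3, h4, h5⟩ := devG_deck ψ E A τ f e c hA hf hc hψe πN hN p p' hpp
      exact ⟨h, T, h1.continuousAt, h2, Filter.Eventually.of_forall h3, h4.contDiffAt,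
        Filter.Eventually.of_forall h5⟩)
  refine ⟨N', i1, i2, hN', φ, ?_⟩
  intro p
  obtain ⟨g, hg⟩ := hP.exists_germ_at (mem_univ p)
  obtain ⟨σ, hσ1, hσ2⟩ := hφ _ g ⟨p, mem_univ p, rfl, hg⟩
  refine ⟨fun w => σ (E w), ?_, ?_⟩
  · have h1 : g (πN p.1, p.2) = E (devG ψ p) := hg.self_of_nhds
    rw [h1] at hσ1
    have h2 : ContMDiffAt 𝓘(ℂ, (α → ℂ) × (β → ℂ) × (ν → ℂ))
        𝓘(ℂ, EuclideanSpace ℂ (Fin D)) ∞ E (devG ψ p) := E.contDiff.contMDiff.contMDiffAt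
    exact ContMDiffAt.comp (g := σ) (f := E) (devG ψ p) hσ1 h2
  · have h3 : ContinuousAt (fun p : ((α → ℝ) × (β → ℂ) × (Fin k → ℝ)) × X =>
        ((πN p.1, p.2) : N × X)) p := (hP.loc p (mem_univ p)).contMDiffAt.continuousAt
    filter_upwards [hg, h3.eventually hσ2] with q k1 k2
    rw [k2, k1]

end ProdH

end Pool.Agent.WallC
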