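import Pool.Agent.Lib.MP_1d980c_gt.Wall.NewP

/-! The coordinates of the new piece and the coordinates along a tube. -/

set_option autoImplicit false
open Topology Set Module
open scoped ContDiff Manifold
open Metric (sphere)

namespace Pool.Agent.WallC

section RelB

variable {W : Type} [NormedAddCommGroup W] [InnerProductSpace ℂ W] [FiniteDimensional ℂ W]
    {m D : ℕ}

/-- The point `(2πit - γb, exp(bΛ) u)` of the flat bundle over the elliptic curve
`ℂ/(2πiℤ + γℤ)`. -/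
noncomputable def tubeZ (γ : ℂ) (Λ : W →L[ℂ] W) (t b : ℝ) (u : W) : ℂ × W :=
  (2 * Real.pi * Complex.I * t - γ * b, ex Λ b u)

/-- A local choice of the argument. -/
noncomputable def bfun (b₀ : ℝ) (y₀ y : ℂ) : ℝ := b₀ + (Complex.log (y / y₀)).im / (2 * Real.pi)

lemma bfun_self (b₀ : ℝ) {y₀ : ℂ} (h : y₀ ≠ 0) : bfun b₀ y₀ y₀ = b₀ := by
  simp [bfun, div_self h]

lemma bfun_continuousAt (b₀ : ℝ) {y₀ : ℂ} (h : y₀ ≠ 0) : ContinuousAt (bfun b₀ y₀) y₀ := by
  have h1 : ContinuousAt (fun y : ℂ => Complex.log (y / y₀)) y₀ := by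
    refine ContinuousAt.clog (continuousAt_id.div_const y₀) ?_
    rw [div_self h]
    exact Complex.one_mem_slitPlane
  exact continuousAt_const.add ((Complex.continuous_im.continuousAt.comp h1).div_const _)

lemma bfun_spec {b₀ : ℝ} {y₀ : ℂ} (h : y₀ ≠ 0)
    (hb : y₀ = ‖y₀‖ * Complex.exp (2 * Real.pi * Complex.I * b₀)) (y : ℂ) :
    y = ‖y‖ * Complex.exp (2 * Real.pi * Complex.I * bfun b₀ y₀ y) := by
  have hπ : (Real.pi : ℂ) ≠ 0 := by exact_mod_cast Real.pi_ne_zero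
  have h1 : 2 * Real.pi * Complex.I * (bfun b₀ y₀ y : ℂ) =
      2 * Real.pi * Complex.I * b₀ + ((y / y₀).arg : ℂ) * Complex.I := by
    rw [bfun, Complex.log_im]
    push_cast
    field_simp
  have hn : (‖y₀‖ : ℂ) ≠ 0 := by
    exact_mod_cast (norm_ne_zero_iff.2 h)
  have h2 : (‖y / y₀‖ : ℂ) * Complex.exp (((y / y₀).arg : ℂ) * Complex.I) = y / y₀ :=
    Complex.norm_mul_exp_arg_mul_I _
  rw [norm_div, Complex.ofReal_div] at h2
  rw [h1, Complex.exp_add]
  have h3 : (‖y‖ : ℂ) * (Complex.exp (2 * Real.pi * Complex.I * b₀) *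
      Complex.exp (((y / y₀).arg : ℂ) * Complex.I)) =
      (‖y₀‖ * Complex.exp (2 * Real.pi * Complex.I * b₀)) *
        ((‖y‖ / ‖y₀‖ : ℂ) * Complex.exp (((y / y₀).arg : ℂ) * Complex.I)) := by
    field_simp
  rw [h3, h2, ← hb]
  field_simp

variable (γ : ℂ) (Λ : W →L[ℂ] W) (ι : EuclideanSpace ℝ (Fin (m + 1)) ≃L[ℝ] W)
    (L : (ℂ × W) ≃L[ℂ] EuclideanSpace ℂ (Fin D))

/-- The transition from the new piece to the tube. -/
theorem exists_trans (hγ : γ ≠ 0) (t₀ : ℝ) (y₀ : ℂ) (σ₀ : sphere (0 : EuclideanSpace ℝ (Fin (m + 1))) 1)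
    (b₀ : ℝ) (hy : 1 / 2 < ‖y₀‖)
    (hb : y₀ = ‖y₀‖ * Complex.exp (2 * Real.pi * Complex.I * b₀)) :
    ∃ T : EuclideanSpace ℂ (Fin D) → ℂ × W,
      ContDiffAt ℂ ∞ T (newPhi γ Λ ι L ((t₀, y₀), σ₀)) ∧
      ∀ᶠ q in 𝓝 (((t₀, y₀), σ₀) : (ℝ × ℂ) × sphere (0 : EuclideanSpace ℝ (Fin (m + 1))) 1),
        tubeZ γ Λ q.1.1 (bfun b₀ y₀ q.1.2) ((‖q.1.2‖ : ℂ) • ι q.2.1) =
          T (newPhi γ Λ ι L q) := by
  have : CompleteSpace W := FiniteDimensional.complete ℂ W
  have hy0 : y₀ ≠ 0 := by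
    rintro rfl
    simp at hy
    linarith
  have hπ : (Real.pi : ℂ) ≠ 0 := by exact_mod_cast Real.pi_ne_zero
  set c : ℂ := 4 * Real.pi ^ 2 / γ with hc
  set l₀ : ℂ := c * t₀ + 2 * Real.pi * Complex.I * b₀ with hl₀
  -- the first coordinate of a point of the new piece
  have hx : ∀ (t : ℝ) (y : ℂ) (b : ℝ), 1 / 2 ≤ ‖y‖ →
      y = ‖y‖ * Complex.exp (2 * Real.pi * Complex.I * b) →
      Complex.exp (c * t) * (y / kap y) = Complex.exp (c * t + 2 * Real.pi * Complex.I * b) := by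
    intro t y b h1 h2
    have h3 : (‖y‖ : ℂ) ≠ 0 := by
      have : (0 : ℝ) < ‖y‖ := by linarith
      exact_mod_cast this.ne'
    rw [kap_eq h1, Complex.exp_add]
    congr 1
    rw [div_eq_iff h3, mul_comm]
    exact h2
  refine ⟨fun p => (Complex.I * γ / (2 * Real.pi) *
      (l₀ + Complex.log ((L.symm p).1 / Complex.exp l₀)),
      ex Λ (-(Complex.I / (2 * Real.pi)) * (l₀ + Complex.log ((L.symm p).1 / Complex.exp l₀)))
        (L.symm p).2), ?_, ?_⟩
  · have h1 : ContDiffAt ℂ ∞ (fun p : EuclideanSpace ℂ (Fin D) => (L.symm p).1)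
        (newPhi γ Λ ι L ((t₀, y₀), σ₀)) :=
      (contDiff_fst.comp L.symm.contDiff).contDiffAt
    have h2 : ContDiffAt ℂ ∞ (fun p : EuclideanSpace ℂ (Fin D) => (L.symm p).2)
        (newPhi γ Λ ι L ((t₀, y₀), σ₀)) :=
      (contDiff_snd.comp L.symm.contDiff).contDiffAt
    have h3 : ContDiffAt ℂ ∞ (fun p : EuclideanSpace ℂ (Fin D) =>
        Complex.log ((L.symm p).1 / Complex.exp l₀)) (newPhi γ Λ ι L ((t₀, y₀), σ₀)) := by
      refine ContDiffAt.comp (g := Complex.log) _ (Complex.contDiffAt_log ?_) (h1.div_const _)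
      have h4 : (L.symm (newPhi γ Λ ι L ((t₀, y₀), σ₀))).1 = Complex.exp l₀ := by
        rw [newPhi, L.symm_apply_apply]
        exact hx t₀ y₀ b₀ hy.le hb
      rw [h4, div_self (Complex.exp_ne_zero _)]
      exact Complex.one_mem_slitPlane
    have h5 : ContDiffAt ℂ ∞ (fun p : EuclideanSpace ℂ (Fin D) =>
        l₀ + Complex.log ((L.symm p).1 / Complex.exp l₀)) (newPhi γ Λ ι L ((t₀, y₀), σ₀)) :=
      contDiffAt_const.add h3
    have h6 : ContDiffAt ℂ ∞ (fun p : EuclideanSpace ℂ (Fin D) =>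
        ex Λ (-(Complex.I / (2 * Real.pi)) *
          (l₀ + Complex.log ((L.symm p).1 / Complex.exp l₀))) (L.symm p).2)
        (newPhi γ Λ ι L ((t₀, y₀), σ₀)) :=
      ContDiffAt.comp (g := fun q : ℂ × W => ex Λ q.1 q.2) _ (exA_contDiff Λ).contDiffAt
        ((contDiffAt_const.mul h5).prodMk h2)
    exact (contDiffAt_const.mul h5).prodMk h6
  · have g1 : ContinuousAt (fun q : (ℝ × ℂ) × sphere (0 : EuclideanSpace ℝ (Fin (m + 1))) 1 =>
        bfun b₀ y₀ q.1.2) ((t₀, y₀), σ₀) :=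
      ContinuousAt.comp (g := bfun b₀ y₀) (bfun_continuousAt b₀ hy0)
        (continuous_snd.comp continuous_fst).continuousAt
    have g2 : ContinuousAt (fun q : (ℝ × ℂ) × sphere (0 : EuclideanSpace ℝ (Fin (m + 1))) 1 =>
        (c * ((q.1.1 : ℂ) - t₀) + 2 * Real.pi * Complex.I * ((bfun b₀ y₀ q.1.2 : ℂ) - b₀)).im)
        ((t₀, y₀), σ₀) := by
      refine Complex.continuous_im.continuousAt.comp ?_
      refine ContinuousAt.add (continuousAt_const.mul (ContinuousAt.sub ?_ continuousAt_const))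
        (continuousAt_const.mul (ContinuousAt.sub ?_ continuousAt_const))
      · exact (Complex.continuous_ofReal.comp (continuous_fst.comp continuous_fst)).continuousAt
      · exact Complex.continuous_ofReal.continuousAt.comp g1
    have g3 : (c * (((t₀ : ℝ) : ℂ) - t₀) +
        2 * Real.pi * Complex.I * ((bfun b₀ y₀ y₀ : ℂ) - b₀)).im = 0 := by
      rw [bfun_self b₀ hy0]
      simp
    have g4 : ∀ᶠ q in 𝓝 (((t₀, y₀), σ₀) :
        (ℝ × ℂ) × sphere (0 : EuclideanSpace ℝ (Fin (m + 1))) 1),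
        (c * ((q.1.1 : ℂ) - t₀) + 2 * Real.pi * Complex.I * ((bfun b₀ y₀ q.1.2 : ℂ) - b₀)).im ∈
          Ioo (-Real.pi) Real.pi := by
      refine g2.eventually_mem (Ioo_mem_nhds ?_ ?_)
      · rw [g3]
        linarith [Real.pi_pos]
      · rw [g3]
        exact Real.pi_pos
    have g5 : ∀ᶠ q in 𝓝 (((t₀, y₀), σ₀) :
        (ℝ × ℂ) × sphere (0 : EuclideanSpace ℝ (Fin (m + 1))) 1), 1 / 2 < ‖q.1.2‖ := by
      have h1 : ContinuousAt (fun q : (ℝ × ℂ) × sphere (0 : EuclideanSpace ℝ (Fin (m + 1))) 1 =>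
          ‖q.1.2‖) ((t₀, y₀), σ₀) :=
        (continuous_norm.comp (continuous_snd.comp continuous_fst)).continuousAt
      exact h1.eventually (lt_mem_nhds hy)
    filter_upwards [g4, g5] with q h4 h5
    obtain ⟨⟨t, y⟩, σ⟩ := q
    simp only at h4 h5 ⊢
    set b := bfun b₀ y₀ y with hbdef
    have h6 : y = ‖y‖ * Complex.exp (2 * Real.pi * Complex.I * b) := bfun_spec hy0 hb y
    have h7 : L.symm (newPhi γ Λ ι L ((t, y), σ)) =
        (Complex.exp (c * t + 2 * Real.pi * Complex.I * b),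
          (‖y‖ : ℂ) • ex Λ (2 * Real.pi * Complex.I / γ * t) (ι σ.1)) := by
      rw [newPhi, L.symm_apply_apply, newG]
      refine Prod.ext (hx t y b h5.le h6) ?_
      simp only
      rw [kap_eq h5.le]
    rw [h7]
    simp only
    have h8 : Complex.log (Complex.exp (c * t + 2 * Real.pi * Complex.I * b) / Complex.exp l₀) =
        c * t + 2 * Real.pi * Complex.I * b - l₀ := by
      rw [← Complex.exp_sub]
      have h9 : c * t + 2 * Real.pi * Complex.I * b - l₀ =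
          c * ((t : ℂ) - t₀) + 2 * Real.pi * Complex.I * ((b : ℂ) - b₀) := by
        rw [hl₀]
        ring
      rw [h9]
      exact Complex.log_exp h4.1 h4.2.le
    rw [h8, add_sub_cancel, tubeZ]
    have h10 : Complex.I * γ / (2 * Real.pi) * (c * t + 2 * Real.pi * Complex.I * b) =
        2 * Real.pi * Complex.I * t - γ * b := by
      rw [hc]
      field_simp
      ring_nf
      simp only [Complex.I_sq]
      ring
    have h11 : -(Complex.I / (2 * Real.pi)) * (c * t + 2 * Real.pi * Complex.I * b) =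
        (b : ℂ) + -(2 * Real.pi * Complex.I / γ * t) := by
      rw [hc]
      field_simp
      ring_nf
      simp only [Complex.I_sq]
      ring
    rw [h10, h11, map_smul, ex_add_apply, map_smul, map_smul, ex_neg_apply]

end RelB

end Pool.Agent.WallC
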