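import Pool.Agent.Lib.MP_1d980c_gt.Wall.Sphere
import Pool.Agent.Lib.MP_1d980c_gt.Wall.Exp

/-! The developing map of `S^d × ℝ` given by a contracting linear flow. -/

set_option autoImplicit false
set_option linter.deprecated false
open Topology Set Module
open scoped ContDiff Manifold RealInnerProductSpace
open Metric (sphere)

namespace Pool.Agent.WallC

section Flow

variable {V : Type} [NormedAddCommGroup V] [NormedSpace ℝ V] [CompleteSpace V]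

/-- The real linear flow. -/
noncomputable def rex (G : V →L[ℝ] V) (t : ℝ) : V →L[ℝ] V := NormedSpace.exp (t • G)

variable (G : V →L[ℝ] V)

lemma rex_add (t s : ℝ) : rex G (t + s) = rex G t * rex G s := by
  rw [rex, add_smul]
  let _ : NormedAlgebra ℚ (V →L[ℝ] V) := NormedAlgebra.restrictScalars ℚ ℝ _
  exact NormedSpace.exp_add_of_commute
    (((Commute.refl G).smul_left t).smul_right s)

omit [CompleteSpace V] in
lemma rex_zero : rex G 0 = 1 := by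
  rw [rex, zero_smul, NormedSpace.exp_zero]

lemma rex_add_apply (t s : ℝ) (u : V) : rex G (t + s) u = rex G t (rex G s u) := by
  rw [rex_add]
  rfl

lemma rex_neg_apply (t : ℝ) (u : V) : rex G (-t) (rex G t u) = u := by
  rw [← rex_add_apply, neg_add_cancel, rex_zero]
  rfl

omit [CompleteSpace V] in
lemma rex_one : rex G 1 = NormedSpace.exp G := by
  rw [rex, one_smul]

lemma rex_contDiff : ContDiff ℝ ∞ (rex G) := by
  have h1 : ContDiff ℝ ∞ fun z : ℝ => z • G := contDiff_id.smul contDiff_const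
  rw [contDiff_iff_contDiffAt]
  intro z
  have h2 : ContDiffAt ℝ ∞ (NormedSpace.exp : (V →L[ℝ] V) → (V →L[ℝ] V)) (z • G) :=
    (NormedSpace.exp_analytic (𝕂 := ℝ) (z • G)).contDiffAt
  exact h2.comp z h1.contDiffAt

lemma rexA_contDiff : ContDiff ℝ ∞ fun p : ℝ × V => rex G p.1 p.2 :=
  ((rex_contDiff G).comp contDiff_fst).clm_apply contDiff_snd

lemma rex_hasDerivAt (z : ℝ) : HasDerivAt (rex G) (rex G z * G) z :=
  hasDerivAt_exp_smul_const G z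

/-- The derivative of `(z, u) ↦ exp (z G) u`. -/
lemma rexA_hasFDerivAt (z : ℝ) (u : V) : HasFDerivAt (fun p : ℝ × V => rex G p.1 p.2)
    ((rex G z).comp (((ContinuousLinearMap.fst ℝ ℝ V).smulRight (G u)) +
      ContinuousLinearMap.snd ℝ ℝ V)) (z, u) := by
  have h1 : HasFDerivAt (fun p : ℝ × V => rex G p.1)
      ((ContinuousLinearMap.fst ℝ ℝ V).smulRight (rex G z * G)) (z, u) := by
    have h2 := (rex_hasDerivAt G z).hasFDerivAt.comp (z, u)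
      (hasFDerivAt_fst (𝕜 := ℝ) (E := ℝ) (F := V) (p := (z, u)))
    refine h2.congr_fderiv ?_
    ext w <;> simp
  have h3 := h1.clm_apply (hasFDerivAt_snd (𝕜 := ℝ) (E := ℝ) (F := V) (p := (z, u)))
  refine h3.congr_fderiv ?_
  ext w <;> simp

end Flow

section SphX

variable {F : Type} [NormedAddCommGroup F] [NormedSpace ℝ F] {d : ℕ}
    (G : EuclideanSpace ℝ (Fin (d + 1)) →L[ℝ] EuclideanSpace ℝ (Fin (d + 1)))
    (ι : EuclideanSpace ℝ (Fin (d + 1)) ≃L[ℝ] F)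

/-- The developing map `(x, s) ↦ ι (exp(s G) x)` of `S^d × ℝ`. -/
noncomputable def sphPsi (y : sphere (0 : EuclideanSpace ℝ (Fin (d + 1))) 1 × (Fin 1 → ℝ)) : F :=
  ι (rex G (y.2 0) y.1.1)

lemma sphPsi_contMDiff : ContMDiff ((𝓡 d).prod 𝓘(ℝ, Fin 1 → ℝ)) 𝓘(ℝ, F) ∞ (sphPsi G ι) := by
  have : Fact (finrank ℝ (EuclideanSpace ℝ (Fin (d + 1))) = d + 1) :=
    ⟨finrank_euclideanSpace_fin⟩
  have h1 : ContMDiff ((𝓡 d).prod 𝓘(ℝ, Fin 1 → ℝ)) 𝓘(ℝ, ℝ) ∞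
      (fun y : sphere (0 : EuclideanSpace ℝ (Fin (d + 1))) 1 × (Fin 1 → ℝ) => y.2 0) :=
    (contDiff_apply ℝ ℝ (0 : Fin 1)).contMDiff.comp contMDiff_snd
  have h2 : ContMDiff ((𝓡 d).prod 𝓘(ℝ, Fin 1 → ℝ)) 𝓘(ℝ, EuclideanSpace ℝ (Fin (d + 1))) ∞
      (fun y : sphere (0 : EuclideanSpace ℝ (Fin (d + 1))) 1 × (Fin 1 → ℝ) => y.1.1) :=
    (contMDiff_coe_sphere (n := d)).comp contMDiff_fst
  have h3 : ContDiff ℝ ∞ fun p : ℝ × EuclideanSpace ℝ (Fin (d + 1)) => ι (rex G p.1 p.2) :=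
    ι.contDiff.comp (rexA_contDiff G)
  exact h3.contMDiff.comp (h1.prodMk_space h2)

lemma sphPsi_bij (hG : ∀ x : EuclideanSpace ℝ (Fin (d + 1)), x ≠ 0 → ⟪x, G x⟫ < 0)
    (y : sphere (0 : EuclideanSpace ℝ (Fin (d + 1))) 1 × (Fin 1 → ℝ)) :
    Function.Bijective (mfderiv ((𝓡 d).prod 𝓘(ℝ, Fin 1 → ℝ)) 𝓘(ℝ, F) (sphPsi G ι) y) := by
  obtain ⟨σ, s⟩ := y
  obtain ⟨D, hD1, hD2, hD3⟩ := exists_deriv_sphere σ
  have h1 : HasMFDerivAt ((𝓡 d).prod 𝓘(ℝ, Fin 1 → ℝ)) 𝓘(ℝ, EuclideanSpace ℝ (Fin (d + 1)))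
      (fun y : sphere (0 : EuclideanSpace ℝ (Fin (d + 1))) 1 × (Fin 1 → ℝ) => y.1.1) (σ, s)
      (D.comp (ContinuousLinearMap.fst ℝ (EuclideanSpace ℝ (Fin d)) (Fin 1 → ℝ))) :=
    hD1.comp (σ, s) (hasMFDerivAt_fst (I := 𝓡 d) (I' := 𝓘(ℝ, Fin 1 → ℝ)) (σ, s))
  have h2 : HasMFDerivAt ((𝓡 d).prod 𝓘(ℝ, Fin 1 → ℝ)) 𝓘(ℝ, ℝ)
      (fun y : sphere (0 : EuclideanSpace ℝ (Fin (d + 1))) 1 × (Fin 1 → ℝ) => y.2 0) (σ, s)
      ((ContinuousLinearMap.proj (R := ℝ) (φ := fun _ : Fin 1 => ℝ) 0).comp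
        (ContinuousLinearMap.snd ℝ (EuclideanSpace ℝ (Fin d)) (Fin 1 → ℝ))) :=
    (ContinuousLinearMap.proj (R := ℝ) (φ := fun _ : Fin 1 => ℝ) 0).hasMFDerivAt.comp (σ, s)
      (hasMFDerivAt_snd (I := 𝓡 d) (I' := 𝓘(ℝ, Fin 1 → ℝ)) (σ, s))
  have h3 : HasMFDerivAt ((𝓡 d).prod 𝓘(ℝ, Fin 1 → ℝ)) 𝓘(ℝ, ℝ × EuclideanSpace ℝ (Fin (d + 1)))
      (fun y : sphere (0 : EuclideanSpace ℝ (Fin (d + 1))) 1 × (Fin 1 → ℝ) => (y.2 0, y.1.1))
      (σ, s) (((ContinuousLinearMap.proj (R := ℝ) (φ := fun _ : Fin 1 => ℝ) 0).comp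
        (ContinuousLinearMap.snd ℝ (EuclideanSpace ℝ (Fin d)) (Fin 1 → ℝ))).prod
        (D.comp (ContinuousLinearMap.fst ℝ (EuclideanSpace ℝ (Fin d)) (Fin 1 → ℝ)))) := by
    rw [modelWithCornersSelf_prod, ← chartedSpaceSelf_prod]
    exact h2.prodMk h1
  have h4 : HasFDerivAt (fun p : ℝ × EuclideanSpace ℝ (Fin (d + 1)) => ι (rex G p.1 p.2))
      ((ι : EuclideanSpace ℝ (Fin (d + 1)) →L[ℝ] F).comp ((rex G (s 0)).comp
      (((ContinuousLinearMap.fst ℝ ℝ _).smulRight (G σ.1)) +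
      ContinuousLinearMap.snd ℝ ℝ _))) (s 0, σ.1) :=
    ι.hasFDerivAt.comp (s 0, σ.1) (rexA_hasFDerivAt G (s 0) σ.1)
  have h5 : HasMFDerivAt ((𝓡 d).prod 𝓘(ℝ, Fin 1 → ℝ)) 𝓘(ℝ, F) (sphPsi G ι) (σ, s) _ :=
    HasMFDerivAt.comp (g := fun p : ℝ × EuclideanSpace ℝ (Fin (d + 1)) => ι (rex G p.1 p.2))
      (σ, s) h4.hasMFDerivAt h3
  rw [h5.mfderiv]
  have hinv := rex_neg_apply G (s 0)
  have hσ : ‖(σ.1 : EuclideanSpace ℝ (Fin (d + 1)))‖ = 1 := by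
    have := σ.2
    rwa [mem_sphere_zero_iff_norm] at this
  set R : EuclideanSpace ℝ (Fin d) × (Fin 1 → ℝ) →ₗ[ℝ] EuclideanSpace ℝ (Fin (d + 1)) :=
    { toFun := fun w => w.2 0 • G σ.1 + D w.1
      map_add' := fun w w' => by simp [add_smul]; abel
      map_smul' := fun r w => by simp [smul_smul] } with hR
  have hRinj : Function.Injective R := by
    rw [injective_iff_map_eq_zero]
    rintro ⟨ξ, ds⟩ h
    have e1 : ds 0 • G σ.1 + D ξ = 0 := h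
    have e2 : ds 0 * ⟪σ.1, G σ.1⟫ = 0 := by
      have e3 := congrArg (fun w => ⟪σ.1, w⟫) e1
      simp only [inner_add_right, inner_smul_right, inner_zero_right, hD3, add_zero] at e3
      exact e3
    have e4 : ⟪σ.1, G σ.1⟫ < 0 := hG _ (by
      rw [← norm_ne_zero_iff, hσ]
      exact one_ne_zero)
    have e5 : ds 0 = 0 := (mul_eq_zero.1 e2).resolve_right e4.ne
    rw [e5, zero_smul, zero_add] at e1
    have e6 : ξ = 0 := hD2 (e1.trans (map_zero D).symm)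
    have e7 : ds = 0 := by
      funext i
      rw [Subsingleton.elim i 0]
      exact e5
    rw [e6, e7]
    rfl
  have hRbij : Function.Bijective R := by
    refine ⟨hRinj, (LinearMap.injective_iff_surjective_of_finrank_eq_finrank ?_).1 hRinj⟩
    rw [finrank_prod, finrank_euclideanSpace_fin, finrank_euclideanSpace_fin,
      finrank_fin_fun]
  have hrex : Function.Bijective (rex G (s 0)) := by
    refine ⟨Function.LeftInverse.injective hinv, ?_⟩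
    intro w
    refine ⟨rex G (-(s 0)) w, ?_⟩
    have h := rex_neg_apply G (-(s 0)) w
    rwa [neg_neg] at h
  have hfin : Function.Bijective (fun w : EuclideanSpace ℝ (Fin d) × (Fin 1 → ℝ) =>
      ι (rex G (s 0) (R w))) := ι.bijective.comp (hrex.comp hRbij)
  exact hfin

lemma sphPsi_step (y : sphere (0 : EuclideanSpace ℝ (Fin (d + 1))) 1) (s : Fin 1 → ℝ) (j : Fin 1) :
    sphPsi G ι (y, s + Pi.single j 1) = ι (NormedSpace.exp G (ι.symm (sphPsi G ι (y, s)))) := by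
  obtain rfl : j = 0 := Subsingleton.elim _ _
  rw [← rex_one]
  simp only [sphPsi, Pi.add_apply, Pi.single_eq_same, ContinuousLinearEquiv.symm_apply_apply]
  rw [add_comm (s 0) 1, rex_add_apply]

lemma sphPsi_equiv (y : sphere (0 : EuclideanSpace ℝ (Fin (d + 1))) 1) (s e : Fin 1 → ℝ)
    (T : F → F) (hT : ∀ x, ι (NormedSpace.exp (e 0 • G) x) = T (ι x)) :
    sphPsi G ι (y, s + e) = T (sphPsi G ι (y, s)) := by
  simp only [sphPsi, Pi.add_apply]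
  rw [add_comm (s 0) (e 0), rex_add_apply, ← hT]
  rfl

end SphX

end Pool.Agent.WallC
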