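import Pool.Agent.Lib.MP_1d980c_gt.Wall.SphX

/-! The developing map of a manifold which is étale over a product of spheres. -/

set_option autoImplicit false
set_option linter.deprecated false
open Topology Set Module
open scoped ContDiff Manifold RealInnerProductSpace
open Metric (sphere)

namespace Pool.Agent.WallC

section SphY

variable {k : ℕ} {d : Fin k → ℕ} {F : Type} [NormedAddCommGroup F] [NormedSpace ℝ F]
    (G : ∀ j, EuclideanSpace ℝ (Fin (d j + 1)) →L[ℝ] EuclideanSpace ℝ (Fin (d j + 1)))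
    (κ : (∀ j, EuclideanSpace ℝ (Fin (d j + 1))) ≃L[ℝ] F)
    {EX HX X : Type} [NormedAddCommGroup EX] [NormedSpace ℝ EX] [TopologicalSpace HX]
    {IX : ModelWithCorners ℝ EX HX} [TopologicalSpace X] [ChartedSpace HX X]
    (h : ∀ j, X → sphere (0 : EuclideanSpace ℝ (Fin (d j + 1))) 1)

/-- The developing map. -/
noncomputable def flowPsi (y : X × (Fin k → ℝ)) : F :=
  κ fun j => rex (G j) (y.2 j) (h j y.1).1

/-- The `j`-th component. -/
noncomputable def evJ (j : Fin k) : (Fin k → ℝ) →L[ℝ] (Fin 1 → ℝ) :=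
  ContinuousLinearMap.pi fun _ => ContinuousLinearMap.proj j

lemma comp_contMDiff (hh : ∀ j, ContMDiff IX (𝓡 (d j)) ∞ (h j)) (j : Fin k) :
    ContMDiff (IX.prod 𝓘(ℝ, Fin k → ℝ)) ((𝓡 (d j)).prod 𝓘(ℝ, Fin 1 → ℝ)) ∞
      (fun y : X × (Fin k → ℝ) => (h j y.1, evJ j y.2)) :=
  ((hh j).comp contMDiff_fst).prodMk ((evJ j).contDiff.contMDiff.comp contMDiff_snd)

lemma flowPi_contMDiff (hh : ∀ j, ContMDiff IX (𝓡 (d j)) ∞ (h j)) :
    ContMDiff (IX.prod 𝓘(ℝ, Fin k → ℝ)) 𝓘(ℝ, ∀ j, EuclideanSpace ℝ (Fin (d j + 1))) ∞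
      (fun y : X × (Fin k → ℝ) => fun j => rex (G j) (y.2 j) (h j y.1).1) := by
  refine contMDiff_pi_space.2 fun j => ?_
  exact (sphPsi_contMDiff (G j) (ContinuousLinearEquiv.refl ℝ _)).comp (comp_contMDiff h hh j)

lemma flowPsi_contMDiff (hh : ∀ j, ContMDiff IX (𝓡 (d j)) ∞ (h j)) :
    ContMDiff (IX.prod 𝓘(ℝ, Fin k → ℝ)) 𝓘(ℝ, F) ∞ (flowPsi G κ h) :=
  κ.contDiff.contMDiff.comp (flowPi_contMDiff G h hh)

lemma flowPsi_bij (hG : ∀ j, ∀ x : EuclideanSpace ℝ (Fin (d j + 1)), x ≠ 0 → ⟪x, G j x⟫ < 0)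
    (hh : ∀ j, ContMDiff IX (𝓡 (d j)) ∞ (h j))
    (hb : ∀ x, Function.Bijective fun (v : TangentSpace IX x) (j : Fin k) =>
      mfderiv IX (𝓡 (d j)) (h j) x v) (y : X × (Fin k → ℝ)) :
    Function.Bijective (mfderiv (IX.prod 𝓘(ℝ, Fin k → ℝ)) 𝓘(ℝ, F) (flowPsi G κ h) y) := by
  obtain ⟨x, s⟩ := y
  -- the derivative of the product map
  obtain ⟨D, hD⟩ : ∃ D : EX × (Fin k → ℝ) →L[ℝ] ∀ j, EuclideanSpace ℝ (Fin (d j + 1)),
      HasMFDerivAt (IX.prod 𝓘(ℝ, Fin k → ℝ)) 𝓘(ℝ, ∀ j, EuclideanSpace ℝ (Fin (d j + 1)))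
        (fun y : X × (Fin k → ℝ) => fun j => rex (G j) (y.2 j) (h j y.1).1) (x, s) D :=
    ⟨_, ((flowPi_contMDiff G h hh (x, s)).mdifferentiableAt (by simp)).hasMFDerivAt⟩
  -- the derivatives of the factors
  have hex : ∀ j, ∃ P : EuclideanSpace ℝ (Fin (d j)) × (Fin 1 → ℝ) →L[ℝ]
      EuclideanSpace ℝ (Fin (d j + 1)), Function.Bijective P ∧
      HasMFDerivAt ((𝓡 (d j)).prod 𝓘(ℝ, Fin 1 → ℝ)) 𝓘(ℝ, EuclideanSpace ℝ (Fin (d j + 1)))
        (sphPsi (G j) (ContinuousLinearEquiv.refl ℝ _)) (h j x, evJ j s) P := by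
    intro j
    have h1 := sphPsi_bij (G j) (ContinuousLinearEquiv.refl ℝ _) (hG j) (h j x, evJ j s)
    have h2 := ((sphPsi_contMDiff (G j) (ContinuousLinearEquiv.refl ℝ _)
      (h j x, evJ j s)).mdifferentiableAt (by simp)).hasMFDerivAt
    exact ⟨_, h1, h2⟩
  choose P hP1 hP2 using hex
  have hex2 : ∀ j, ∃ H : EX →L[ℝ] EuclideanSpace ℝ (Fin (d j)),
      H = mfderiv IX (𝓡 (d j)) (h j) x ∧ HasMFDerivAt IX (𝓡 (d j)) (h j) x H := fun j =>
    ⟨_, rfl, ((hh j x).mdifferentiableAt (by simp)).hasMFDerivAt⟩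
  choose H hH1 hH2 using hex2
  have hHb : Function.Bijective fun (v : EX) (j : Fin k) => H j v := by
    have h1 := hb x
    simp only [← hH1] at h1
    exact h1
  have hcomp : ∀ j, ∀ w : EX × (Fin k → ℝ), D w j = P j (H j w.1, evJ j w.2) := by
    intro j
    have h1 : HasMFDerivAt (IX.prod 𝓘(ℝ, Fin k → ℝ)) 𝓘(ℝ, EuclideanSpace ℝ (Fin (d j + 1)))
        (fun y : X × (Fin k → ℝ) => rex (G j) (y.2 j) (h j y.1).1) (x, s)
        ((ContinuousLinearMap.proj (R := ℝ)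
          (φ := fun j => EuclideanSpace ℝ (Fin (d j + 1))) j).comp D) :=
      HasMFDerivAt.comp (g := ContinuousLinearMap.proj (R := ℝ)
        (φ := fun j => EuclideanSpace ℝ (Fin (d j + 1))) j) (x, s)
        (ContinuousLinearMap.proj (R := ℝ)
          (φ := fun j => EuclideanSpace ℝ (Fin (d j + 1))) j).hasMFDerivAt hD
    have h2 : HasMFDerivAt (IX.prod 𝓘(ℝ, Fin k → ℝ)) (𝓡 (d j))
        (fun y : X × (Fin k → ℝ) => h j y.1) (x, s)
        ((H j).comp (ContinuousLinearMap.fst ℝ EX (Fin k → ℝ))) :=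
      HasMFDerivAt.comp (g := h j) (x, s) (hH2 j)
        (hasMFDerivAt_fst (I := IX) (I' := 𝓘(ℝ, Fin k → ℝ)) (x, s))
    have h3 : HasMFDerivAt (IX.prod 𝓘(ℝ, Fin k → ℝ)) 𝓘(ℝ, Fin 1 → ℝ)
        (fun y : X × (Fin k → ℝ) => evJ j y.2) (x, s)
        ((evJ j).comp (ContinuousLinearMap.snd ℝ EX (Fin k → ℝ))) :=
      HasMFDerivAt.comp (g := evJ j) (x, s) (evJ j).hasMFDerivAt
        (hasMFDerivAt_snd (I := IX) (I' := 𝓘(ℝ, Fin k → ℝ)) (x, s))
    have h4 : HasMFDerivAt (IX.prod 𝓘(ℝ, Fin k → ℝ)) 𝓘(ℝ, EuclideanSpace ℝ (Fin (d j + 1)))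
        (fun y : X × (Fin k → ℝ) => rex (G j) (y.2 j) (h j y.1).1) (x, s)
        ((P j).comp (((H j).comp (ContinuousLinearMap.fst ℝ EX (Fin k → ℝ))).prod
          ((evJ j).comp (ContinuousLinearMap.snd ℝ EX (Fin k → ℝ))))) :=
      HasMFDerivAt.comp (g := sphPsi (G j) (ContinuousLinearEquiv.refl ℝ _)) (x, s) (hP2 j)
        (h2.prodMk h3)
    have h5 := h1.mfderiv.symm.trans h4.mfderiv
    intro w
    exact congrArg (fun T : EX × (Fin k → ℝ) →L[ℝ] EuclideanSpace ℝ (Fin (d j + 1)) => T w) h5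
  have h6 : HasMFDerivAt (IX.prod 𝓘(ℝ, Fin k → ℝ)) 𝓘(ℝ, F) (flowPsi G κ h) (x, s)
      ((κ : (∀ j, EuclideanSpace ℝ (Fin (d j + 1))) →L[ℝ] F).comp D) :=
    HasMFDerivAt.comp (g := κ) (x, s)
      (κ : (∀ j, EuclideanSpace ℝ (Fin (d j + 1))) →L[ℝ] F).hasMFDerivAt hD
  rw [h6.mfderiv]
  have hDb : Function.Bijective D := by
    constructor
    · rintro ⟨v, t⟩ ⟨v', t'⟩ hvt
      have h7 : ∀ j, ((H j v, evJ j t) : EuclideanSpace ℝ (Fin (d j)) × (Fin 1 → ℝ)) =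
          (H j v', evJ j t') := by
        intro j
        apply (hP1 j).1
        rw [← hcomp j (v, t), ← hcomp j (v', t'), hvt]
      have h8 : v = v' := hHb.1 (funext fun j => congrArg Prod.fst (h7 j))
      have h9 : t = t' := funext fun j => congrFun (congrArg Prod.snd (h7 j)) 0
      rw [h8, h9]
    · intro w
      choose a ha using fun j => (hP1 j).2 (w j)
      obtain ⟨v, hv⟩ := hHb.2 fun j => (a j).1
      refine ⟨(v, fun j => (a j).2 0), funext fun j => ?_⟩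
      rw [hcomp]
      have h7 : ((H j v, evJ j fun j => (a j).2 0) : EuclideanSpace ℝ (Fin (d j)) × (Fin 1 → ℝ)) =
          a j := by
        refine Prod.ext (congrFun hv j) (funext fun i => ?_)
        rw [Subsingleton.elim i 0]
        rfl
      rw [h7, ha]
  have hfin : Function.Bijective (fun w : EX × (Fin k → ℝ) => κ (D w)) := κ.bijective.comp hDb
  exact hfin

lemma flowPsi_equiv (e : Fin k → ℝ) (T : F → F)
    (hT : ∀ y, κ (fun j => NormedSpace.exp (e j • G j) (y j)) = T (κ y)) (x : X)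
    (s : Fin k → ℝ) : flowPsi G κ h (x, s + e) = T (flowPsi G κ h (x, s)) := by
  simp only [flowPsi, Pi.add_apply]
  rw [← hT]
  congr 1
  funext j
  rw [add_comm (s j) (e j), rex_add_apply]
  rfl

end SphY

end Pool.Agent.WallC
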