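import Pool.Agent.Lib.MP_1d980c_gt.S4.TransB

/-! The relation of germs is symmetric for coordinates. -/

set_option autoImplicit false
open Topology Set
open scoped ContDiff Manifold

namespace Pool.Agent.WallC

open Pool.Agent.S4T2

section Sym

variable {E' H M F : Type} [NormedAddCommGroup E'] [NormedSpace ℝ E'] [TopologicalSpace H]
    {J : ModelWithCorners ℝ E' H} [TopologicalSpace M] [ChartedSpace H M]
    [NormedAddCommGroup F] [NormedSpace ℂ F] [FiniteDimensional ℂ F]

/-- If the germ `g` is a holomorphic function of the germ `f`, and both are real coordinates, then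
`f` is a holomorphic function of `g`. -/
theorem HolRel.symm_of_bij {m : M} {f g : M → F}
    (hf : ContMDiffAt J 𝓘(ℝ, F) ∞ f m) (hfb : Function.Bijective (mfderiv J 𝓘(ℝ, F) f m))
    (hgb : Function.Bijective (mfderiv J 𝓘(ℝ, F) g m)) (h : HolRel m f g) : HolRel m g f := by
  haveI : CompleteSpace F := FiniteDimensional.complete ℂ F
  obtain ⟨T, hT, hg⟩ := h
  have hTd : HasFDerivAt T (fderiv ℂ T (f m)) (f m) :=
    (hT.differentiableAt (by simp)).hasFDerivAt
  obtain ⟨t, ht⟩ : ∃ t : E' →L[ℝ] F, HasMFDerivAt J 𝓘(ℝ, F) f m t :=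
    ⟨_, (hf.mdifferentiableAt (by simp)).hasMFDerivAt⟩
  have h1 : HasMFDerivAt J 𝓘(ℝ, F) (T ∘ f) m
      (((fderiv ℂ T (f m)).restrictScalars ℝ).comp t) :=
    (hTd.restrictScalars ℝ).hasMFDerivAt.comp m ht
  have h2 : HasMFDerivAt J 𝓘(ℝ, F) g m (((fderiv ℂ T (f m)).restrictScalars ℝ).comp t) :=
    h1.congr_of_eventuallyEq hg
  rw [ht.mfderiv] at hfb
  rw [h2.mfderiv] at hgb
  have hb : Function.Bijective (fderiv ℂ T (f m)) := by
    constructor
    · intro x y hxy
      obtain ⟨a, ha⟩ := hfb.2 x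
      obtain ⟨b, hb⟩ := hfb.2 y
      have h3 : (((fderiv ℂ T (f m)).restrictScalars ℝ).comp t) a =
          (((fderiv ℂ T (f m)).restrictScalars ℝ).comp t) b := by
        change fderiv ℂ T (f m) (t a) = fderiv ℂ T (f m) (t b)
        rw [show t a = x from ha, show t b = y from hb]
        exact hxy
      have h4 : a = b := hgb.1 h3
      rw [← show t a = x from ha, ← show t b = y from hb, h4]
    · intro z
      obtain ⟨w, hw⟩ := hgb.2 z
      exact ⟨t w, hw⟩
  let T' : F ≃L[ℂ] F := LinearEquiv.toContinuousLinearEquiv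
    (LinearEquiv.ofBijective (fderiv ℂ T (f m)).toLinearMap hb)
  have hT' : HasFDerivAt T (T' : F →L[ℂ] F) (f m) := by
    have h5 : (T' : F →L[ℂ] F) = fderiv ℂ T (f m) := by
      ext a
      rfl
    rw [h5]
    exact hTd
  have hn : (∞ : WithTop ℕ∞) ≠ 0 := by simp
  refine ⟨hT.localInverse hT' hn, ?_, ?_⟩
  · rw [hg.self_of_nhds]
    exact hT.to_localInverse hT' hn
  · have h6 : ∀ᶠ x in 𝓝 (f m), hT.localInverse hT' hn (T x) = x :=
      (hT.hasStrictFDerivAt' hT' hn).eventually_left_inverse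
    filter_upwards [hg, hf.continuousAt.tendsto.eventually h6] with y hy1 hy2
    rw [hy1]
    exact hy2.symm

end Sym

end Pool.Agent.WallC
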