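import Pool.Agent.Lib.MP_1d980c_gt.Wall.RelB
import Pool.Agent.Lib.MP_1d980c_gt.Wall.Sym
import Pool.Agent.Lib.MP_1d980c_gt.Wall.Cover

/-! Surgery along elliptic curves with flat neighbourhoods. -/

set_option autoImplicit false
set_option linter.deprecated false
open Topology Set Module
open scoped ContDiff Manifold
open Metric (sphere)

namespace Pool.Agent.WallC

open Pool.Agent.S4T2

section Charts

variable {D : ℕ} {Y : Type} [TopologicalSpace Y] [ChartedSpace (EuclideanSpace ℂ (Fin D)) Y]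

/-- A complex manifold is a real manifold. -/
theorem isManifold_realW [IsManifold 𝓘(ℂ, EuclideanSpace ℂ (Fin D)) ∞ Y] :
    IsManifold 𝓘(ℝ, EuclideanSpace ℂ (Fin D)) ∞ Y := by
  refine isManifold_of_contDiffOn _ _ _ fun e e' he he' => ?_
  have h1 : e.symm ≫ₕ e' ∈ contDiffGroupoid ∞ 𝓘(ℂ, EuclideanSpace ℂ (Fin D)) :=
    (contDiffGroupoid ∞ 𝓘(ℂ, EuclideanSpace ℂ (Fin D))).compatible he he'
  rw [contDiffGroupoid, mem_groupoid_of_pregroupoid] at h1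
  have h2 : ContDiffOn ℂ ∞ (e.symm ≫ₕ e') (e.symm ≫ₕ e').source := by
    simpa [contDiffPregroupoid] using h1.1
  have h3 := h2.restrict_scalars ℝ
  simpa using h3

variable [IsManifold 𝓘(ℂ, EuclideanSpace ℂ (Fin D)) ∞ Y]

variable (D) in
/-- The chart at `x` as a map. -/
noncomputable def chm (x : Y) (y : Y) : EuclideanSpace ℂ (Fin D) :=
  chartAt (EuclideanSpace ℂ (Fin D)) x y

lemma chm_holo (x : Y) {y : Y} (hy : y ∈ (chartAt (EuclideanSpace ℂ (Fin D)) x).source) :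
    ContMDiffAt 𝓘(ℂ, EuclideanSpace ℂ (Fin D)) 𝓘(ℂ, EuclideanSpace ℂ (Fin D)) ∞ (chm D x) y :=
  (contMDiffOn_chart (x := x) y hy).contMDiffAt
    ((chartAt (EuclideanSpace ℂ (Fin D)) x).open_source.mem_nhds hy)

lemma chm_smooth (x : Y) {y : Y} (hy : y ∈ (chartAt (EuclideanSpace ℂ (Fin D)) x).source) :
    ContMDiffAt 𝓘(ℝ, EuclideanSpace ℂ (Fin D)) 𝓘(ℝ, EuclideanSpace ℂ (Fin D)) ∞ (chm D x) y := by
  have : IsManifold 𝓘(ℝ, EuclideanSpace ℂ (Fin D)) ∞ Y := isManifold_realW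
  exact (contMDiffOn_chart (x := x) y hy).contMDiffAt
    ((chartAt (EuclideanSpace ℂ (Fin D)) x).open_source.mem_nhds hy)

lemma chm_bij (x : Y) {y : Y} (hy : y ∈ (chartAt (EuclideanSpace ℂ (Fin D)) x).source) :
    Function.Bijective (mfderiv 𝓘(ℝ, EuclideanSpace ℂ (Fin D)) 𝓘(ℝ, EuclideanSpace ℂ (Fin D))
      (chm D x) y) := by
  have : IsManifold 𝓘(ℝ, EuclideanSpace ℂ (Fin D)) ∞ Y := isManifold_realW
  have : IsManifold 𝓘(ℝ, EuclideanSpace ℂ (Fin D)) 1 Y :=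
    IsManifold.of_le (n := ∞) (by exact_mod_cast le_top)
  exact (mdifferentiable_chart (I := 𝓘(ℝ, EuclideanSpace ℂ (Fin D))) x).mfderiv_bijective hy

/-- Two charts are related by a holomorphic map. -/
lemma chm_trans (x x' : Y) {y : Y} (hy : y ∈ (chartAt (EuclideanSpace ℂ (Fin D)) x).source)
    (hy' : y ∈ (chartAt (EuclideanSpace ℂ (Fin D)) x').source) :
    ∃ T : EuclideanSpace ℂ (Fin D) → EuclideanSpace ℂ (Fin D), ContDiffAt ℂ ∞ T (chm D x y) ∧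
      ∀ᶠ z in 𝓝 y, chm D x' z = T (chm D x z) := by
  refine ⟨fun w => chm D x' ((chartAt (EuclideanSpace ℂ (Fin D)) x).symm w), ?_, ?_⟩
  · have h1 : ContMDiffAt 𝓘(ℂ, EuclideanSpace ℂ (Fin D)) 𝓘(ℂ, EuclideanSpace ℂ (Fin D)) ∞
        (chartAt (EuclideanSpace ℂ (Fin D)) x).symm (chm D x y) :=
      (contMDiffOn_chart_symm (x := x) _
        ((chartAt (EuclideanSpace ℂ (Fin D)) x).map_source hy)).contMDiffAt
        ((chartAt (EuclideanSpace ℂ (Fin D)) x).open_target.mem_nhds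
          ((chartAt (EuclideanSpace ℂ (Fin D)) x).map_source hy))
    have h2 : (chartAt (EuclideanSpace ℂ (Fin D)) x).symm (chm D x y) = y :=
      (chartAt (EuclideanSpace ℂ (Fin D)) x).left_inv hy
    have h3 : ContMDiffAt 𝓘(ℂ, EuclideanSpace ℂ (Fin D)) 𝓘(ℂ, EuclideanSpace ℂ (Fin D)) ∞
        (chm D x') ((chartAt (EuclideanSpace ℂ (Fin D)) x).symm (chm D x y)) := by
      rw [h2]
      exact chm_holo x' hy'
    exact (h3.comp _ h1).contDiffAt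
  · filter_upwards [(chartAt (EuclideanSpace ℂ (Fin D)) x).open_source.mem_nhds hy] with z hz
    change chm D x' z = chm D x' ((chartAt (EuclideanSpace ℂ (Fin D)) x).symm
      (chartAt (EuclideanSpace ℂ (Fin D)) x z))
    rw [(chartAt (EuclideanSpace ℂ (Fin D)) x).left_inv hz]

end Charts

section Surg

variable {W : Type} [NormedAddCommGroup W] [InnerProductSpace ℂ W] [FiniteDimensional ℂ W]
    {m D r : ℕ}
    {Y : Type} [TopologicalSpace Y]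
    {E' H M : Type} [NormedAddCommGroup E'] [NormedSpace ℝ E'] [TopologicalSpace H]
    {J : ModelWithCorners ℝ E' H} [TopologicalSpace M] [ChartedSpace H M]

/-- The union of the closed tubes of radius `1/2` is closed. -/
private lemma isClosed_tubes [T2Space Y] (e : Fin r → ℝ → ℝ → W → Y)
    (he : ∀ i, ContinuousOn (fun q : ℝ × ℝ × W => e i q.1 q.2.1 q.2.2) {q | ‖q.2.2‖ < 1})
    (hper : ∀ i t b u i' t' b' u', ‖u‖ < 1 → ‖u'‖ < 1 → (e i t b u = e i' t' b' u' ↔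
      i' = i ∧ (∃ n : ℤ, t' = t + n) ∧ (∃ n : ℤ, b' = b + n) ∧ u' = u)) :
    IsClosed {y : Y | ∃ i t b u, ‖u‖ ≤ 1 / 2 ∧ y = e i t b u} := by
  have : ProperSpace W := FiniteDimensional.proper ℂ W
  have h1 : {y : Y | ∃ i t b u, ‖u‖ ≤ 1 / 2 ∧ y = e i t b u} =
      ⋃ i : Fin r, (fun q : ℝ × ℝ × W => e i q.1 q.2.1 q.2.2) ''
        (Icc 0 1 ×ˢ (Icc 0 1 ×ˢ Metric.closedBall 0 (1 / 2))) := by
    ext y
    simp only [mem_setOf_eq, mem_iUnion, mem_image, Prod.exists]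
    constructor
    · rintro ⟨i, t, b, u, hu, rfl⟩
      have hu1 : ‖u‖ < 1 := by linarith
      refine ⟨i, Int.fract t, Int.fract b, u, ⟨⟨Int.fract_nonneg t, (Int.fract_lt_one t).le⟩,
        ⟨Int.fract_nonneg b, (Int.fract_lt_one b).le⟩, by simpa using hu⟩, ?_⟩
      refine ((hper i (Int.fract t) (Int.fract b) u i t b u hu1 hu1).2
        ⟨rfl, ⟨⌊t⌋, ?_⟩, ⟨⌊b⌋, ?_⟩, rfl⟩)
      · exact (Int.fract_add_floor t).symm
      · exact (Int.fract_add_floor b).symm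
    · rintro ⟨i, t, b, u, ⟨-, -, hu⟩, rfl⟩
      exact ⟨i, t, b, u, by simpa using hu, rfl⟩
  rw [h1]
  refine isClosed_iUnion_of_finite fun i => IsCompact.isClosed ?_
  refine IsCompact.image_of_continuousOn
    (isCompact_Icc.prod (isCompact_Icc.prod (isCompact_closedBall _ _))) ?_
  refine (he i).mono ?_
  rintro ⟨t, b, u⟩ ⟨-, -, hu⟩
  have hu' : ‖u‖ ≤ 1 / 2 := by simpa using hu
  change ‖u‖ < 1
  linarith

omit [FiniteDimensional ℂ W] in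
/-- A real unit vector of the complex space. -/
private lemma exists_sphere_point (ι : EuclideanSpace ℝ (Fin (m + 1)) ≃L[ℝ] W)
    (hι : ∀ x, ‖ι x‖ = ‖x‖) (u : W) (hu : u ≠ 0) :
    ∃ σ : sphere (0 : EuclideanSpace ℝ (Fin (m + 1))) 1, (‖u‖ : ℂ) • ι σ.1 = u := by
  have hn : ‖u‖ ≠ 0 := norm_ne_zero_iff.2 hu
  have h1 : ‖ι.symm (‖u‖⁻¹ • u)‖ = 1 := by
    rw [← hι, ι.apply_symm_apply, norm_smul, norm_inv, norm_norm, inv_mul_cancel₀ hn]
  refine ⟨⟨ι.symm (‖u‖⁻¹ • u), by rwa [mem_sphere_zero_iff_norm]⟩, ?_⟩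
  simp only
  rw [ι.apply_symm_apply, Complex.coe_smul, smul_smul, mul_inv_cancel₀ hn, one_smul]

lemma tubeZ_continuous (γ : ℂ) (Λ : W →L[ℂ] W) :
    Continuous (fun q : ℝ × ℝ × W => tubeZ γ Λ q.1 q.2.1 q.2.2) := by
  have : CompleteSpace W := FiniteDimensional.complete ℂ W
  have h1 : Continuous fun q : ℝ × ℝ × W => ex Λ (q.2.1 : ℂ) q.2.2 :=
    (exA_contDiff Λ).continuous.comp
      ((Complex.continuous_ofReal.comp (continuous_fst.comp continuous_snd)).prodMk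
        (continuous_snd.comp continuous_snd))
  refine Continuous.prodMk ?_ h1
  fun_prop

variable [ChartedSpace (EuclideanSpace ℂ (Fin D)) Y]

/-- The map from the new piece to the complex manifold. -/
private lemma exists_glue_germ {γ : ℂ} {Λ : W →L[ℂ] W}
    {ι : EuclideanSpace ℝ (Fin (m + 1)) ≃L[ℝ] W} (hι : ∀ x, ‖ι x‖ = ‖x‖)
    (L : (ℂ × W) ≃L[ℂ] EuclideanSpace ℂ (Fin D)) (hγ : γ ≠ 0) {F : ℂ × W → Y}
    (hF : ∀ t b u, ‖u‖ < 1 → ContMDiffAt 𝓘(ℂ, ℂ × W) 𝓘(ℂ, EuclideanSpace ℂ (Fin D)) ∞ F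
      (tubeZ γ Λ t b u))
    {j₁ : Y → M} {j₂ : (ℝ × ℂ) × sphere (0 : EuclideanSpace ℝ (Fin (m + 1))) 1 → M}
    (hglue : ∀ (t b ρ : ℝ) (σ : sphere (0 : EuclideanSpace ℝ (Fin (m + 1))) 1), 0 < ρ → ρ < 1 →
      j₂ ((t, (ρ : ℂ) * Complex.exp (2 * Real.pi * Complex.I * b)), σ) =
        j₁ (F (tubeZ γ Λ t b ((ρ : ℂ) • ι σ.1))))
    (t₀ : ℝ) (y₀ : ℂ) (σ₀ : sphere (0 : EuclideanSpace ℝ (Fin (m + 1))) 1) (b₀ : ℝ)
    (hy : 1 / 2 < ‖y₀‖) (hy1 : ‖y₀‖ < 1)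
    (hb : y₀ = ‖y₀‖ * Complex.exp (2 * Real.pi * Complex.I * b₀)) :
    ∃ (g : (ℝ × ℂ) × sphere (0 : EuclideanSpace ℝ (Fin (m + 1))) 1 → Y)
      (Z : EuclideanSpace ℂ (Fin D) → ℂ × W),
      ContinuousAt g ((t₀, y₀), σ₀) ∧
      g ((t₀, y₀), σ₀) = F (tubeZ γ Λ t₀ b₀ ((‖y₀‖ : ℂ) • ι σ₀.1)) ∧
      (∀ᶠ q in 𝓝 ((t₀, y₀), σ₀), j₁ (g q) = j₂ q) ∧
      ContDiffAt ℂ ∞ Z (newPhi γ Λ ι L ((t₀, y₀), σ₀)) ∧
      Z (newPhi γ Λ ι L ((t₀, y₀), σ₀)) = tubeZ γ Λ t₀ b₀ ((‖y₀‖ : ℂ) • ι σ₀.1) ∧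
      ∀ᶠ q in 𝓝 ((t₀, y₀), σ₀), g q = F (Z (newPhi γ Λ ι L q)) := by
  have hy0 : y₀ ≠ 0 := by
    rintro rfl
    simp at hy
    linarith
  obtain ⟨T, hT1, hT2⟩ := exists_trans γ Λ ι L hγ t₀ y₀ σ₀ b₀ hy hb
  have hσ : ∀ σ : sphere (0 : EuclideanSpace ℝ (Fin (m + 1))) 1, ‖ι σ.1‖ = 1 := by
    intro σ
    have := σ.2
    rw [mem_sphere_zero_iff_norm] at this
    rw [hι, this]
  have hnorm : ∀ q : (ℝ × ℂ) × sphere (0 : EuclideanSpace ℝ (Fin (m + 1))) 1,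
      ‖(‖q.1.2‖ : ℂ) • ι q.2.1‖ = ‖q.1.2‖ := by
    intro q
    rw [norm_smul, hσ, mul_one, Complex.norm_real, norm_norm]
  have hev : ∀ᶠ q in 𝓝 (((t₀, y₀), σ₀) :
      (ℝ × ℂ) × sphere (0 : EuclideanSpace ℝ (Fin (m + 1))) 1), ‖q.1.2‖ ∈ Ioo (1 / 2) 1 := by
    have h1 : ContinuousAt (fun q : (ℝ × ℂ) × sphere (0 : EuclideanSpace ℝ (Fin (m + 1))) 1 =>
        ‖q.1.2‖) ((t₀, y₀), σ₀) :=
      (continuous_norm.comp (continuous_snd.comp continuous_fst)).continuousAt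
    exact h1.eventually_mem (Ioo_mem_nhds hy hy1)
  refine ⟨fun q => F (tubeZ γ Λ q.1.1 (bfun b₀ y₀ q.1.2) ((‖q.1.2‖ : ℂ) • ι q.2.1)), T,
    ?_, ?_, ?_, hT1, ?_, ?_⟩
  · have h1 : ContinuousAt (fun q : (ℝ × ℂ) × sphere (0 : EuclideanSpace ℝ (Fin (m + 1))) 1 =>
        ((q.1.1, bfun b₀ y₀ q.1.2, (‖q.1.2‖ : ℂ) • ι q.2.1) : ℝ × ℝ × W)) ((t₀, y₀), σ₀) := by
      refine ContinuousAt.prodMk (continuous_fst.comp continuous_fst).continuousAt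
        (ContinuousAt.prodMk ?_ ?_)
      · exact ContinuousAt.comp (g := bfun b₀ y₀) (bfun_continuousAt b₀ hy0)
          (continuous_snd.comp continuous_fst).continuousAt
      · refine (Continuous.smul ?_ ?_).continuousAt
        · exact Complex.continuous_ofReal.comp
            (continuous_norm.comp (continuous_snd.comp continuous_fst))
        · exact ι.continuous.comp (continuous_subtype_val.comp continuous_snd)
    have h2 : ContinuousAt (fun q : (ℝ × ℂ) × sphere (0 : EuclideanSpace ℝ (Fin (m + 1))) 1 =>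
        tubeZ γ Λ q.1.1 (bfun b₀ y₀ q.1.2) ((‖q.1.2‖ : ℂ) • ι q.2.1)) ((t₀, y₀), σ₀) :=
      ContinuousAt.comp (g := fun q : ℝ × ℝ × W => tubeZ γ Λ q.1 q.2.1 q.2.2)
        (tubeZ_continuous γ Λ).continuousAt h1
    have h3 : ContinuousAt F (tubeZ γ Λ t₀ (bfun b₀ y₀ y₀) ((‖y₀‖ : ℂ) • ι σ₀.1)) := by
      refine (hF _ _ _ ?_).continuousAt
      rw [hnorm ((t₀, y₀), σ₀)]
      exact hy1
    exact ContinuousAt.comp_of_eq h3 h2 rfl
  · simp only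
    rw [bfun_self b₀ hy0]
  · filter_upwards [hev] with q hq
    obtain ⟨⟨t, y⟩, σ⟩ := q
    have h3 := hglue t (bfun b₀ y₀ y) ‖y‖ σ (by linarith [hq.1]) hq.2
    rw [← bfun_spec hy0 hb y] at h3
    exact h3.symm
  · have h3 := hT2.self_of_nhds
    rw [← h3]
    simp only
    rw [bfun_self b₀ hy0]
  · filter_upwards [hT2] with q h3
    rw [h3]

/-- Surgery along elliptic curves with flat neighbourhoods preserves complex manifolds. -/
theorem surgery_complex [IsManifold 𝓘(ℂ, EuclideanSpace ℂ (Fin D)) ∞ Y] [T2Space Y]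
    [FiniteDimensional ℝ E'] [J.Boundaryless] [IsManifold J ∞ M]
    (γ : Fin r → ℂ) (hγ : ∀ i, 0 < (γ i).re) (Λ : Fin r → W →L[ℂ] W)
    (hpos : ∀ i, ∀ u : W, u ≠ 0 →
      (inner ℂ u ((2 * Real.pi * Complex.I / γ i) • Λ i u)).re < 0)
    (ι : EuclideanSpace ℝ (Fin (m + 1)) ≃L[ℝ] W) (hι : ∀ x, ‖ι x‖ = ‖x‖)
    (L : (ℂ × W) ≃L[ℂ] EuclideanSpace ℂ (Fin D)) (F : Fin r → ℂ × W → Y)
    (hF : ∀ i t b u, ‖u‖ < 1 → ContMDiffAt 𝓘(ℂ, ℂ × W) 𝓘(ℂ, EuclideanSpace ℂ (Fin D)) ∞ (F i)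
      (tubeZ (γ i) (Λ i) t b u))
    (hper : ∀ i t b u i' t' b' u', ‖u‖ < 1 → ‖u'‖ < 1 →
      (F i (tubeZ (γ i) (Λ i) t b u) = F i' (tubeZ (γ i') (Λ i') t' b' u') ↔
      i' = i ∧ (∃ n : ℤ, t' = t + n) ∧ (∃ n : ℤ, b' = b + n) ∧ u' = u))
    (j₁ : Y → M) (j₂ : Fin r → (ℝ × ℂ) × sphere (0 : EuclideanSpace ℝ (Fin (m + 1))) 1 → M)
    (hj₁ : ∀ y, (∀ i t b, y ≠ F i (tubeZ (γ i) (Λ i) t b 0)) →
      IsLocalDiffeomorphAt 𝓘(ℝ, EuclideanSpace ℂ (Fin D)) J ∞ j₁ y)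
    (hinj : ∀ y y', (∀ i t b, y ≠ F i (tubeZ (γ i) (Λ i) t b 0)) →
      (∀ i t b, y' ≠ F i (tubeZ (γ i) (Λ i) t b 0)) → j₁ y = j₁ y' → y = y')
    (hj₂ : ∀ i q, ‖q.1.2‖ < 1 →
      IsLocalDiffeomorphAt (𝓘(ℝ, ℝ × ℂ).prod (𝓡 m)) J ∞ (j₂ i) q)
    (hglue : ∀ i (t b ρ : ℝ) (σ : sphere (0 : EuclideanSpace ℝ (Fin (m + 1))) 1), 0 < ρ → ρ < 1 →
      j₂ i ((t, (ρ : ℂ) * Complex.exp (2 * Real.pi * Complex.I * b)), σ) =
        j₁ (F i (tubeZ (γ i) (Λ i) t b ((ρ : ℂ) • ι σ.1))))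
    (hfib : ∀ i t y σ i' t' y' σ', ‖y‖ < 1 → ‖y'‖ < 1 → (j₂ i ((t, y), σ) = j₂ i' ((t', y'), σ') ↔
      i' = i ∧ (∃ n : ℤ, t' = t + n) ∧ y' = y ∧ σ' = σ))
    (hdisj : ∀ i t σ y, (∀ i t b, y ≠ F i (tubeZ (γ i) (Λ i) t b 0)) →
      j₂ i ((t, 0), σ) ≠ j₁ y)
    (hcover : ∀ x : M, (∃ y, (∀ i t b, y ≠ F i (tubeZ (γ i) (Λ i) t b 0)) ∧ j₁ y = x) ∨
      ∃ i t y σ, ‖y‖ < 1 ∧ j₂ i ((t, y), σ) = x) :
    ∃ (N : Type) (_ : TopologicalSpace N) (_ : ChartedSpace (EuclideanSpace ℂ (Fin D)) N),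
      IsManifold 𝓘(ℂ, EuclideanSpace ℂ (Fin D)) ∞ N ∧
      Nonempty (Diffeomorph J 𝓘(ℝ, EuclideanSpace ℂ (Fin D)) M N ∞) := by
  have hclosed := isClosed_tubes (fun i t b u => F i (tubeZ (γ i) (Λ i) t b u)) (by
    intro i q hq
    have h1 : ContinuousAt (fun q : ℝ × ℝ × W => tubeZ (γ i) (Λ i) q.1 q.2.1 q.2.2) q :=
      (tubeZ_continuous (γ i) (Λ i)).continuousAt
    exact (ContinuousAt.comp_of_eq (hF i q.1 q.2.1 q.2.2 hq).continuousAt h1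
      rfl).continuousWithinAt) hper
  set C : Set Y := {y : Y | ∃ i t b u, ‖u‖ ≤ 1 / 2 ∧ y = F i (tubeZ (γ i) (Λ i) t b u)} with hC
  have hK : ∀ y, y ∉ C → ∀ i t b, y ≠ F i (tubeZ (γ i) (Λ i) t b 0) := by
    intro y hy i t b h
    exact hy ⟨i, t, b, 0, by rw [norm_zero]; norm_num, h⟩
  have hγ0 : ∀ i, γ i ≠ 0 := by
    intro i h
    have := hγ i
    rw [h, Complex.zero_re] at this
    exact lt_irrefl 0 this
  -- the old pieces
  set S : Y → Set Y := fun x => (chartAt (EuclideanSpace ℂ (Fin D)) x).source ∩ Cᶜ with hS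
  have hP1 : ∀ x, IsPiece 𝓘(ℝ, EuclideanSpace ℂ (Fin D)) J (S x) j₁ (chm D x) := fun x =>
    { isOpen := (chartAt (EuclideanSpace ℂ (Fin D)) x).open_source.inter hclosed.isOpen_compl
      loc := fun p hp => hj₁ p (hK _ hp.2)
      smooth := fun p hp => chm_smooth x hp.1
      bij := fun p hp => chm_bij x hp.1 }
  -- the new pieces
  set S' : Set ((ℝ × ℂ) × sphere (0 : EuclideanSpace ℝ (Fin (m + 1))) 1) :=
    {q | ‖q.1.2‖ < 1} with hS'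
  have hS'o : IsOpen S' := isOpen_lt
    (continuous_norm.comp (continuous_snd.comp continuous_fst)) continuous_const
  have hP2 : ∀ i, IsPiece (𝓘(ℝ, ℝ × ℂ).prod (𝓡 m)) J S' (j₂ i) (newPhi (γ i) (Λ i) ι L) :=
    fun i =>
    { isOpen := hS'o
      loc := fun q hq => hj₂ i q hq
      smooth := fun q _ => newPhi_contMDiff (γ i) (Λ i) ι L q
      bij := fun q _ => newPhi_bij (γ i) (Λ i) ι L hι (hγ i) (hpos i) q }
  have hσ1 : ∀ σ : sphere (0 : EuclideanSpace ℝ (Fin (m + 1))) 1, ‖ι σ.1‖ = 1 := by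
    intro σ
    have := σ.2
    rw [mem_sphere_zero_iff_norm] at this
    rw [hι, this]
  -- old and old
  have R11 : ∀ y y' x, ∀ f ∈ pieceGm (S y) j₁ (chm D y) x, ∀ f' ∈ pieceGm (S y') j₁ (chm D y') x,
      HolRel x f f' := by
    intro y y' x f hf f' hf'
    refine (hP1 y).rel (hP1 y') ?_ hf hf'
    intro p hp p' hp' hpp
    obtain rfl : p = p' := hinj p p' (hK _ hp.2) (hK _ hp'.2) hpp
    obtain ⟨T, hT1, hT2⟩ := chm_trans y y' hp.1 hp'.1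
    exact ⟨id, T, continuousAt_id, rfl, Filter.Eventually.of_forall fun _ => rfl, hT1, hT2⟩
  -- new and new
  have R22 : ∀ i i' x, ∀ f ∈ pieceGm S' (j₂ i) (newPhi (γ i) (Λ i) ι L) x,
      ∀ f' ∈ pieceGm S' (j₂ i') (newPhi (γ i') (Λ i') ι L) x, HolRel x f f' := by
    intro i i' x f hf f' hf'
    refine (hP2 i).rel (hP2 i') ?_ hf hf'
    rintro ⟨⟨t, y⟩, σ⟩ hq ⟨⟨t', y'⟩, σ'⟩ hq' hqq
    obtain ⟨rfl, ⟨n, rfl⟩, rfl, rfl⟩ := (hfib i t y σ i' t' y' σ' hq hq').1 hqq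
    have : CompleteSpace W := FiniteDimensional.complete ℂ W
    refine ⟨fun q => ((q.1.1 + n, q.1.2), q.2),
      fun p => L (Complex.exp (4 * Real.pi ^ 2 / γ i' * n) * (L.symm p).1,
        ex (Λ i') (2 * Real.pi * Complex.I / γ i' * n) (L.symm p).2), ?_, rfl, ?_, ?_, ?_⟩
    · refine Continuous.continuousAt ?_
      fun_prop
    · filter_upwards [hS'o.mem_nhds hq] with q hq2
      exact ((hfib i' q.1.1 q.1.2 q.2 i' (q.1.1 + n) q.1.2 q.2 hq2 hq2).2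
        ⟨rfl, ⟨n, rfl⟩, rfl, rfl⟩).symm
    · refine ContDiff.contDiffAt ?_
      refine L.contDiff.comp (ContDiff.prodMk ?_ ?_)
      · exact contDiff_const.mul (contDiff_fst.comp L.symm.contDiff)
      · exact (ContinuousLinearMap.contDiff _).comp (contDiff_snd.comp L.symm.contDiff)
    · refine Filter.Eventually.of_forall fun q => ?_
      simp only [newPhi, newG, ContinuousLinearEquiv.symm_apply_apply]
      congr 1
      refine Prod.ext ?_ ?_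
      · simp only
        rw [← mul_assoc, ← Complex.exp_add]
        congr 2
        push_cast
        ring
      · simp only
        rw [map_smul, ← ex_add_apply]
        congr 3
        push_cast
        ring
  -- new and old
  have R21 : ∀ i z x, ∀ f ∈ pieceGm S' (j₂ i) (newPhi (γ i) (Λ i) ι L) x,
      ∀ f' ∈ pieceGm (S z) j₁ (chm D z) x, HolRel x f f' := by
    intro i z x f hf f' hf'
    refine (hP2 i).rel (hP1 z) ?_ hf hf'
    rintro ⟨⟨t, y⟩, σ⟩ hq p hp hqp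
    have hy1 : ‖y‖ < 1 := hq
    have hy0 : y ≠ 0 := by
      rintro rfl
      exact hdisj i t σ p (hK _ hp.2) hqp
    obtain ⟨b, hb⟩ : ∃ b : ℝ, y = ‖y‖ * Complex.exp (2 * Real.pi * Complex.I * b) := by
      refine ⟨y.arg / (2 * Real.pi), ?_⟩
      have hπ0 : (Real.pi : ℂ) ≠ 0 := by exact_mod_cast Real.pi_ne_zero
      have h1 := Complex.norm_mul_exp_arg_mul_I y
      have h2 : 2 * Real.pi * Complex.I * ((y.arg / (2 * Real.pi) : ℝ) : ℂ) =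
          (y.arg : ℂ) * Complex.I := by
        push_cast
        field_simp
      rw [h2, h1]
    have hny : 0 < ‖y‖ := norm_pos_iff.2 hy0
    have h3 : j₂ i ((t, y), σ) = j₁ (F i (tubeZ (γ i) (Λ i) t b ((‖y‖ : ℂ) • ι σ.1))) := by
      have h := hglue i t b ‖y‖ σ hny hy1
      rwa [← hb] at h
    have hnu : ‖(‖y‖ : ℂ) • ι σ.1‖ = ‖y‖ := by
      rw [norm_smul, hσ1, mul_one, Complex.norm_real, norm_norm]
    have h4 : ∀ i' t' b', F i (tubeZ (γ i) (Λ i) t b ((‖y‖ : ℂ) • ι σ.1)) ≠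
        F i' (tubeZ (γ i') (Λ i') t' b' 0) := by
      intro i' t' b' h
      have h5 := ((hper i t b _ i' t' b' 0 (by rw [hnu]; exact hy1)
        (by rw [norm_zero]; exact one_pos)).1 h).2.2.2
      have h6 := hnu
      rw [← h5, norm_zero] at h6
      exact hny.ne h6
    have h7 : p = F i (tubeZ (γ i) (Λ i) t b ((‖y‖ : ℂ) • ι σ.1)) :=
      hinj _ _ (hK _ hp.2) h4 (hqp.symm.trans h3)
    have hy2 : 1 / 2 < ‖y‖ := by
      by_contra h8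
      exact hp.2 ⟨i, t, b, _, by rw [hnu]; linarith, h7⟩
    obtain ⟨g, Z, g1, g2, g3, g4, g6, g5⟩ := exists_glue_germ hι L (hγ0 i) (hF i)
      (hglue i) t y σ b hy2 hy1 hb
    have g5s := g5.self_of_nhds
    have hp' : F i (Z (newPhi (γ i) (Λ i) ι L ((t, y), σ))) = p := by
      rw [← g5s, g2, h7]
    refine ⟨g, fun w => chm D z (F i (Z w)), g1, g2.trans h7.symm, g3, ?_, ?_⟩
    · have k1 : ContMDiffAt 𝓘(ℂ, EuclideanSpace ℂ (Fin D)) 𝓘(ℂ, EuclideanSpace ℂ (Fin D)) ∞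
          (chm D z) (F i (Z (newPhi (γ i) (Λ i) ι L ((t, y), σ)))) := by
        rw [hp']
        exact chm_holo z hp.1
      have k2 : ContMDiffAt 𝓘(ℂ, ℂ × W) 𝓘(ℂ, EuclideanSpace ℂ (Fin D)) ∞ (F i)
          (Z (newPhi (γ i) (Λ i) ι L ((t, y), σ))) := by
        rw [g6]
        exact hF i t b _ (by rw [hnu]; exact hy1)
      have k3 : ContMDiffAt 𝓘(ℂ, EuclideanSpace ℂ (Fin D)) 𝓘(ℂ, ℂ × W) ∞ Z
          (newPhi (γ i) (Λ i) ι L ((t, y), σ)) := g4.contMDiffAt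
      have k4 : ContMDiffAt 𝓘(ℂ, EuclideanSpace ℂ (Fin D)) 𝓘(ℂ, EuclideanSpace ℂ (Fin D)) ∞
          (fun w => F i (Z w)) (newPhi (γ i) (Λ i) ι L ((t, y), σ)) := k2.comp _ k3
      have k5 : ContMDiffAt 𝓘(ℂ, EuclideanSpace ℂ (Fin D)) 𝓘(ℂ, EuclideanSpace ℂ (Fin D)) ∞
          (fun w => chm D z (F i (Z w))) (newPhi (γ i) (Λ i) ι L ((t, y), σ)) :=
        ContMDiffAt.comp (g := chm D z) (f := fun w => F i (Z w)) _ k1 k4
      exact k5.contDiffAt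
    · filter_upwards [g5] with q k1
      rw [k1]
  -- the family of germs
  refine complex_of_germs (J := J) (fun x => (⋃ z, pieceGm (S z) j₁ (chm D z) x) ∪
    ⋃ i, pieceGm S' (j₂ i) (newPhi (γ i) (Λ i) ι L) x) ?_ ?_ ?_
  · have hnew : ∀ i t y σ x, ‖y‖ < 1 → j₂ i ((t, y), σ) = x →
        ∃ f ∈ ((⋃ z, pieceGm (S z) j₁ (chm D z) x) ∪
          ⋃ i, pieceGm S' (j₂ i) (newPhi (γ i) (Λ i) ι L) x), ∀ᶠ z in 𝓝 x,
        f ∈ ((⋃ w, pieceGm (S w) j₁ (chm D w) z) ∪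
          ⋃ i, pieceGm S' (j₂ i) (newPhi (γ i) (Λ i) ι L) z) := by
      rintro i t y σ x hy rfl
      obtain ⟨f, hf1, hf2⟩ := (hP2 i).exists_germ (p := ((t, y), σ)) hy
      exact ⟨f, Or.inr (mem_iUnion.2 ⟨i, hf1⟩),
        hf2.mono fun z hz => Or.inr (mem_iUnion.2 ⟨i, hz⟩)⟩
    intro x
    rcases hcover x with ⟨y, hy, rfl⟩ | ⟨i, t, y, σ, hy, rfl⟩
    · by_cases hyC : y ∈ C
      · obtain ⟨i, t, b, u, hu, rfl⟩ := hyC
        have hu0 : u ≠ 0 := by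
          rintro rfl
          exact hy i t b rfl
        obtain ⟨σ, hσ⟩ := exists_sphere_point ι hι u hu0
        have h1 := hglue i t b ‖u‖ σ (norm_pos_iff.2 hu0) (by linarith)
        rw [hσ] at h1
        refine hnew i t _ σ _ ?_ h1
        rw [norm_mul, Complex.norm_real, norm_norm, Complex.norm_exp]
        have h2 : (2 * Real.pi * Complex.I * (b : ℂ)).re = 0 := by
          simp
        rw [h2, Real.exp_zero, mul_one]
        linarith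
      · obtain ⟨f, hf1, hf2⟩ := (hP1 y).exists_germ (p := y) ⟨mem_chart_source _ y, hyC⟩
        exact ⟨f, Or.inl (mem_iUnion.2 ⟨y, hf1⟩),
          hf2.mono fun z hz => Or.inl (mem_iUnion.2 ⟨y, hz⟩)⟩
    · exact hnew i t y σ _ hy rfl
  · rintro x f (hf | hf)
    · obtain ⟨z, hz⟩ := mem_iUnion.1 hf
      exact (hP1 z).germ hz
    · obtain ⟨i, hi⟩ := mem_iUnion.1 hf
      exact (hP2 i).germ hi
  · rintro x f (hf | hf) f' (hf' | hf')
    · obtain ⟨z, hz⟩ := mem_iUnion.1 hf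
      obtain ⟨z', hz'⟩ := mem_iUnion.1 hf'
      exact R11 z z' x f hz f' hz'
    · obtain ⟨z, hz⟩ := mem_iUnion.1 hf
      obtain ⟨i, hi⟩ := mem_iUnion.1 hf'
      have k1 := (hP1 z).germ hz
      have k2 := (hP2 i).germ hi
      exact HolRel.symm_of_bij (J := J) k2.1 k2.2 k1.2 (R21 i z x f' hi f hz)
    · obtain ⟨i, hi⟩ := mem_iUnion.1 hf
      obtain ⟨z, hz⟩ := mem_iUnion.1 hf'
      exact R21 i z x f hi f' hz
    · obtain ⟨i, hi⟩ := mem_iUnion.1 hf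
      obtain ⟨i', hi'⟩ := mem_iUnion.1 hf'
      exact R22 i i' x f hi f' hi'

end Surg

end Pool.Agent.WallC
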