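import Pool.Agent.Lib.MP_1d980c_gt.Wall.Exp

/-! The linear map `T = (ρ, B, ρ)` of `ℂ × ℂ^b × ℂ^n` and its powers. -/

set_option autoImplicit false
set_option linter.deprecated false
open Topology Set Module
open scoped Matrix

namespace Pool.Agent.WallC

section TubA

variable {b n : ℕ}

/-- The power `T^m` of `T = (ρ, B, ρ)`. -/
noncomputable def Tm (ρ : ℝ) (B : Matrix (Fin b) (Fin b) ℂ) (m : ℤ)
    (w : (Fin 1 → ℂ) × (Fin b → ℂ) × (Fin n → ℂ)) : (Fin 1 → ℂ) × (Fin b → ℂ) × (Fin n → ℂ) :=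
  (((ρ ^ m : ℝ) : ℂ) • w.1, (B ^ m) *ᵥ w.2.1, ((ρ ^ m : ℝ) : ℂ) • w.2.2)

variable {ρ : ℝ} {B : Matrix (Fin b) (Fin b) ℂ}

lemma Tm_zero (w : (Fin 1 → ℂ) × (Fin b → ℂ) × (Fin n → ℂ)) : Tm ρ B 0 w = w := by
  simp [Tm]

lemma Tm_add (hρ : ρ ≠ 0) (hB : IsUnit B.det) (m k : ℤ)
    (w : (Fin 1 → ℂ) × (Fin b → ℂ) × (Fin n → ℂ)) :
    Tm ρ B (m + k) w = Tm ρ B m (Tm ρ B k w) := by
  simp only [Tm, smul_smul, Matrix.mulVec_mulVec]
  rw [zpow_add₀ hρ, Matrix.zpow_add hB]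
  push_cast
  rfl

lemma Tm_add_right (m : ℤ) (w w' : (Fin 1 → ℂ) × (Fin b → ℂ) × (Fin n → ℂ)) :
    Tm ρ B m (w + w') = Tm ρ B m w + Tm ρ B m w' := by
  simp only [Tm, Prod.fst_add, Prod.snd_add, smul_add, Matrix.mulVec_add]
  rfl

variable {W : Type} [NormedAddCommGroup W] [NormedSpace ℂ W] [CompleteSpace W]
    {Λ : W →L[ℂ] W} {L : (ℂ × W) ≃L[ℂ] ((Fin 1 → ℂ) × (Fin b → ℂ) × (Fin n → ℂ))}

/-- An equivalence which intertwines `(ρ, exp Λ)` and `T` intertwines the powers. -/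
lemma Tm_intertwine (hρ : ρ ≠ 0) (hB : IsUnit B.det)
    (hL : ∀ (z : ℂ) (U : W), L ((ρ : ℂ) * z, ex Λ 1 U) = Tm ρ B 1 (L (z, U)))
    (m : ℤ) (z : ℂ) (U : W) :
    L (((ρ ^ m : ℝ) : ℂ) * z, ex Λ m U) = Tm ρ B m (L (z, U)) := by
  induction m using Int.induction_on with
  | zero =>
    rw [Tm_zero]
    simp [ex_zero]
  | succ i ih =>
    have h1 : ((ρ ^ ((i : ℤ) + 1) : ℝ) : ℂ) * z = (ρ : ℂ) * (((ρ ^ (i : ℤ) : ℝ) : ℂ) * z) := by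
      rw [zpow_add₀ hρ, zpow_one]
      push_cast
      ring
    have h2 : ex Λ (((i : ℤ) + 1 : ℤ) : ℂ) U = ex Λ 1 (ex Λ ((i : ℤ) : ℂ) U) := by
      rw [← ex_add_apply]
      congr 2
      push_cast
      ring
    rw [h1, h2, hL, ih, ← Tm_add hρ hB, add_comm]
  | pred i ih =>
    have h1 : (((ρ ^ (-(i : ℤ)) : ℝ)) : ℂ) * z =
        (ρ : ℂ) * (((ρ ^ (-(i : ℤ) - 1) : ℝ) : ℂ) * z) := by
      rw [zpow_sub₀ hρ, zpow_one]
      have : (ρ : ℂ) ≠ 0 := by exact_mod_cast hρ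
      push_cast
      field_simp
    have h2 : ex Λ ((-(i : ℤ) : ℤ) : ℂ) U = ex Λ 1 (ex Λ ((-(i : ℤ) - 1 : ℤ) : ℂ) U) := by
      rw [← ex_add_apply]
      congr 2
      push_cast
      ring
    rw [h1, h2, hL] at ih
    have h3 := congrArg (Tm ρ B (-1)) ih
    rw [← Tm_add hρ hB, ← Tm_add hρ hB] at h3
    rw [show (-1 : ℤ) + 1 = 0 by norm_num, Tm_zero] at h3
    rw [h3]
    congr 1
    ring

/-- The points of the tube. -/
noncomputable def tubeV (L : (ℂ × W) ≃L[ℂ] ((Fin 1 → ℂ) × (Fin b → ℂ) × (Fin n → ℂ)))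
    (Λ : W →L[ℂ] W) (γ : ℂ) (ε : ℝ) (t c : ℝ) (u : W) :
    (Fin 1 → ℂ) × (Fin b → ℂ) × (Fin n → ℂ) :=
  L (Complex.exp (2 * Real.pi * Complex.I * t - γ * c), (ε : ℂ) • ex Λ c u)

lemma exp_shift {γ : ℂ} (hγ : Complex.exp (-γ) = ρ) (w : ℂ) (m : ℤ) :
    Complex.exp (w - γ * m) = ((ρ ^ m : ℝ) : ℂ) * Complex.exp w := by
  rw [sub_eq_add_neg, Complex.exp_add, mul_comm]
  congr 1
  rw [show -(γ * m) = (m : ℂ) * (-γ) by ring, Complex.exp_int_mul, hγ]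
  push_cast
  rfl

lemma tubeV_shift (hρ : ρ ≠ 0) (hB : IsUnit B.det)
    (hL : ∀ (z : ℂ) (U : W), L ((ρ : ℂ) * z, ex Λ 1 U) = Tm ρ B 1 (L (z, U)))
    {γ : ℂ} (hγ : Complex.exp (-γ) = ρ) (ε t c : ℝ) (u : W) (m : ℤ) :
    tubeV L Λ γ ε t (c + m) u = Tm ρ B m (tubeV L Λ γ ε t c u) := by
  rw [tubeV, tubeV, ← Tm_intertwine hρ hB hL]
  have h1 : 2 * Real.pi * Complex.I * t - γ * ((c + m : ℝ) : ℂ) =
      (2 * Real.pi * Complex.I * t - γ * c) - γ * m := by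
    push_cast
    ring
  rw [h1, exp_shift hγ, map_smul, ← ex_add_apply]
  congr 4
  push_cast
  ring

lemma tubeV_shift_t {γ : ℂ} (ε t c : ℝ) (u : W) (m : ℤ) :
    tubeV L Λ γ ε (t + m) c u = tubeV L Λ γ ε t c u := by
  rw [tubeV, tubeV]
  have h1 : 2 * Real.pi * Complex.I * ((t + m : ℝ) : ℂ) - γ * c =
      (2 * Real.pi * Complex.I * t - γ * c) + m * (2 * Real.pi * Complex.I) := by
    push_cast
    ring
  rw [h1, Complex.exp_add, Complex.exp_int_mul_two_pi_mul_I, mul_one]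

lemma norm_exp_tube {γ : ℂ} (t c : ℝ) :
    ‖Complex.exp (2 * Real.pi * Complex.I * t - γ * c)‖ = Real.exp (-(γ.re * c)) := by
  rw [Complex.norm_exp]
  congr 1
  simp

lemma exp_re_of {γ : ℂ} (hρ : 0 < ρ) (hγ : Complex.exp (-γ) = ρ) : Real.exp (-γ.re) = ρ := by
  have h := congrArg norm hγ
  rw [Complex.norm_exp, Complex.norm_real, Real.norm_of_nonneg hρ.le] at h
  simpa using h

lemma re_pos_of {γ : ℂ} (hρ : 0 < ρ) (hρ1 : ρ < 1) (hγ : Complex.exp (-γ) = ρ) : 0 < γ.re := by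
  have h := exp_re_of hρ hγ
  by_contra h1
  have h2 : Real.exp 0 ≤ Real.exp (-γ.re) := Real.exp_le_exp.2 (by linarith)
  rw [h, Real.exp_zero] at h2
  linarith

end TubA

end Pool.Agent.WallC
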