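import Pool.Agent.Lib.MP_1d980c_gt.Wall.TubA

/-! Thin tubes are embedded and disjoint. -/

set_option autoImplicit false
set_option linter.deprecated false
open Topology Set Module
open scoped Matrix

namespace Pool.Agent.WallC

section TubB

variable {b n r : ℕ} {W : Type} [NormedAddCommGroup W] [NormedSpace ℂ W] [FiniteDimensional ℂ W]

/-- A bound for the perturbation `L (0, exp (cΛ) u)`. -/
private lemma exists_bound (Λ : Fin r → W →L[ℂ] W)
    (L : Fin r → (ℂ × W) ≃L[ℂ] ((Fin 1 → ℂ) × (Fin b → ℂ) × (Fin n → ℂ))) (K : ℝ) :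
    ∃ C : ℝ, 0 < C ∧ ∀ i (c : ℝ) (u : W), |c| ≤ K → ‖u‖ ≤ 1 → ‖L i (0, ex (Λ i) c u)‖ ≤ C := by
  have : CompleteSpace W := FiniteDimensional.complete ℂ W
  have : ProperSpace W := FiniteDimensional.proper ℂ W
  have h1 : ∀ i, ∃ C : ℝ, ∀ q ∈ (Icc (-K) K ×ˢ Metric.closedBall (0 : W) 1 : Set (ℝ × W)),
      ‖L i (0, ex (Λ i) q.1 q.2)‖ ≤ C := by
    intro i
    apply (isCompact_Icc.prod (isCompact_closedBall (0 : W) 1)).exists_bound_of_continuousOn
    refine Continuous.continuousOn ?_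
    refine (L i).continuous.comp (continuous_const.prodMk ?_)
    exact (exA_contDiff (Λ i)).continuous.comp
      ((Complex.continuous_ofReal.comp continuous_fst).prodMk continuous_snd)
  choose C hC using h1
  refine ⟨1 + ∑ i, |C i|, by positivity, ?_⟩
  intro i c u hc hu
  have h2 := hC i (c, u) ⟨abs_le.1 hc, by simpa using hu⟩
  have h3 : |C i| ≤ ∑ i, |C i| :=
    Finset.single_le_sum (f := fun i => |C i|) (fun _ _ => abs_nonneg _) (Finset.mem_univ i)
  have h4 := le_abs_self (C i)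
  simp only at h2
  linarith

/-- A small power. -/
private lemma exists_pow_bound {ρ : ℝ} (h0 : 0 < ρ) (h1 : ρ < 1) {c : ℝ} (hc : 0 < c) :
    ∃ K : ℕ, ∀ m : ℤ, c ≤ ρ ^ m → m ≤ K := by
  obtain ⟨K, hK⟩ := exists_pow_lt_of_lt_one hc h1
  refine ⟨K, fun m hm => ?_⟩
  by_contra h
  have h2 : ρ ^ m ≤ ρ ^ (K : ℤ) :=
    zpow_le_zpow_right_of_le_one₀ h0 h1.le (by omega)
  rw [zpow_natCast] at h2
  linarith

/-- The tubes over independent lines are embedded and disjoint modulo the group generated by `T`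
and the translations by a discrete subgroup. -/
theorem tube_sep {ρ : ℝ} (hρ : 0 < ρ) (hρ1 : ρ < 1) {B : Matrix (Fin b) (Fin b) ℂ}
    (hB : IsUnit B.det) (S : Set ((Fin 1 → ℝ) × (Fin b → ℂ)))
    (hS : ∃ δ > 0, ∀ x ∈ S, ‖x‖ < δ → x = 0) (hS0 : (0 : (Fin 1 → ℝ) × (Fin b → ℂ)) ∈ S)
    (hST : ∀ x ∈ S, ∀ m : ℤ, ((ρ ^ m • x.1, B ^ m *ᵥ x.2) : (Fin 1 → ℝ) × (Fin b → ℂ)) ∈ S)
    (γ : Fin r → ℂ) (hγ : ∀ i, Complex.exp (-γ i) = ρ) (Λ : Fin r → W →L[ℂ] W)
    (L : Fin r → (ℂ × W) ≃L[ℂ] ((Fin 1 → ℂ) × (Fin b → ℂ) × (Fin n → ℂ)))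
    (hL : ∀ i (z : ℂ) (U : W), L i ((ρ : ℂ) * z, ex (Λ i) 1 U) = Tm ρ B 1 (L i (z, U)))
    (v : Fin r → Fin n → ℂ) (hv : ∀ i, L i (1, 0) = (0, 0, v i)) (hv0 : ∀ i, v i ≠ 0)
    (hind : ∀ i i' (z z' : ℂ), i ≠ i' → z • v i = z' • v i' → z = 0 ∧ z' = 0) :
    ∃ ε₀ > 0, ∀ ε, 0 < ε → ε < ε₀ →
      (∀ i t c u, ‖u‖ < 1 → (tubeV (L i) (Λ i) (γ i) ε t c u).2.2 ≠ 0) ∧
      ∀ i t c u i' t' c' u', ‖u‖ < 1 → ‖u'‖ < 1 →
        ((∃ m : ℤ, ∃ x ∈ S, tubeV (L i') (Λ i') (γ i') ε t' c' u' =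
          Tm ρ B m (tubeV (L i) (Λ i) (γ i) ε t c u) + ((fun a => (x.1 a : ℂ)), x.2, 0)) ↔
          i' = i ∧ (∃ k : ℤ, t' = t + k) ∧ (∃ k : ℤ, c' = c + k) ∧ u' = u) := by
  have : CompleteSpace W := FiniteDimensional.complete ℂ W
  obtain ⟨δ, hδ, hS⟩ := hS
  have hρ0 := hρ.ne'
  -- `L (z, 0)`
  have hz : ∀ i (z : ℂ), L i (z, 0) = (0, 0, z • v i) := by
    intro i z
    have h := congrArg (fun w => z • w) (hv i)
    simp only [← map_smul] at h
    rw [Prod.smul_mk, smul_zero, smul_eq_mul, mul_one] at h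
    rw [h]
    simp
  have hsplit : ∀ i (z : ℂ) (U : W), L i (z, U) = (0, 0, z • v i) + L i (0, U) := by
    intro i z U
    rw [← hz, ← map_add]
    simp
  -- constants
  obtain ⟨c₀, hc₀, hc₀v⟩ : ∃ c₀ > 0, ∀ i, c₀ ≤ ‖v i‖ := by
    refine ⟨(1 + ∑ i, ‖v i‖⁻¹)⁻¹, by positivity, fun i => ?_⟩
    have h1 : 0 < ‖v i‖ := norm_pos_iff.2 (hv0 i)
    have h2 : ‖v i‖⁻¹ ≤ ∑ i, ‖v i‖⁻¹ := Finset.single_le_sum (f := fun i => ‖v i‖⁻¹)
      (fun _ _ => by positivity) (Finset.mem_univ i)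
    rw [inv_le_comm₀ (by positivity) h1]
    linarith
  obtain ⟨C₁, hC₁, hC₁v⟩ : ∃ C₁ > 0, ∀ i, ‖v i‖ ≤ C₁ := by
    refine ⟨1 + ∑ i, ‖v i‖, by positivity, fun i => ?_⟩
    have h2 : ‖v i‖ ≤ ∑ i, ‖v i‖ := Finset.single_le_sum (f := fun i => ‖v i‖)
      (fun _ _ => norm_nonneg _) (Finset.mem_univ i)
    linarith
  obtain ⟨K, hK⟩ := exists_pow_bound hρ hρ1 (c := (ρ * c₀ / 2) / (C₁ + 1)) (by positivity)
  obtain ⟨C, hC, hCb⟩ := exists_bound Λ L (K + 1)
  obtain ⟨κ, hκ, hκb⟩ : ∃ κ > 0, ∀ i i', i ≠ i' → ∀ z z' : ℂ,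
      ‖z'‖ ≤ κ * ‖z' • v i' - z • v i‖ := by
    have h1 : ∀ p : Fin r × Fin r, ∃ κ : ℝ, p.1 ≠ p.2 → ∀ z z' : ℂ,
        ‖z'‖ ≤ κ * ‖z' • v p.2 - z • v p.1‖ := by
      rintro ⟨i, i'⟩
      by_cases hi : i = i'
      · exact ⟨0, fun h => absurd hi h⟩
      · let g : (ℂ × ℂ) →ₗ[ℂ] (Fin n → ℂ) :=
          { toFun := fun q => q.2 • v i' - q.1 • v i
            map_add' := fun q q' => by simp [add_smul]; abel
            map_smul' := fun q q' => by simp [smul_smul, smul_sub] }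
        have hg : LinearMap.ker g = ⊥ := by
          rw [LinearMap.ker_eq_bot']
          rintro ⟨z, z'⟩ h
          have h2 : z' • v i' - z • v i = 0 := h
          have h3 := hind i i' z z' hi (sub_eq_zero.1 h2).symm
          rw [h3.1, h3.2]
          rfl
        obtain ⟨κ, -, hκ⟩ := g.exists_antilipschitzWith hg
        refine ⟨κ, fun _ z z' => ?_⟩
        have h4 := hκ.le_mul_dist (z, z') 0
        rw [map_zero, dist_zero_right, dist_zero_right] at h4
        exact (norm_snd_le (z, z')).trans h4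
    choose κ hκ using h1
    refine ⟨1 + ∑ p, |κ p|, by positivity, fun i i' hi z z' => ?_⟩
    refine (hκ (i, i') hi z z').trans (mul_le_mul_of_nonneg_right ?_ (norm_nonneg _))
    have h3 : |κ (i, i')| ≤ ∑ p, |κ p| :=
      Finset.single_le_sum (f := fun i => |κ i|) (fun _ _ => abs_nonneg _)
        (Finset.mem_univ (i, i'))
    have h4 := le_abs_self (κ (i, i'))
    linarith
  refine ⟨min (min (ρ * c₀ / (2 * C)) (1 / C)) (min (δ / (2 * C)) (ρ / (2 * C * κ))),
    by positivity, ?_⟩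
  intro ε hε hε0
  have hε1 : ε * C < ρ * c₀ / 2 := by
    have h : ε < ρ * c₀ / (2 * C) := lt_of_lt_of_le hε0
      ((min_le_left _ _).trans (min_le_left _ _))
    rw [lt_div_iff₀ (by positivity)] at h
    linarith
  have hε2 : ε * C < 1 := by
    have h : ε < 1 / C := lt_of_lt_of_le hε0 ((min_le_left _ _).trans (min_le_right _ _))
    rwa [lt_div_iff₀ hC] at h
  have hε3 : 2 * (ε * C) < δ := by
    have h : ε < δ / (2 * C) := lt_of_lt_of_le hε0 ((min_le_right _ _).trans (min_le_left _ _))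
    rw [lt_div_iff₀ (by positivity)] at h
    linarith
  have hε4 : κ * (2 * (ε * C)) < ρ := by
    have h : ε < ρ / (2 * C * κ) := lt_of_lt_of_le hε0
      ((min_le_right _ _).trans (min_le_right _ _))
    rw [lt_div_iff₀ (by positivity)] at h
    linarith
  -- the size of the first coordinate
  have hexp : ∀ i (t c : ℝ), 0 ≤ c → c ≤ 1 →
      ρ ≤ ‖Complex.exp (2 * Real.pi * Complex.I * t - γ i * c)‖ ∧
      ‖Complex.exp (2 * Real.pi * Complex.I * t - γ i * c)‖ ≤ 1 := by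
    intro i t c h0 h1
    have hg := re_pos_of hρ hρ1 (hγ i)
    rw [norm_exp_tube]
    constructor
    · rw [← exp_re_of hρ (hγ i)]
      apply Real.exp_le_exp.2
      nlinarith
    · rw [← Real.exp_zero]
      apply Real.exp_le_exp.2
      nlinarith
  have hpert : ∀ i (c : ℝ) (u : W), |c| ≤ K + 1 → ‖u‖ < 1 →
      ‖L i (0, (ε : ℂ) • ex (Λ i) c u)‖ ≤ ε * C := by
    intro i c u h1 h2
    have h3 : L i (0, (ε : ℂ) • ex (Λ i) c u) = (ε : ℂ) • L i (0, ex (Λ i) c u) := by
      have h := map_smul (L i) (ε : ℂ) ((0 : ℂ), ex (Λ i) c u)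
      rw [Prod.smul_mk, smul_zero] at h
      exact h
    rw [h3, norm_smul, Complex.norm_real, Real.norm_of_nonneg hε.le]
    exact mul_le_mul_of_nonneg_left (hCb i c u h1 h2.le) hε.le
  have hKnn : (0 : ℝ) ≤ K := Nat.cast_nonneg K
  have hV : ∀ i t c u, 0 ≤ c → c ≤ 1 → ‖u‖ < 1 →
      ρ * c₀ / 2 ≤ ‖(tubeV (L i) (Λ i) (γ i) ε t c u).2.2‖ ∧
      ‖(tubeV (L i) (Λ i) (γ i) ε t c u).2.2‖ ≤ C₁ + 1 := by
    intro i t c u h0 h1 hu
    have h2 : (tubeV (L i) (Λ i) (γ i) ε t c u).2.2 =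
        Complex.exp (2 * Real.pi * Complex.I * t - γ i * c) • v i +
          (L i (0, (ε : ℂ) • ex (Λ i) c u)).2.2 := by
      rw [tubeV, hsplit]
      rfl
    have h3 : ‖(L i (0, (ε : ℂ) • ex (Λ i) c u)).2.2‖ ≤ ε * C :=
      ((norm_snd_le _).trans (norm_snd_le _)).trans
        (hpert i c u (by rw [abs_of_nonneg h0]; linarith) hu)
    obtain ⟨h4, h5⟩ := hexp i t c h0 h1
    have h6 : ‖Complex.exp (2 * Real.pi * Complex.I * t - γ i * c) • v i‖ =
        ‖Complex.exp (2 * Real.pi * Complex.I * t - γ i * c)‖ * ‖v i‖ := norm_smul _ _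
    have h7 : ρ * c₀ ≤ ‖Complex.exp (2 * Real.pi * Complex.I * t - γ i * c) • v i‖ := by
      rw [h6]
      exact mul_le_mul h4 (hc₀v i) hc₀.le (norm_nonneg _)
    have h8 : ‖Complex.exp (2 * Real.pi * Complex.I * t - γ i * c) • v i‖ ≤ C₁ := by
      rw [h6]
      calc _ ≤ 1 * ‖v i‖ := mul_le_mul_of_nonneg_right h5 (norm_nonneg _)
        _ ≤ C₁ := by rw [one_mul]; exact hC₁v i
    rw [h2]
    constructor
    · have h9 := norm_sub_le_norm_add
        (Complex.exp (2 * Real.pi * Complex.I * t - γ i * c) • v i)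
        (L i (0, (ε : ℂ) • ex (Λ i) c u)).2.2
      linarith
    · have h9 := norm_add_le
        (Complex.exp (2 * Real.pi * Complex.I * t - γ i * c) • v i)
        (L i (0, (ε : ℂ) • ex (Λ i) c u)).2.2
      linarith
  have hshift : ∀ i (t c : ℝ) (u : W), tubeV (L i) (Λ i) (γ i) ε t c u =
      Tm ρ B ⌊c⌋ (tubeV (L i) (Λ i) (γ i) ε t (Int.fract c) u) := by
    intro i t c u
    rw [← tubeV_shift hρ0 hB (hL i) (hγ i)]
    congr 1
    exact (Int.fract_add_floor c).symm
  refine ⟨?_, ?_⟩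
  · intro i t c u hu
    have h1 := (hV i t (Int.fract c) u (Int.fract_nonneg c) (Int.fract_lt_one c).le hu).1
    rw [hshift]
    simp only [Tm]
    have h2 : (((ρ ^ ⌊c⌋ : ℝ)) : ℂ) ≠ 0 := by
      exact_mod_cast (zpow_pos hρ ⌊c⌋).ne'
    have h3 : (tubeV (L i) (Λ i) (γ i) ε t (Int.fract c) u).2.2 ≠ 0 := by
      rw [← norm_pos_iff]
      have : 0 < ρ * c₀ / 2 := by positivity
      linarith
    exact smul_ne_zero h2 h3
  · intro i t c u i' t' c' u' hu hu'
    constructor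
    · rintro ⟨m, x, hx, h⟩
      -- reduction to the fundamental domain
      set f := Int.fract c with hf
      set f' := Int.fract c' with hf'
      have hf0 : 0 ≤ f := Int.fract_nonneg c
      have hf1 : f < 1 := Int.fract_lt_one c
      have hf0' : 0 ≤ f' := Int.fract_nonneg c'
      have hf1' : f' < 1 := Int.fract_lt_one c'
      set m' := -⌊c'⌋ + m + ⌊c⌋ with hm'
      obtain ⟨x', hx', h1⟩ : ∃ x' ∈ S, tubeV (L i') (Λ i') (γ i') ε t' f' u' =
          Tm ρ B m' (tubeV (L i) (Λ i) (γ i) ε t f u) + ((fun a => (x'.1 a : ℂ)), x'.2, 0) := by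
        refine ⟨_, hST x hx (-⌊c'⌋), ?_⟩
        rw [hshift i' t' c' u', hshift i t c u] at h
        have h2 := congrArg (Tm ρ B (-⌊c'⌋)) h
        rw [Tm_add_right, ← Tm_add hρ0 hB, ← Tm_add hρ0 hB, ← Tm_add hρ0 hB,
          neg_add_cancel, Tm_zero] at h2
        rw [hm', h2]
        congr 1
        refine Prod.ext (funext fun a => ?_) (Prod.ext rfl ?_)
        · simp [Tm]
        · simp [Tm]
      have hTm : Tm ρ B m' (tubeV (L i) (Λ i) (γ i) ε t f u) =
          tubeV (L i) (Λ i) (γ i) ε t (f + m') u :=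
        (tubeV_shift hρ0 hB (hL i) (hγ i) ε t f u m').symm
      -- the power is bounded
      obtain ⟨a1, a2⟩ := hV i t f u hf0 hf1.le hu
      obtain ⟨a1', a2'⟩ := hV i' t' f' u' hf0' hf1'.le hu'
      have a3 : ‖(tubeV (L i') (Λ i') (γ i') ε t' f' u').2.2‖ =
          ρ ^ m' * ‖(tubeV (L i) (Λ i) (γ i) ε t f u).2.2‖ := by
        rw [h1]
        simp only [Tm, Prod.snd_add, add_zero]
        rw [norm_smul, Complex.norm_real, Real.norm_of_nonneg (zpow_pos hρ m').le]
      have hpz := zpow_pos hρ m'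
      have a4 : m' ≤ K := by
        apply hK
        rw [div_le_iff₀ (by positivity)]
        calc ρ * c₀ / 2 ≤ _ := a1'
          _ = _ := a3
          _ ≤ ρ ^ m' * (C₁ + 1) := mul_le_mul_of_nonneg_left a2 hpz.le
      have a5 : -m' ≤ K := by
        apply hK
        rw [div_le_iff₀ (by positivity), zpow_neg, inv_mul_eq_div, le_div_iff₀ hpz]
        calc ρ * c₀ / 2 * ρ ^ m' = ρ ^ m' * (ρ * c₀ / 2) := mul_comm _ _
          _ ≤ ρ ^ m' * ‖(tubeV (L i) (Λ i) (γ i) ε t f u).2.2‖ :=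
            mul_le_mul_of_nonneg_left a1 hpz.le
          _ = _ := a3.symm
          _ ≤ _ := a2'
      have a6 : |f + m'| ≤ K + 1 := by
        have b1 : (m' : ℝ) ≤ K := by exact_mod_cast a4
        have b2 : -(m' : ℝ) ≤ K := by exact_mod_cast a5
        rw [abs_le]
        constructor <;> linarith
      have a7 : |f'| ≤ K + 1 := by
        rw [abs_of_nonneg hf0']
        linarith
      -- the perturbations
      have p1 := hpert i (f + m') u a6 hu
      have p2 := hpert i' f' u' a7 hu'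
      rw [hTm] at h1
      have hs1 : tubeV (L i) (Λ i) (γ i) ε t (f + m') u =
          (0, 0, Complex.exp (2 * Real.pi * Complex.I * t - γ i * ((f + m' : ℝ) : ℂ)) • v i) +
            L i (0, (ε : ℂ) • ex (Λ i) ((f + m' : ℝ) : ℂ) u) := by
        rw [tubeV, hsplit]
      have hs2 : tubeV (L i') (Λ i') (γ i') ε t' f' u' =
          (0, 0, Complex.exp (2 * Real.pi * Complex.I * t' - γ i' * f') • v i') +
            L i' (0, (ε : ℂ) • ex (Λ i') f' u') := by
        rw [tubeV, hsplit]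
      -- no translation
      have hx0 : x' = 0 := by
        apply hS x' hx'
        refine lt_of_le_of_lt ?_ hε3
        have b1 : ‖(tubeV (L i) (Λ i) (γ i) ε t (f + m') u).1‖ ≤ ε * C := by
          rw [hs1, Prod.fst_add, zero_add]
          exact (norm_fst_le _).trans p1
        have b2 : ‖(tubeV (L i') (Λ i') (γ i') ε t' f' u').1‖ ≤ ε * C := by
          rw [hs2, Prod.fst_add, zero_add]
          exact (norm_fst_le _).trans p2
        have b3 : ‖(tubeV (L i) (Λ i) (γ i) ε t (f + m') u).2.1‖ ≤ ε * C := by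
          rw [hs1, Prod.snd_add, Prod.fst_add, zero_add]
          exact ((norm_fst_le _).trans (norm_snd_le _)).trans p1
        have b4 : ‖(tubeV (L i') (Λ i') (γ i') ε t' f' u').2.1‖ ≤ ε * C := by
          rw [hs2, Prod.snd_add, Prod.fst_add, zero_add]
          exact ((norm_fst_le _).trans (norm_snd_le _)).trans p2
        have b5 : (fun a => (x'.1 a : ℂ)) = (tubeV (L i') (Λ i') (γ i') ε t' f' u').1 -
            (tubeV (L i) (Λ i) (γ i) ε t (f + m') u).1 := by
          rw [h1]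
          simp
        have b6 : x'.2 = (tubeV (L i') (Λ i') (γ i') ε t' f' u').2.1 -
            (tubeV (L i) (Λ i) (γ i) ε t (f + m') u).2.1 := by
          rw [h1]
          simp
        have b7 : ‖(fun a => (x'.1 a : ℂ))‖ ≤ 2 * (ε * C) := by
          rw [b5]
          exact (norm_sub_le _ _).trans (by linarith)
        rw [Prod.norm_def]
        refine max_le ?_ ?_
        · rw [pi_norm_le_iff_of_nonneg (by positivity)]
          intro a
          have b8 := (norm_le_pi_norm (fun a => (x'.1 a : ℂ)) a).trans b7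
          simpa using b8
        · rw [b6]
          exact (norm_sub_le _ _).trans (by linarith)
      have h2 : tubeV (L i') (Λ i') (γ i') ε t' f' u' =
          tubeV (L i) (Λ i) (γ i) ε t (f + m') u := by
        rw [h1, hx0]
        have h3 : (((fun a => (((0 : (Fin 1 → ℝ) × (Fin b → ℂ)).1 a : ℝ) : ℂ)),
            (0 : (Fin 1 → ℝ) × (Fin b → ℂ)).2, (0 : Fin n → ℂ)) :
            (Fin 1 → ℂ) × (Fin b → ℂ) × (Fin n → ℂ)) = 0 := by
          refine Prod.ext (funext fun a => ?_) rfl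
          simp
        rw [h3, add_zero]
      -- the same tube
      have hii : i' = i := by
        by_contra hne
        have b1 := hκb i i' (fun h => hne h.symm)
          (Complex.exp (2 * Real.pi * Complex.I * t - γ i * ((f + m' : ℝ) : ℂ)))
          (Complex.exp (2 * Real.pi * Complex.I * t' - γ i' * f'))
        have b2 := (hexp i' t' f' hf0' hf1'.le).1
        have b3 : Complex.exp (2 * Real.pi * Complex.I * t' - γ i' * f') • v i' -
            Complex.exp (2 * Real.pi * Complex.I * t - γ i * ((f + m' : ℝ) : ℂ)) • v i =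
            (L i (0, (ε : ℂ) • ex (Λ i) ((f + m' : ℝ) : ℂ) u)).2.2 -
              (L i' (0, (ε : ℂ) • ex (Λ i') f' u')).2.2 := by
          have b4 := congrArg (fun w => w.2.2) h2
          rw [hs1, hs2] at b4
          simp only [Prod.snd_add] at b4
          rw [sub_eq_sub_iff_add_eq_add, b4]
          abel
        rw [b3] at b1
        have b5 : ‖(L i (0, (ε : ℂ) • ex (Λ i) ((f + m' : ℝ) : ℂ) u)).2.2 -
              (L i' (0, (ε : ℂ) • ex (Λ i') f' u')).2.2‖ ≤ 2 * (ε * C) := by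
          have c1 := ((norm_snd_le (L i (0, (ε : ℂ) • ex (Λ i) ((f + m' : ℝ) : ℂ) u)).2).trans
            (norm_snd_le _)).trans p1
          have c2 := ((norm_snd_le (L i' (0, (ε : ℂ) • ex (Λ i') f' u')).2).trans
            (norm_snd_le _)).trans p2
          exact (norm_sub_le _ _).trans (by linarith)
        have b6 := mul_le_mul_of_nonneg_left b5 hκ.le
        linarith
      subst hii
      have h3 := (L i').injective h2
      have h4 := congrArg Prod.fst h3
      have h5 := congrArg Prod.snd h3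
      simp only at h4 h5
      have hg := re_pos_of hρ hρ1 (hγ i')
      have h6 : f' = f + m' := by
        have b1 := congrArg norm h4
        rw [norm_exp_tube, norm_exp_tube] at b1
        have b2 := Real.exp_injective b1
        have b3 : (γ i').re * f' = (γ i').re * (f + m') := by linarith
        exact mul_left_cancel₀ hg.ne' b3
      rw [← h6] at h4 h5
      refine ⟨rfl, ?_, ?_, ?_⟩
      · obtain ⟨k, hk⟩ := Complex.exp_eq_exp_iff_exists_int.1 h4
        refine ⟨k, ?_⟩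
        have b1 : (2 * Real.pi * Complex.I) * (t' : ℂ) = (2 * Real.pi * Complex.I) * (t + k) := by
          linear_combination hk
        have b2 : (2 * Real.pi * Complex.I : ℂ) ≠ 0 := Complex.two_pi_I_ne_zero
        have b3 := mul_left_cancel₀ b2 b1
        exact_mod_cast b3
      · refine ⟨m, ?_⟩
        have b1 : c' = ⌊c'⌋ + f' := (Int.floor_add_fract c').symm
        have b2 : c = ⌊c⌋ + f := (Int.floor_add_fract c).symm
        have b3 : (m' : ℝ) = -⌊c'⌋ + m + ⌊c⌋ := by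
          rw [hm']
          push_cast
          ring
        linarith
      · have hεc : (ε : ℂ) ≠ 0 := by exact_mod_cast hε.ne'
        have b1 := smul_right_injective W hεc h5
        have b2 := congrArg (ex (Λ i') (-(f' : ℂ))) b1
        rwa [ex_neg_apply, ex_neg_apply] at b2
    · rintro ⟨rfl, ⟨k, rfl⟩, ⟨k', rfl⟩, rfl⟩
      refine ⟨k', 0, hS0, ?_⟩
      rw [tubeV_shift_t, tubeV_shift hρ0 hB (hL i') (hγ i')]
      have h1 : (((fun a => (((0 : (Fin 1 → ℝ) × (Fin b → ℂ)).1 a : ℝ) : ℂ)),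
          (0 : (Fin 1 → ℝ) × (Fin b → ℂ)).2, (0 : Fin n → ℂ)) :
          (Fin 1 → ℂ) × (Fin b → ℂ) × (Fin n → ℂ)) = 0 := by
        refine Prod.ext (funext fun a => ?_) rfl
        simp
      rw [h1, add_zero]

end TubB

end Pool.Agent.WallC
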