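import Pool.Agent.Lib.MP_1d980c_gt.Wall.TubB
import Pool.Agent.Lib.MP_1d980c_gt.Wall.ProdH
import Pool.Agent.Lib.MP_1d980c_gt.Wall.SphX

/-! The developing map of `N × S^(2n)` for a mapping torus `N`. -/

set_option autoImplicit false
set_option linter.deprecated false
open Topology Set Module
open scoped ContDiff Manifold Matrix RealInnerProductSpace
open Metric (sphere)

namespace Pool.Agent.WallC

section TubC

variable {b n d D : ℕ} (ρ : ℝ)
    (ι : EuclideanSpace ℝ (Fin (d + 1)) ≃L[ℝ] (Fin 1 → ℝ) × (Fin n → ℂ))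

/-- The developing map `(x, s) ↦ ρ^s ι(x)` of `S^(2n) × ℝ`. -/
noncomputable def scalPsi (y : sphere (0 : EuclideanSpace ℝ (Fin (d + 1))) 1 × (Fin 1 → ℝ)) :
    (Fin 1 → ℝ) × (Fin n → ℂ) := Real.exp (y.2 0 * Real.log ρ) • ι y.1.1

lemma scalPsi_eq : scalPsi ρ ι =
    sphPsi (Real.log ρ • (1 : EuclideanSpace ℝ (Fin (d + 1)) →L[ℝ] _)) ι := by
  funext y
  have h1 : rex (Real.log ρ • (1 : EuclideanSpace ℝ (Fin (d + 1)) →L[ℝ] _)) (y.2 0) =
      Real.exp (y.2 0 * Real.log ρ) • (1 : EuclideanSpace ℝ (Fin (d + 1)) →L[ℝ] _) := by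
    rw [rex, smul_smul, Real.exp_eq_exp_ℝ, ← Algebra.algebraMap_eq_smul_one,
      ← Algebra.algebraMap_eq_smul_one]
    exact (NormedSpace.algebraMap_exp_comm _).symm
  rw [sphPsi, h1, scalPsi]
  simp

variable {ρ}

lemma scalPsi_shift (hρ : 0 < ρ) (x : sphere (0 : EuclideanSpace ℝ (Fin (d + 1))) 1)
    (s : Fin 1 → ℝ) (m : ℤ) :
    scalPsi ρ ι (x, s + fun _ => (m : ℝ)) = (ρ ^ m : ℝ) • scalPsi ρ ι (x, s) := by
  simp only [scalPsi, Pi.add_apply, smul_smul]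
  congr 1
  rw [add_mul, Real.exp_add, mul_comm]
  congr 1
  rw [← Real.rpow_intCast, Real.rpow_def_of_pos hρ]
  congr 1
  ring

/-- The developing map of `N × S^(2n)` is injective. -/
lemma devS_inj (hρ : 0 < ρ) (hρ1 : ρ < 1) :
    Function.Injective (devG (β := Fin b) (scalPsi ρ ι)) := by
  rintro ⟨⟨p, z, s⟩, x⟩ ⟨⟨p', z', s'⟩, x'⟩ h
  have h1 := (mixC (α := Fin 1) (β := Fin b) (ν := Fin n)).injective h
  have h2 : p = p' := congrArg (fun w => w.1.1) h1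
  have h3 : z = z' := congrArg (fun w => w.1.2) h1
  have h4 : Real.exp (s 0 * Real.log ρ) • ι x.1 = Real.exp (s' 0 * Real.log ρ) • ι x'.1 :=
    congrArg (fun w => w.2) h1
  rw [← map_smul, ← map_smul] at h4
  have h5 := ι.injective h4
  have hx : ‖(x.1 : EuclideanSpace ℝ (Fin (d + 1)))‖ = 1 := by
    have := x.2
    rwa [mem_sphere_zero_iff_norm] at this
  have hx' : ‖(x'.1 : EuclideanSpace ℝ (Fin (d + 1)))‖ = 1 := by
    have := x'.2
    rwa [mem_sphere_zero_iff_norm] at this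
  have h6 : Real.exp (s 0 * Real.log ρ) = Real.exp (s' 0 * Real.log ρ) := by
    have h7 := congrArg norm h5
    rwa [norm_smul, norm_smul, hx, hx', mul_one, mul_one, Real.norm_of_nonneg (Real.exp_pos _).le,
      Real.norm_of_nonneg (Real.exp_pos _).le] at h7
  have h8 : s 0 = s' 0 := by
    have hlog : Real.log ρ ≠ 0 := (Real.log_neg hρ hρ1).ne
    exact mul_right_cancel₀ hlog (Real.exp_injective h6)
  have h9 : s = s' := by
    funext i
    rw [Subsingleton.elim i 0]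
    exact h8
  have h10 : x.1 = x'.1 := by
    rw [h6] at h5
    exact smul_right_injective _ (Real.exp_pos _).ne' h5
  rw [h2, h3, h9, Subtype.ext h10]

/-- The developing map of `N × S^(2n)` hits all points with `v ≠ 0`. -/
lemma devS_surj (hρ : 0 < ρ) (hρ1 : ρ < 1) (w : (Fin 1 → ℂ) × (Fin b → ℂ) × (Fin n → ℂ))
    (hw : w.2.2 ≠ 0) : ∃ p, devG (β := Fin b) (scalPsi ρ ι) p = w := by
  set y : (Fin 1 → ℝ) × (Fin n → ℂ) := (fun a => (w.1 a).im, w.2.2) with hy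
  have hY : ι.symm y ≠ 0 := by
    intro h
    have h1 : y = 0 := (map_eq_zero_iff ι.symm ι.symm.injective).1 h
    exact hw (congrArg Prod.snd h1)
  have hR : 0 < ‖ι.symm y‖ := norm_pos_iff.2 hY
  have hx : ‖‖ι.symm y‖⁻¹ • ι.symm y‖ = 1 := by
    rw [norm_smul, norm_inv, norm_norm, inv_mul_cancel₀ hR.ne']
  have hlog : Real.log ρ ≠ 0 := (Real.log_neg hρ hρ1).ne
  refine ⟨((fun a => (w.1 a).re, w.2.1, fun _ => Real.log ‖ι.symm y‖ / Real.log ρ),
    ⟨‖ι.symm y‖⁻¹ • ι.symm y, by rwa [mem_sphere_zero_iff_norm]⟩), ?_⟩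
  have h1 : scalPsi ρ ι ((⟨‖ι.symm y‖⁻¹ • ι.symm y, by rwa [mem_sphere_zero_iff_norm]⟩ :
      sphere (0 : EuclideanSpace ℝ (Fin (d + 1))) 1),
      fun _ => Real.log ‖ι.symm y‖ / Real.log ρ) = y := by
    simp only [scalPsi]
    rw [div_mul_cancel₀ _ hlog, Real.exp_log hR, map_smul, smul_smul,
      mul_inv_cancel₀ hR.ne', one_smul, ι.apply_symm_apply]
  simp only [devG]
  rw [h1]
  refine Prod.ext (funext fun a => ?_) rfl
  simp only [mixE, hy]
  rw [mul_comm]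
  exact Complex.re_add_im _

lemma devS_shift (hρ : 0 < ρ) (B : Matrix (Fin b) (Fin b) ℂ) (m : ℤ)
    (c : (Fin 1 → ℝ) × (Fin b → ℂ)) (q : (Fin 1 → ℝ) × (Fin b → ℂ) × (Fin 1 → ℝ))
    (x : sphere (0 : EuclideanSpace ℝ (Fin (d + 1))) 1) :
    devG (scalPsi ρ ι) (((ρ ^ m : ℝ) • q.1 + c.1, B ^ m *ᵥ q.2.1 + c.2,
      q.2.2 + fun _ => (m : ℝ)), x) =
      Tm ρ B m (devG (scalPsi ρ ι) (q, x)) + ((fun a => (c.1 a : ℂ)), c.2, 0) := by
  simp only [devG]
  rw [scalPsi_shift ι hρ]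
  refine Prod.ext (funext fun a => ?_) (Prod.ext rfl ?_)
  · simp only [mixE, Tm, Prod.fst_add, Pi.add_apply, Pi.smul_apply, smul_eq_mul, Prod.smul_fst]
    push_cast
    ring
  · simp only [mixE, Tm, Prod.snd_add, Prod.smul_snd, add_zero]
    rw [Complex.coe_smul]

end TubC

end Pool.Agent.WallC
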