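import Pool.Agent.Lib.MP_1d980c_gt.Wall.TubC
import Pool.Agent.Lib.MP_1d980c_gt.Wall.Surg

/-! The complex structure of `N × S^(2n)` for a mapping torus `N`, its tubes and their surgeries. -/

set_option autoImplicit false
set_option linter.deprecated false
open Topology Set Module
open scoped ContDiff Manifold Matrix RealInnerProductSpace
open Metric (sphere)

namespace Pool.Agent.WallC

section TubD

variable {b n d D : ℕ} {ρ : ℝ}
    (ι : EuclideanSpace ℝ (Fin (d + 1)) ≃L[ℝ] (Fin 1 → ℝ) × (Fin n → ℂ))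
    {EN HN N : Type} [NormedAddCommGroup EN] [NormedSpace ℝ EN]
    [FiniteDimensional ℝ EN] [TopologicalSpace HN] {IN : ModelWithCorners ℝ EN HN}
    [IN.Boundaryless] [TopologicalSpace N] [ChartedSpace HN N] [IsManifold IN ∞ N]

lemma scalPsi_contMDiff : ContMDiff ((𝓡 d).prod 𝓘(ℝ, Fin 1 → ℝ))
    𝓘(ℝ, (Fin 1 → ℝ) × (Fin n → ℂ)) ∞ (scalPsi ρ ι) := by
  rw [scalPsi_eq]
  exact sphPsi_contMDiff _ ι

lemma scalPsi_bij (hρ : 0 < ρ) (hρ1 : ρ < 1)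
    (y : sphere (0 : EuclideanSpace ℝ (Fin (d + 1))) 1 × (Fin 1 → ℝ)) :
    Function.Bijective (mfderiv ((𝓡 d).prod 𝓘(ℝ, Fin 1 → ℝ))
      𝓘(ℝ, (Fin 1 → ℝ) × (Fin n → ℂ)) (scalPsi ρ ι) y) := by
  rw [scalPsi_eq]
  refine sphPsi_bij _ ι ?_ y
  intro x hx
  have h1 : (Real.log ρ • (1 : EuclideanSpace ℝ (Fin (d + 1)) →L[ℝ] _)) x =
      Real.log ρ • x := by simp
  rw [h1, inner_smul_right, real_inner_self_eq_norm_sq]
  have h2 := Real.log_neg hρ hρ1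
  have h3 : 0 < ‖x‖ ^ 2 := by
    have := norm_pos_iff.2 hx
    positivity
  exact mul_neg_of_neg_of_pos h2 h3

/-- The complex structure on `N × S^(2n)`. -/
theorem scal_complex (hρ : 0 < ρ) (hρ1 : ρ < 1) {B : Matrix (Fin b) (Fin b) ℂ}
    (hB : IsUnit B.det) (S : Set ((Fin 1 → ℝ) × (Fin b → ℂ)))
    (πN : (Fin 1 → ℝ) × (Fin b → ℂ) × (Fin 1 → ℝ) → N)
    (hπ : IsLocalDiffeomorph 𝓘(ℝ, (Fin 1 → ℝ) × (Fin b → ℂ) × (Fin 1 → ℝ)) IN ∞ πN)
    (hs : Function.Surjective πN)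
    (hN : ∀ q q', πN q = πN q' ↔ ∃ m : ℤ, ∃ c ∈ S,
      q' = ((ρ ^ m : ℝ) • q.1 + c.1, B ^ m *ᵥ q.2.1 + c.2, q.2.2 + fun _ => (m : ℝ)))
    (E : ((Fin 1 → ℂ) × (Fin b → ℂ) × (Fin n → ℂ)) ≃L[ℂ] EuclideanSpace ℂ (Fin D)) :
    ∃ (N' : Type) (_ : TopologicalSpace N') (_ : ChartedSpace (EuclideanSpace ℂ (Fin D)) N'),
      IsManifold 𝓘(ℂ, EuclideanSpace ℂ (Fin D)) ∞ N' ∧
      ∃ φ : Diffeomorph (IN.prod (𝓡 d)) 𝓘(ℝ, EuclideanSpace ℂ (Fin D))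
        (N × sphere (0 : EuclideanSpace ℝ (Fin (d + 1))) 1) N' ∞,
        ∀ p : ((Fin 1 → ℝ) × (Fin b → ℂ) × (Fin 1 → ℝ)) ×
          sphere (0 : EuclideanSpace ℝ (Fin (d + 1))) 1,
        ∃ σ : (Fin 1 → ℂ) × (Fin b → ℂ) × (Fin n → ℂ) → N',
          ContMDiffAt 𝓘(ℂ, (Fin 1 → ℂ) × (Fin b → ℂ) × (Fin n → ℂ))
            𝓘(ℂ, EuclideanSpace ℂ (Fin D)) ∞ σ (devG (scalPsi ρ ι) p) ∧
          ∀ᶠ p' in 𝓝 p, φ (πN p'.1, p'.2) = σ (devG (scalPsi ρ ι) p') := by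
  have hBu : IsUnit B := (Matrix.isUnit_iff_isUnit_det B).2 hB
  have hBm : ∀ m : ℤ, IsUnit (B ^ m).det := fun m => hB.det_zpow m
  refine prod_complex (I := ℤ × {c : (Fin 1 → ℝ) × (Fin b → ℂ) // c ∈ S}) (scalPsi ρ ι) E
    (fun i => (ρ ^ i.1 : ℝ) • (1 : Matrix (Fin 1) (Fin 1) ℝ)) (fun i => i.2.1.1)
    (fun i =>
      { toFun := fun z => B ^ i.1 *ᵥ z + i.2.1.2
        invFun := fun z => (B ^ i.1)⁻¹ *ᵥ (z - i.2.1.2)
        left_inv := fun z => by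
          simp [Matrix.mulVec_mulVec, Matrix.nonsing_inv_mul _ (hBm i.1)]
        right_inv := fun z => by
          simp [Matrix.mulVec_mulVec, Matrix.mul_nonsing_inv _ (hBm i.1)] })
    (fun i _ => (i.1 : ℝ))
    (fun i => ((ρ ^ i.1 : ℝ) : ℂ) • (1 : Matrix (Fin n) (Fin n) ℂ)) ?_ ?_ ?_
    (scalPsi_contMDiff ι) (scalPsi_bij ι hρ hρ1) ?_ πN hπ hs ?_
  · intro i
    rw [Matrix.det_smul, Matrix.det_one, mul_one]
    exact (pow_ne_zero _ (zpow_pos hρ i.1).ne').isUnit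
  · intro i
    have h : ∀ (Q : Matrix (Fin b) (Fin b) ℂ), ContDiff ℂ ∞ fun w : Fin b → ℂ => Q *ᵥ w :=
      fun Q => (LinearMap.toContinuousLinearMap Q.mulVecLin).contDiff
    exact ⟨(h _).add contDiff_const, (h _).comp (contDiff_id.sub contDiff_const)⟩
  · intro i
    rw [Matrix.det_smul, Matrix.det_one, mul_one]
    refine (pow_ne_zero _ ?_).isUnit
    exact_mod_cast (zpow_pos hρ i.1).ne'
  · intro i x s
    rw [scalPsi_shift ι hρ, Matrix.smul_mulVec, Matrix.one_mulVec, Matrix.smul_mulVec,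
      Matrix.one_mulVec]
    refine Prod.ext rfl ?_
    rw [Complex.coe_smul]
    rfl
  · intro q q'
    constructor
    · intro h
      obtain ⟨m, c, hc, rfl⟩ := (hN q q').1 h
      refine Relation.EqvGen.rel _ _ ?_
      have h1 := GStep.gen (k := 1)
        (A := fun i : ℤ × {c : (Fin 1 → ℝ) × (Fin b → ℂ) // c ∈ S} =>
          (ρ ^ i.1 : ℝ) • (1 : Matrix (Fin 1) (Fin 1) ℝ))
        (τ := fun i => i.2.1.1) (f := fun i z => B ^ i.1 *ᵥ z + i.2.1.2)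
        (e := fun i _ => (i.1 : ℝ)) (m, ⟨c, hc⟩) q.1 q.2.1 q.2.2
      simp only [Matrix.smul_mulVec, Matrix.one_mulVec] at h1
      exact h1
    · intro h
      induction h with
      | rel q q' hs =>
        cases hs with
        | gen i p z s =>
          refine (hN _ _).2 ⟨i.1, i.2.1, i.2.2, ?_⟩
          simp only [Matrix.smul_mulVec, Matrix.one_mulVec]
          rfl
      | refl q => rfl
      | symm q q' _ ih => exact ih.symm
      | trans q q' q'' _ _ ih1 ih2 => exact ih1.trans ih2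

end TubD

end Pool.Agent.WallC
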