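import Pool.Agent.Lib.MP_1d980c_gt.Wall.TubD

/-! Tubes in `N × S^(2n)` and their surgeries. -/

set_option autoImplicit false
set_option linter.deprecated false
open Topology Set Module
open scoped ContDiff Manifold Matrix RealInnerProductSpace
open Metric (sphere)

namespace Pool.Agent.WallC

section TubE

variable {b n d D r m : ℕ} {ρ : ℝ} {W : Type} [NormedAddCommGroup W] [InnerProductSpace ℂ W]
    [FiniteDimensional ℂ W]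
    (ι : EuclideanSpace ℝ (Fin (d + 1)) ≃L[ℝ] (Fin 1 → ℝ) × (Fin n → ℂ))
    {EN HN N : Type} [NormedAddCommGroup EN] [NormedSpace ℝ EN]
    [FiniteDimensional ℝ EN] [TopologicalSpace HN] {IN : ModelWithCorners ℝ EN HN}
    [IN.Boundaryless] [TopologicalSpace N] [ChartedSpace HN N] [IsManifold IN ∞ N]

/-- The holomorphic tubes in the complex manifold `N'` diffeomorphic to `N × S^(2n)`. -/
theorem exists_tubes (hρ : 0 < ρ) (hρ1 : ρ < 1) {B : Matrix (Fin b) (Fin b) ℂ}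
    (hB : IsUnit B.det) (S : Set ((Fin 1 → ℝ) × (Fin b → ℂ)))
    (hSd : ∃ δ > 0, ∀ x ∈ S, ‖x‖ < δ → x = 0) (hS0 : (0 : (Fin 1 → ℝ) × (Fin b → ℂ)) ∈ S)
    (hST : ∀ x ∈ S, ∀ m : ℤ, ((ρ ^ m • x.1, B ^ m *ᵥ x.2) : (Fin 1 → ℝ) × (Fin b → ℂ)) ∈ S)
    (πN : (Fin 1 → ℝ) × (Fin b → ℂ) × (Fin 1 → ℝ) → N)
    (hN : ∀ q q', πN q = πN q' ↔ ∃ m : ℤ, ∃ c ∈ S,
      q' = ((ρ ^ m : ℝ) • q.1 + c.1, B ^ m *ᵥ q.2.1 + c.2, q.2.2 + fun _ => (m : ℝ)))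
    (E : ((Fin 1 → ℂ) × (Fin b → ℂ) × (Fin n → ℂ)) ≃L[ℂ] EuclideanSpace ℂ (Fin D))
    {N' : Type} [TopologicalSpace N'] [ChartedSpace (EuclideanSpace ℂ (Fin D)) N']
    (φ : N × sphere (0 : EuclideanSpace ℝ (Fin (d + 1))) 1 ≃ N')
    (hφ : ∀ p : ((Fin 1 → ℝ) × (Fin b → ℂ) × (Fin 1 → ℝ)) ×
          sphere (0 : EuclideanSpace ℝ (Fin (d + 1))) 1,
        ∃ σ : (Fin 1 → ℂ) × (Fin b → ℂ) × (Fin n → ℂ) → N',
          ContMDiffAt 𝓘(ℂ, (Fin 1 → ℂ) × (Fin b → ℂ) × (Fin n → ℂ))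
            𝓘(ℂ, EuclideanSpace ℂ (Fin D)) ∞ σ (devG (scalPsi ρ ι) p) ∧
          ∀ᶠ p' in 𝓝 p, φ (πN p'.1, p'.2) = σ (devG (scalPsi ρ ι) p'))
    (γ : Fin r → ℂ) (hγ : ∀ i, Complex.exp (-γ i) = ρ) (Λ : Fin r → W →L[ℂ] W)
    (L : Fin r → (ℂ × W) ≃L[ℂ] ((Fin 1 → ℂ) × (Fin b → ℂ) × (Fin n → ℂ)))
    (hL : ∀ i (z : ℂ) (U : W), L i ((ρ : ℂ) * z, ex (Λ i) 1 U) = Tm ρ B 1 (L i (z, U)))
    (v : Fin r → Fin n → ℂ) (hv : ∀ i, L i (1, 0) = (0, 0, v i)) (hv0 : ∀ i, v i ≠ 0)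
    (hind : ∀ i i' (z z' : ℂ), i ≠ i' → z • v i = z' • v i' → z = 0 ∧ z' = 0) :
    ∃ ε₀ > 0, ∀ ε, 0 < ε → ε < ε₀ → ∃ F : Fin r → ℂ × W → N',
      (∀ i t c u, ‖u‖ < 1 → ContMDiffAt 𝓘(ℂ, ℂ × W) 𝓘(ℂ, EuclideanSpace ℂ (Fin D)) ∞ (F i)
        (tubeZ (γ i) (Λ i) t c u)) ∧
      (∀ i t c u p, devG (scalPsi ρ ι) p = tubeV (L i) (Λ i) (γ i) ε t c u →
        F i (tubeZ (γ i) (Λ i) t c u) = φ (πN p.1, p.2)) ∧
      (∀ i t c u, ‖u‖ < 1 → ∃ p, devG (scalPsi ρ ι) p = tubeV (L i) (Λ i) (γ i) ε t c u) ∧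
      ∀ i t c u i' t' c' u', ‖u‖ < 1 → ‖u'‖ < 1 →
        (F i (tubeZ (γ i) (Λ i) t c u) = F i' (tubeZ (γ i') (Λ i') t' c' u') ↔
          i' = i ∧ (∃ k : ℤ, t' = t + k) ∧ (∃ k : ℤ, c' = c + k) ∧ u' = u) := by
  obtain ⟨ε₀, hε₀, hsep⟩ := tube_sep hρ hρ1 hB S hSd hS0 hST γ hγ Λ L hL v hv hv0 hind
  refine ⟨ε₀, hε₀, fun ε hε hε1 => ?_⟩
  obtain ⟨hne, hfib⟩ := hsep ε hε hε1
  have hinj := devS_inj (b := b) ι hρ hρ1
  -- the point of the sphere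
  have hnonempty : Nonempty (((Fin 1 → ℝ) × (Fin b → ℂ) × (Fin 1 → ℝ)) ×
      sphere (0 : EuclideanSpace ℝ (Fin (d + 1))) 1) := by
    have h : (sphere (0 : EuclideanSpace ℝ (Fin (d + 1))) 1).Nonempty :=
      NormedSpace.sphere_nonempty.2 zero_le_one
    exact ⟨(0, ⟨h.some, h.some_mem⟩)⟩
  set G : (Fin 1 → ℂ) × (Fin b → ℂ) × (Fin n → ℂ) → N' := fun w =>
    φ (πN (Function.invFun (devG (β := Fin b) (scalPsi ρ ι)) w).1,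
      (Function.invFun (devG (β := Fin b) (scalPsi ρ ι)) w).2) with hG
  have hGd : ∀ p, G (devG (scalPsi ρ ι) p) = φ (πN p.1, p.2) := by
    intro p
    simp only [hG]
    rw [Function.leftInverse_invFun hinj p]
  have hGh : ∀ p, ContMDiffAt 𝓘(ℂ, (Fin 1 → ℂ) × (Fin b → ℂ) × (Fin n → ℂ))
      𝓘(ℂ, EuclideanSpace ℂ (Fin D)) ∞ G (devG (scalPsi ρ ι) p) := by
    intro p
    obtain ⟨σ, hσ1, hσ2⟩ := hφ p
    refine hσ1.congr_of_eventuallyEq ?_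
    have h1 : 𝓝 (E (devG (scalPsi ρ ι) p)) ≤
        Filter.map (fun p => E (devG (scalPsi ρ ι) p)) (𝓝 p) :=
      nhds_le_map_of_bij
        (devG_contMDiff (scalPsi ρ ι) E (scalPsi_contMDiff ι) p)
        (devG_bij (scalPsi ρ ι) E (scalPsi_contMDiff ι) (scalPsi_bij ι hρ hρ1) p)
    have h2 : ∀ᶠ w in 𝓝 (E (devG (scalPsi ρ ι) p)), G (E.symm w) = σ (E.symm w) := by
      refine h1 ?_
      change ∀ᶠ p' in 𝓝 p, G (E.symm (E (devG (scalPsi ρ ι) p'))) =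
        σ (E.symm (E (devG (scalPsi ρ ι) p')))
      filter_upwards [hσ2] with p' hp'
      rw [E.symm_apply_apply, hGd, hp']
    have h3 : Filter.Tendsto E (𝓝 (devG (scalPsi ρ ι) p)) (𝓝 (E (devG (scalPsi ρ ι) p))) :=
      E.continuous.continuousAt
    filter_upwards [h3.eventually h2] with w hw
    rwa [E.symm_apply_apply] at hw
  have hex : ∀ i t c u, ‖u‖ < 1 →
      ∃ p, devG (scalPsi ρ ι) p = tubeV (L i) (Λ i) (γ i) ε t c u := fun i t c u hu =>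
    devS_surj ι hρ hρ1 _ (hne i t c u hu)
  have hFv : ∀ i t c u, G (L i (Complex.exp (tubeZ (γ i) (Λ i) t c u).1,
      (ε : ℂ) • (tubeZ (γ i) (Λ i) t c u).2)) = G (tubeV (L i) (Λ i) (γ i) ε t c u) :=
    fun i t c u => rfl
  refine ⟨fun i w => G (L i (Complex.exp w.1, (ε : ℂ) • w.2)), ?_, ?_, hex, ?_⟩
  · intro i t c u hu
    obtain ⟨p, hp⟩ := hex i t c u hu
    have h1 : ContMDiffAt 𝓘(ℂ, (Fin 1 → ℂ) × (Fin b → ℂ) × (Fin n → ℂ))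
        𝓘(ℂ, EuclideanSpace ℂ (Fin D)) ∞ G
        (L i (Complex.exp (tubeZ (γ i) (Λ i) t c u).1,
          (ε : ℂ) • (tubeZ (γ i) (Λ i) t c u).2)) := by
      have h2 := hGh p
      rw [hp] at h2
      exact h2
    have h3 : ContDiff ℂ ∞ fun w : ℂ × W => L i (Complex.exp w.1, (ε : ℂ) • w.2) :=
      (L i).contDiff.comp (contDiff_fst.cexp.prodMk (contDiff_snd.const_smul (ε : ℂ)))
    exact ContMDiffAt.comp (g := G)
      (f := fun w : ℂ × W => L i (Complex.exp w.1, (ε : ℂ) • w.2)) _ h1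
      h3.contMDiff.contMDiffAt
  · intro i t c u p hp
    simp only
    rw [hFv, ← hp, hGd]
  · intro i t c u i' t' c' u' hu hu'
    obtain ⟨p, hp⟩ := hex i t c u hu
    obtain ⟨p', hp'⟩ := hex i' t' c' u' hu'
    rw [← hfib i t c u i' t' c' u' hu hu']
    simp only
    rw [hFv, hFv, ← hp, ← hp', hGd, hGd, φ.injective.eq_iff, Prod.mk.injEq, hN]
    constructor
    · rintro ⟨⟨k, x, hx, h1⟩, h2⟩
      refine ⟨k, x, hx, ?_⟩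
      rw [← devS_shift ι hρ B k x p.1 p.2, ← h1, h2]
    · rintro ⟨k, x, hx, h⟩
      have h1 := devS_shift ι hρ B k x p.1 p.2
      have h2 : p' = (((ρ ^ k : ℝ) • p.1.1 + x.1, B ^ k *ᵥ p.1.2.1 + x.2,
          p.1.2.2 + fun _ => (k : ℝ)), p.2) := by
        apply hinj
        rw [h, h1]
      exact ⟨⟨k, x, hx, congrArg Prod.fst h2⟩, (congrArg Prod.snd h2).symm⟩

end TubE

end Pool.Agent.WallC
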