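import Mathlib

/-! Positive logarithms of `(ρ, B, ρ)` for diagonal `B`. -/

set_option autoImplicit false
set_option linter.deprecated false
open Topology Set Module
open scoped ContDiff Manifold Matrix InnerProductSpace

namespace Pool.Agent.WallC

section TubF

/-- The exponential of a diagonal operator. -/
lemma exp_diagOp {k : ℕ} (x : Fin k → ℂ) (U : EuclideanSpace ℂ (Fin k)) (j : Fin k) :
    (NormedSpace.exp (Matrix.toEuclideanCLM (n := Fin k) (𝕜 := ℂ) (Matrix.diagonal x)) U) j =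
      Complex.exp (x j) * U j := by
  let f : (Fin k → ℂ) →+* (EuclideanSpace ℂ (Fin k) →L[ℂ] EuclideanSpace ℂ (Fin k)) :=
    ((Matrix.toEuclideanCLM (n := Fin k) (𝕜 := ℂ) :
      Matrix (Fin k) (Fin k) ℂ ≃⋆ₐ[ℂ] _) : Matrix (Fin k) (Fin k) ℂ →+* _).comp
      (Matrix.diagonalRingHom (Fin k) ℂ)
  have hf : Continuous f := by
    let g : (Fin k → ℂ) →ₗ[ℂ] (EuclideanSpace ℂ (Fin k) →L[ℂ] EuclideanSpace ℂ (Fin k)) :=
      { toFun := f
        map_add' := map_add f
        map_smul' := fun c y => by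
          change Matrix.toEuclideanCLM (n := Fin k) (𝕜 := ℂ) (Matrix.diagonal (c • y)) =
            c • Matrix.toEuclideanCLM (n := Fin k) (𝕜 := ℂ) (Matrix.diagonal y)
          rw [Matrix.diagonal_smul, map_smul] }
    exact g.continuous_of_finiteDimensional
  have h1 : f (NormedSpace.exp x) = NormedSpace.exp (f x) := NormedSpace.map_exp f hf x
  have h2 : NormedSpace.exp (Matrix.toEuclideanCLM (n := Fin k) (𝕜 := ℂ) (Matrix.diagonal x)) =
      Matrix.toEuclideanCLM (n := Fin k) (𝕜 := ℂ) (Matrix.diagonal (NormedSpace.exp x)) := h1.symm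
  rw [h2]
  change (Matrix.diagonal (NormedSpace.exp x) *ᵥ (U : Fin k → ℂ)) j = _
  rw [Matrix.mulVec_diagonal, Pi.coe_exp, Complex.exp_eq_exp_ℂ]

/-- Diagonal operators with eigenvalues in the left half plane. -/
lemma diagOp_neg {k : ℕ} (x : Fin k → ℂ) (c : ℂ) (hx : ∀ j, (c * x j).re < 0)
    (u : EuclideanSpace ℂ (Fin k)) (hu : u ≠ 0) :
    (inner ℂ u (c • Matrix.toEuclideanCLM (n := Fin k) (𝕜 := ℂ) (Matrix.diagonal x) u)).re < 0 := by
  have h1 : ∀ j, (c • Matrix.toEuclideanCLM (n := Fin k) (𝕜 := ℂ) (Matrix.diagonal x) u) j =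
      c * x j * u j := by
    intro j
    change c * (Matrix.diagonal x *ᵥ (u : Fin k → ℂ)) j = _
    rw [Matrix.mulVec_diagonal, mul_assoc]
  have h2 : inner ℂ u (c • Matrix.toEuclideanCLM (n := Fin k) (𝕜 := ℂ) (Matrix.diagonal x) u) =
      ∑ j, c * x j * (Complex.normSq (u j) : ℂ) := by
    rw [PiLp.inner_apply]
    refine Finset.sum_congr rfl fun j _ => ?_
    rw [h1, RCLike.inner_apply]
    rw [Complex.normSq_eq_conj_mul_self]
    ring
  rw [h2, Complex.re_sum]
  have h3 : ∀ j, (c * x j * (Complex.normSq (u j) : ℂ)).re = (c * x j).re * Complex.normSq (u j) := by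
    intro j
    rw [Complex.re_mul_ofReal]
  simp only [h3]
  obtain ⟨j, hj⟩ : ∃ j, u j ≠ 0 := by
    by_contra h
    push Not at h
    exact hu (PiLp.ext h)
  refine Finset.sum_neg' (fun j _ => ?_) ⟨j, Finset.mem_univ j, ?_⟩
  · exact mul_nonpos_of_nonpos_of_nonneg (hx j).le (Complex.normSq_nonneg _)
  · exact mul_neg_of_neg_of_pos (hx j) (Complex.normSq_pos.2 hj)

/-- Positive logarithms. -/
theorem exists_log {b n : ℕ} {ρ : ℝ} (hρ : 0 < ρ) (hρ1 : ρ < 1) (β : Fin b → ℂ)
    (hβ : ∀ j, β j ≠ 0) (v : Fin n → ℂ) (hv : v ≠ 0) :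
    ∃ (γ : ℂ) (Λ : EuclideanSpace ℂ (Fin (b + n)) →L[ℂ] EuclideanSpace ℂ (Fin (b + n)))
      (L : (ℂ × EuclideanSpace ℂ (Fin (b + n))) ≃L[ℂ]
        ((Fin 1 → ℂ) × (Fin b → ℂ) × (Fin n → ℂ))), Complex.exp (-γ) = ρ ∧
      (∀ (z : ℂ) (U : EuclideanSpace ℂ (Fin (b + n))), L (ρ * z, NormedSpace.exp Λ U) =
        ((ρ : ℂ) • (L (z, U)).1, Matrix.diagonal β *ᵥ (L (z, U)).2.1,
          (ρ : ℂ) • (L (z, U)).2.2)) ∧
      L (1, 0) = (0, 0, v) ∧
      ∀ u, u ≠ 0 → (inner ℂ u ((2 * Real.pi * Complex.I / γ) • Λ u)).re < 0 := by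
  obtain _ | n := n
  · exact absurd (Subsingleton.elim v 0) hv
  obtain ⟨g, hg⟩ : ∃ g : (Fin (n + 1) → ℂ) ≃L[ℂ] (Fin (n + 1) → ℂ), g (Pi.single 0 1) = v := by
    apply SeparatingDual.exists_continuousLinearEquiv_apply_eq
    · simp
    · exact hv
  have hcard : Fintype.card (Fin (b + (n + 1))) = Fintype.card (Fin 1 ⊕ Fin b ⊕ Fin n) := by
    simp only [Fintype.card_fin, Fintype.card_sum]
    ring
  let σ : Fin (b + (n + 1)) ≃ Fin 1 ⊕ Fin b ⊕ Fin n := Fintype.equivOfCardEq hcard
  let lam : Fin 1 ⊕ Fin b ⊕ Fin n → ℂ := Sum.elim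
    (fun _ => Complex.log ρ + 2 * Real.pi * Complex.I)
    (Sum.elim (fun j => Complex.log (β j) + 2 * Real.pi * Complex.I)
      (fun _ => Complex.log ρ + 2 * Real.pi * Complex.I))
  let L₁ : (ℂ × EuclideanSpace ℂ (Fin (b + (n + 1)))) ≃ₗ[ℂ]
      ((Fin 1 → ℂ) × (Fin b → ℂ) × (Fin (n + 1) → ℂ)) :=
    { toFun := fun w => (fun j => w.2 (σ.symm (Sum.inl j)), fun j => w.2 (σ.symm (Sum.inr (Sum.inl j))),
        g (Fin.cons w.1 fun j => w.2 (σ.symm (Sum.inr (Sum.inr j)))))
      invFun := fun y => (g.symm y.2.2 0, WithLp.toLp 2 fun j =>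
        Sum.elim y.1 (Sum.elim y.2.1 (fun j => g.symm y.2.2 (Fin.succ j))) (σ j))
      map_add' := fun w w' => by
        refine Prod.ext rfl (Prod.ext rfl ?_)
        change g _ = g _ + g _
        rw [← map_add]
        congr 1
        funext a
        refine Fin.cases ?_ (fun a => ?_) a <;> rfl
      map_smul' := fun c w => by
        refine Prod.ext rfl (Prod.ext rfl ?_)
        change g _ = c • g _
        rw [← map_smul]
        congr 1
        funext a
        refine Fin.cases ?_ (fun a => ?_) a <;> rfl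
      left_inv := fun w => by
        refine Prod.ext ?_ (PiLp.ext fun j => ?_)
        · change g.symm (g _) 0 = w.1
          rw [ContinuousLinearEquiv.symm_apply_apply]
          rfl
        · obtain ⟨k, rfl⟩ := σ.symm.surjective j
          simp only [Equiv.apply_symm_apply, ContinuousLinearEquiv.symm_apply_apply]
          rcases k with k | k | k <;> rfl
      right_inv := fun y => by
        refine Prod.ext (funext fun a => ?_) (Prod.ext (funext fun a => ?_) ?_)
        · simp only [Equiv.apply_symm_apply, Sum.elim_inl]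
        · simp only [Equiv.apply_symm_apply, Sum.elim_inl, Sum.elim_inr]
        · have h1 : (Fin.cons (g.symm y.2.2 0) fun j => g.symm y.2.2 (Fin.succ j) :
              Fin (n + 1) → ℂ) = g.symm y.2.2 := Fin.cons_self_tail _
          simp only [Equiv.apply_symm_apply, Sum.elim_inr]
          rw [h1, ContinuousLinearEquiv.apply_symm_apply] }
  refine ⟨-Complex.log ρ, Matrix.toEuclideanCLM (n := Fin (b + (n + 1))) (𝕜 := ℂ)
    (Matrix.diagonal fun j => lam (σ j)), L₁.toContinuousLinearEquiv, ?_, ?_, ?_, ?_⟩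
  · rw [neg_neg, Complex.exp_log]
    exact_mod_cast hρ.ne'
  · intro z U
    have hr : Complex.exp (Complex.log ρ + 2 * Real.pi * Complex.I) = ρ := by
      rw [Complex.exp_add, Complex.exp_two_pi_mul_I, mul_one, Complex.exp_log]
      exact_mod_cast hρ.ne'
    have hb : ∀ j, Complex.exp (Complex.log (β j) + 2 * Real.pi * Complex.I) = β j := by
      intro j
      rw [Complex.exp_add, Complex.exp_two_pi_mul_I, mul_one, Complex.exp_log (hβ j)]
    refine Prod.ext (funext fun a => ?_) (Prod.ext (funext fun a => ?_) ?_)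
    · change (NormedSpace.exp (Matrix.toEuclideanCLM (n := Fin (b + (n + 1))) (𝕜 := ℂ)
        (Matrix.diagonal fun j => lam (σ j))) U) (σ.symm (Sum.inl a)) = (ρ : ℂ) * U (σ.symm (Sum.inl a))
      rw [exp_diagOp, Equiv.apply_symm_apply]
      change Complex.exp (Complex.log ρ + 2 * Real.pi * Complex.I) * _ = _
      rw [hr]
    · change (NormedSpace.exp (Matrix.toEuclideanCLM (n := Fin (b + (n + 1))) (𝕜 := ℂ)
        (Matrix.diagonal fun j => lam (σ j))) U) (σ.symm (Sum.inr (Sum.inl a))) =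
        (Matrix.diagonal β *ᵥ fun j => U (σ.symm (Sum.inr (Sum.inl j)))) a
      rw [exp_diagOp, Equiv.apply_symm_apply, Matrix.mulVec_diagonal]
      change Complex.exp (Complex.log (β a) + 2 * Real.pi * Complex.I) * _ = _
      rw [hb]
    · change g _ = (ρ : ℂ) • g _
      rw [← map_smul]
      congr 1
      funext a
      refine Fin.cases rfl (fun a => ?_) a
      change (NormedSpace.exp (Matrix.toEuclideanCLM (n := Fin (b + (n + 1))) (𝕜 := ℂ)
        (Matrix.diagonal fun j => lam (σ j))) U) (σ.symm (Sum.inr (Sum.inr a))) =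
        (ρ : ℂ) * U (σ.symm (Sum.inr (Sum.inr a)))
      rw [exp_diagOp, Equiv.apply_symm_apply]
      change Complex.exp (Complex.log ρ + 2 * Real.pi * Complex.I) * _ = _
      rw [hr]
  · refine Prod.ext rfl (Prod.ext rfl ?_)
    change g _ = v
    rw [← hg]
    congr 1
    funext a
    refine Fin.cases ?_ (fun a => ?_) a
    · simp
    · simp
  · intro u hu
    refine diagOp_neg _ _ (fun j => ?_) u hu
    have hlog : Real.log ρ < 0 := Real.log_neg hρ hρ1
    have him : 0 < (lam (σ j)).im := by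
      have h1 : ∀ w : ℂ, 0 < (Complex.log w + 2 * Real.pi * Complex.I).im := by
        intro w
        have h2 : (2 * (Real.pi : ℂ) * Complex.I).im = 2 * Real.pi := by simp
        rw [Complex.add_im, h2]
        have h3 := Complex.neg_pi_lt_log_im w
        have h4 := Real.pi_pos
        linarith
      rcases σ j with k | k | k
      · exact h1 _
      · exact h1 _
      · exact h1 _
    have h5 : 2 * (Real.pi : ℂ) * Complex.I / -Complex.log ρ * lam (σ j) =
        ((-(2 * Real.pi) / Real.log ρ : ℝ) : ℂ) * (Complex.I * lam (σ j)) := by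
      rw [← Complex.ofReal_log hρ.le]
      push_cast
      have h6 : (Real.log ρ : ℂ) ≠ 0 := by exact_mod_cast hlog.ne
      field_simp
    rw [h5, Complex.re_ofReal_mul, Complex.I_mul_re]
    have h7 : 0 < -(2 * Real.pi) / Real.log ρ :=
      div_pos_of_neg_of_neg (by linarith [Real.pi_pos]) hlog
    have h8 := mul_pos h7 him
    linarith

end TubF

end Pool.Agent.WallC
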