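import Pool.Agent.Lib.MP_1d980c_gt.Wall.TubD

/-! Tubes in `N × S^(2n)` with their lifts to the cover. -/

set_option autoImplicit false
set_option linter.deprecated false
open Topology Set Module
open scoped ContDiff Manifold Matrix RealInnerProductSpace
open Metric (sphere)

namespace Pool.Agent.WallC

section TubG

variable {b n d D r : ℕ} {ρ : ℝ} {W : Type} [NormedAddCommGroup W] [InnerProductSpace ℂ W]
    [FiniteDimensional ℂ W]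
    (ι : EuclideanSpace ℝ (Fin (d + 1)) ≃L[ℝ] (Fin 1 → ℝ) × (Fin n → ℂ))

/-- The tubes in `N × S^(2n)` and their lifts. -/
theorem exists_lifts (hρ : 0 < ρ) (hρ1 : ρ < 1) {B : Matrix (Fin b) (Fin b) ℂ}
    (hB : IsUnit B.det) (S : Set ((Fin 1 → ℝ) × (Fin b → ℂ)))
    (hSd : ∃ δ > 0, ∀ x ∈ S, ‖x‖ < δ → x = 0) (hS0 : (0 : (Fin 1 → ℝ) × (Fin b → ℂ)) ∈ S)
    (hST : ∀ x ∈ S, ∀ m : ℤ, ((ρ ^ m • x.1, B ^ m *ᵥ x.2) : (Fin 1 → ℝ) × (Fin b → ℂ)) ∈ S)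
    {N : Type} (πN : (Fin 1 → ℝ) × (Fin b → ℂ) × (Fin 1 → ℝ) → N)
    (hN : ∀ q q', πN q = πN q' ↔ ∃ m : ℤ, ∃ c ∈ S,
      q' = ((ρ ^ m : ℝ) • q.1 + c.1, B ^ m *ᵥ q.2.1 + c.2, q.2.2 + fun _ => (m : ℝ)))
    (E : ((Fin 1 → ℂ) × (Fin b → ℂ) × (Fin n → ℂ)) ≃L[ℂ] EuclideanSpace ℂ (Fin D))
    (γ : Fin r → ℂ) (hγ : ∀ i, Complex.exp (-γ i) = ρ) (Λ : Fin r → W →L[ℂ] W)
    (L : Fin r → (ℂ × W) ≃L[ℂ] ((Fin 1 → ℂ) × (Fin b → ℂ) × (Fin n → ℂ)))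
    (hL : ∀ i (z : ℂ) (U : W), L i ((ρ : ℂ) * z, ex (Λ i) 1 U) = Tm ρ B 1 (L i (z, U)))
    (v : Fin r → Fin n → ℂ) (hv : ∀ i, L i (1, 0) = (0, 0, v i)) (hv0 : ∀ i, v i ≠ 0)
    (hind : ∀ i i' (z z' : ℂ), i ≠ i' → z • v i = z' • v i' → z = 0 ∧ z' = 0) :
    ∃ ε₀ > 0, ∀ ε : ℝ, 0 < ε → ε < ε₀ → ∃ g : Fin r → ℂ × W →
      ((Fin 1 → ℝ) × (Fin b → ℂ) × (Fin 1 → ℝ)) × sphere (0 : EuclideanSpace ℝ (Fin (d + 1))) 1,
      (∀ i t c u, ‖u‖ < 1 → ContinuousAt (g i) (tubeZ (γ i) (Λ i) t c u) ∧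
        ∀ᶠ w in 𝓝 (tubeZ (γ i) (Λ i) t c u),
          devG (scalPsi ρ ι) (g i w) = L i (Complex.exp w.1, (ε : ℂ) • w.2)) ∧
      ∀ i t c u i' t' c' u', ‖u‖ < 1 → ‖u'‖ < 1 →
        ((πN (g i (tubeZ (γ i) (Λ i) t c u)).1, (g i (tubeZ (γ i) (Λ i) t c u)).2) =
          (πN (g i' (tubeZ (γ i') (Λ i') t' c' u')).1, (g i' (tubeZ (γ i') (Λ i') t' c' u')).2) ↔
          i' = i ∧ (∃ k : ℤ, t' = t + k) ∧ (∃ k : ℤ, c' = c + k) ∧ u' = u) := by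
  obtain ⟨ε₀, hε₀, hsep⟩ := tube_sep hρ hρ1 hB S hSd hS0 hST γ hγ Λ L hL v hv hv0 hind
  refine ⟨ε₀, hε₀, fun ε hε hε1 => ?_⟩
  obtain ⟨hne, hfib⟩ := hsep ε hε hε1
  have hinj := devS_inj (b := b) ι hρ hρ1
  have hnonempty : Nonempty (((Fin 1 → ℝ) × (Fin b → ℂ) × (Fin 1 → ℝ)) ×
      sphere (0 : EuclideanSpace ℝ (Fin (d + 1))) 1) := by
    have h : (sphere (0 : EuclideanSpace ℝ (Fin (d + 1))) 1).Nonempty :=
      NormedSpace.sphere_nonempty.2 zero_le_one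
    exact ⟨(0, ⟨h.some, h.some_mem⟩)⟩
  set G := Function.invFun (devG (β := Fin b) (scalPsi ρ ι)) with hG
  have hGd : ∀ p, G (devG (scalPsi ρ ι) p) = p := Function.leftInverse_invFun hinj
  have hopen : ∀ p, ∀ V ∈ 𝓝 p, ∀ᶠ w in 𝓝 (devG (β := Fin b) (scalPsi ρ ι) p),
      ∃ p' ∈ V, devG (scalPsi ρ ι) p' = w := by
    intro p V hV
    have h1 : 𝓝 (E (devG (scalPsi ρ ι) p)) ≤
        Filter.map (fun p => E (devG (scalPsi ρ ι) p)) (𝓝 p) :=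
      nhds_le_map_of_bij
        (devG_contMDiff (scalPsi ρ ι) E (scalPsi_contMDiff ι) p)
        (devG_bij (scalPsi ρ ι) E (scalPsi_contMDiff ι) (scalPsi_bij ι hρ hρ1) p)
    have h2 : ∀ᶠ y in 𝓝 (E (devG (scalPsi ρ ι) p)), ∃ p' ∈ V,
        devG (scalPsi ρ ι) p' = E.symm y := by
      refine h1 ?_
      rw [Filter.mem_map]
      filter_upwards [hV] with p' hp'
      exact ⟨p', hp', (E.symm_apply_apply _).symm⟩
    have h3 : Filter.Tendsto E (𝓝 (devG (scalPsi ρ ι) p)) (𝓝 (E (devG (scalPsi ρ ι) p))) :=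
      E.continuous.continuousAt
    filter_upwards [h3.eventually h2] with w hw
    rwa [E.symm_apply_apply] at hw
  have hGc : ∀ p, ContinuousAt G (devG (scalPsi ρ ι) p) := by
    intro p V hV
    rw [hGd] at hV
    rw [Filter.mem_map]
    filter_upwards [hopen p V hV] with w hw
    obtain ⟨p', hp', rfl⟩ := hw
    change G _ ∈ V
    rwa [hGd]
  have hGe : ∀ p, ∀ᶠ w in 𝓝 (devG (β := Fin b) (scalPsi ρ ι) p),
      devG (scalPsi ρ ι) (G w) = w := by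
    intro p
    filter_upwards [hopen p univ Filter.univ_mem] with w hw
    obtain ⟨p', -, rfl⟩ := hw
    rw [hGd]
  have hex : ∀ i t c u, ‖u‖ < 1 →
      ∃ p, devG (scalPsi ρ ι) p = tubeV (L i) (Λ i) (γ i) ε t c u := fun i t c u hu =>
    devS_surj ι hρ hρ1 _ (hne i t c u hu)
  have hVc : ∀ i, Continuous fun w : ℂ × W => L i (Complex.exp w.1, (ε : ℂ) • w.2) := by
    intro i
    exact (L i).continuous.comp ((Complex.continuous_exp.comp continuous_fst).prodMk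
      (continuous_snd.const_smul (ε : ℂ)))
  have hVz : ∀ i t c u, L i (Complex.exp (tubeZ (γ i) (Λ i) t c u).1,
      (ε : ℂ) • (tubeZ (γ i) (Λ i) t c u).2) = tubeV (L i) (Λ i) (γ i) ε t c u :=
    fun i t c u => rfl
  refine ⟨fun i w => G (L i (Complex.exp w.1, (ε : ℂ) • w.2)), ?_, ?_⟩
  · intro i t c u hu
    obtain ⟨p, hp⟩ := hex i t c u hu
    have h1 : L i (Complex.exp (tubeZ (γ i) (Λ i) t c u).1,
      (ε : ℂ) • (tubeZ (γ i) (Λ i) t c u).2) = devG (scalPsi ρ ι) p := (hVz i t c u).trans hp.symm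
    constructor
    · refine ContinuousAt.comp (g := G)
        (f := fun w : ℂ × W => L i (Complex.exp w.1, (ε : ℂ) • w.2)) ?_
        (hVc i).continuousAt
      rw [h1]
      exact hGc p
    · have h2 := (hVc i).tendsto (tubeZ (γ i) (Λ i) t c u)
      rw [h1] at h2
      exact h2.eventually (hGe p)
  · intro i t c u i' t' c' u' hu hu'
    obtain ⟨p, hp⟩ := hex i t c u hu
    obtain ⟨p', hp'⟩ := hex i' t' c' u' hu'
    rw [← hfib i t c u i' t' c' u' hu hu']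
    simp only
    rw [hVz, hVz, ← hp, ← hp', hGd, hGd, Prod.mk.injEq, hN]
    constructor
    · rintro ⟨⟨k, x, hx, h1⟩, h2⟩
      refine ⟨k, x, hx, ?_⟩
      rw [← devS_shift ι hρ B k x p.1 p.2, ← h1, h2]
    · rintro ⟨k, x, hx, h⟩
      have h1 := devS_shift ι hρ B k x p.1 p.2
      have h2 : p' = (((ρ ^ k : ℝ) • p.1.1 + x.1, B ^ k *ᵥ p.1.2.1 + x.2,
          p.1.2.2 + fun _ => (k : ℝ)), p.2) := by
        apply hinj
        rw [h, h1]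
      exact ⟨⟨k, x, hx, congrArg Prod.fst h2⟩, (congrArg Prod.snd h2).symm⟩

end TubG

end Pool.Agent.WallC
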